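import Pool.Agent.LibPlas90.BSet

/-!
Basic facts on the Boolean-valued universe.
-/

universe u

namespace Pool.Agent.LibPlas90

namespace BSet

variable {B : Type u} [CompleteBooleanAlgebra B]

theorem eq_mk (ι : Type u) (A : ι → BSet B) (b : ι → B) (κ : Type u) (C : κ → BSet B)
    (c : κ → B) : eq (mk ι A b) (mk κ C c) =
      (⨅ i, b i ⇨ mem (A i) (mk κ C c)) ⊓ (⨅ j, c j ⇨ ⨆ i, b i ⊓ eq (A i) (C j)) := by
  rw [eq]
  rfl

theorem mem_mk (x : BSet B) (κ : Type u) (C : κ → BSet B) (c : κ → B) :
    mem x (mk κ C c) = ⨆ j, c j ⊓ eq x (C j) := rfl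

-- PLAS-1
theorem eq_refl (x : BSet B) : eq x x = ⊤ := by
  induction x with
  | mk ι A b ih =>
    rw [eq]
    refine top_le_iff.mp (le_inf (le_iInf fun i => ?_) (le_iInf fun i => ?_))
    · rw [le_himp_iff, top_inf_eq]
      refine le_iSup_of_le i ?_
      rw [ih i, inf_top_eq]
    · rw [le_himp_iff, top_inf_eq]
      refine le_iSup_of_le i ?_
      rw [ih i, inf_top_eq]

theorem eq_symm (x y : BSet B) : eq x y = eq y x := by
  induction x generalizing y with
  | mk ι A b ih =>
    cases y with
    | mk κ C c =>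
      rw [eq, eq, inf_comm]
      congr 1
      · refine iInf_congr fun j => ?_
        congr 1
        exact iSup_congr fun i => by rw [ih i]
      · refine iInf_congr fun j => ?_
        congr 1
        exact iSup_congr fun i => by rw [ih j]

theorem eq_mk' (ι : Type u) (A : ι → BSet B) (b : ι → B) (κ : Type u) (C : κ → BSet B)
    (c : κ → B) : eq (mk ι A b) (mk κ C c) =
      (⨅ i, b i ⇨ mem (A i) (mk κ C c)) ⊓ (⨅ j, c j ⇨ mem (C j) (mk ι A b)) := by
  rw [eq_mk]
  congr 1
  refine iInf_congr fun j => ?_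
  rw [mem_mk]
  congr 1
  exact iSup_congr fun i => by rw [eq_symm]

theorem eq_trans (x y z : BSet B) : eq x y ⊓ eq y z ≤ eq x z := by
  induction x generalizing y z with
  | mk ι A b ih =>
    cases y with
    | mk κ C c =>
      cases z with
      | mk ν D d =>
        have key : ∀ i j k, eq (A i) (C j) ⊓ eq (C j) (D k) ≤ eq (A i) (D k) :=
          fun i j k => ih i _ _
        refine le_trans (b := eq (mk ι A b) (mk κ C c) ⊓ eq (mk κ C c) (mk ν D d)) le_rfl ?_
        rw [eq_mk' ι A b ν D d]
        refine le_inf (le_iInf fun i => ?_) (le_iInf fun k => ?_)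
        · rw [le_himp_iff]
          have h1 : eq (mk ι A b) (mk κ C c) ⊓ b i ≤ mem (A i) (mk κ C c) := by
            rw [eq_mk', ← le_himp_iff]
            exact inf_le_left.trans (iInf_le _ i)
          calc eq (mk ι A b) (mk κ C c) ⊓ eq (mk κ C c) (mk ν D d) ⊓ b i
              = eq (mk κ C c) (mk ν D d) ⊓ (eq (mk ι A b) (mk κ C c) ⊓ b i) := by
                rw [inf_comm (eq (mk ι A b) (mk κ C c)), inf_assoc]
            _ ≤ eq (mk κ C c) (mk ν D d) ⊓ mem (A i) (mk κ C c) := inf_le_inf_left _ h1
            _ ≤ mem (A i) (mk ν D d) := by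
                rw [mem_mk, inf_iSup_eq]
                refine iSup_le fun j => ?_
                have h2 : eq (mk κ C c) (mk ν D d) ⊓ c j ≤ mem (C j) (mk ν D d) := by
                  rw [eq_mk', ← le_himp_iff]
                  exact inf_le_left.trans (iInf_le _ j)
                rw [← inf_assoc]
                refine (inf_le_inf_right _ h2).trans ?_
                rw [mem_mk, mem_mk, iSup_inf_eq]
                refine iSup_mono fun k => ?_
                rw [inf_assoc]
                refine inf_le_inf_left _ ?_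
                rw [inf_comm]
                exact key i j k
        · rw [le_himp_iff]
          have h1 : eq (mk κ C c) (mk ν D d) ⊓ d k ≤ mem (D k) (mk κ C c) := by
            rw [eq_mk', ← le_himp_iff]
            exact inf_le_right.trans (iInf_le _ k)
          calc eq (mk ι A b) (mk κ C c) ⊓ eq (mk κ C c) (mk ν D d) ⊓ d k
              = eq (mk ι A b) (mk κ C c) ⊓ (eq (mk κ C c) (mk ν D d) ⊓ d k) := by
                rw [inf_assoc]
            _ ≤ eq (mk ι A b) (mk κ C c) ⊓ mem (D k) (mk κ C c) := inf_le_inf_left _ h1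
            _ ≤ mem (D k) (mk ι A b) := by
                rw [mem_mk, inf_iSup_eq]
                refine iSup_le fun j => ?_
                have h2 : eq (mk ι A b) (mk κ C c) ⊓ c j ≤ mem (C j) (mk ι A b) := by
                  rw [eq_mk', ← le_himp_iff]
                  exact inf_le_right.trans (iInf_le _ j)
                rw [← inf_assoc]
                refine (inf_le_inf_right _ h2).trans ?_
                rw [mem_mk, mem_mk, iSup_inf_eq]
                refine iSup_mono fun i => ?_
                rw [inf_assoc]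
                refine inf_le_inf_left _ ?_
                rw [eq_symm (C j) (A i), eq_symm (D k) (C j), eq_symm (D k) (A i)]
                exact key i j k

theorem mem_congr_left (x y u : BSet B) : eq x y ⊓ mem x u ≤ mem y u := by
  cases u with
  | mk κ C c =>
    rw [mem_mk, mem_mk, inf_iSup_eq]
    refine iSup_mono fun j => ?_
    rw [inf_left_comm]
    refine inf_le_inf_left _ ?_
    rw [eq_symm x y]
    exact eq_trans _ _ _

theorem mem_congr_right (x u v : BSet B) : eq u v ⊓ mem x u ≤ mem x v := by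
  cases u with
  | mk κ C c =>
    cases v with
    | mk ν D d =>
      rw [mem_mk x κ C c, inf_iSup_eq]
      refine iSup_le fun j => ?_
      have h2 : eq (mk κ C c) (mk ν D d) ⊓ c j ≤ mem (C j) (mk ν D d) := by
        rw [eq_mk', ← le_himp_iff]
        exact inf_le_left.trans (iInf_le _ j)
      rw [← inf_assoc]
      refine (inf_le_inf_right _ h2).trans ?_
      rw [inf_comm, eq_symm]
      exact mem_congr_left _ _ _

theorem le_mem (ι : Type u) (A : ι → BSet B) (b : ι → B) (i : ι) : b i ≤ mem (A i) (mk ι A b) := by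
  rw [mem_mk]
  refine le_iSup_of_le i ?_
  rw [eq_refl, inf_top_eq]

theorem le_eq_of_forall (u v : BSet B) (c : B) (h : ∀ x, c ⊓ mem x u ≤ mem x v)
    (h' : ∀ x, c ⊓ mem x v ≤ mem x u) : c ≤ eq u v := by
  cases u with
  | mk ι A b =>
    cases v with
    | mk ν D d =>
      rw [eq_mk']
      refine le_inf (le_iInf fun i => ?_) (le_iInf fun k => ?_)
      · rw [le_himp_iff]
        exact (inf_le_inf_left _ (le_mem ι A b i)).trans (h _)
      · rw [le_himp_iff]
        exact (inf_le_inf_left _ (le_mem ν D d k)).trans (h' _)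

/-- `φ` respects equality. -/
def Ext (φ : BSet B → B) : Prop := ∀ x y, eq x y ⊓ φ x ≤ φ y

theorem all_mk {φ : BSet B → B} (h : Ext φ) (ι : Type u) (A : ι → BSet B) (b : ι → B) :
    all (mk ι A b) φ = ⨅ i, b i ⇨ φ (A i) := by
  unfold all
  apply le_antisymm
  · refine le_iInf fun i => (iInf_le _ (A i)).trans ?_
    exact himp_le_himp_right (le_mem ι A b i)
  · refine le_iInf fun x => ?_
    rw [le_himp_iff, mem_mk, inf_iSup_eq]
    refine iSup_le fun i => ?_
    rw [← inf_assoc]
    have h1 : (⨅ i, b i ⇨ φ (A i)) ⊓ b i ≤ φ (A i) := by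
      rw [← le_himp_iff]
      exact iInf_le _ i
    refine (inf_le_inf_right _ h1).trans ?_
    rw [inf_comm, eq_symm]
    exact h _ _

theorem ex_mk {φ : BSet B → B} (h : Ext φ) (ι : Type u) (A : ι → BSet B) (b : ι → B) :
    ex (mk ι A b) φ = ⨆ i, b i ⊓ φ (A i) := by
  unfold ex
  apply le_antisymm
  · refine iSup_le fun x => ?_
    rw [mem_mk, iSup_inf_eq]
    refine iSup_mono fun i => ?_
    rw [inf_assoc]
    exact inf_le_inf_left _ (h _ _)
  · refine iSup_le fun i => ?_
    refine le_iSup_of_le (A i) ?_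
    exact inf_le_inf_right _ (le_mem ι A b i)

theorem Ext.const (a : B) : Ext (fun _ : BSet B => a) := fun _ _ => inf_le_right

theorem Ext.inf {φ ψ : BSet B → B} (h : Ext φ) (h' : Ext ψ) : Ext (fun x => φ x ⊓ ψ x) := by
  intro x y
  refine le_inf ?_ ?_
  · exact (inf_le_inf_left _ inf_le_left).trans (h x y)
  · exact (inf_le_inf_left _ inf_le_right).trans (h' x y)

theorem Ext.sup {φ ψ : BSet B → B} (h : Ext φ) (h' : Ext ψ) : Ext (fun x => φ x ⊔ ψ x) := by
  intro x y
  rw [inf_sup_left]
  exact sup_le_sup (h x y) (h' x y)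

theorem Ext.himp {φ ψ : BSet B → B} (h : Ext φ) (h' : Ext ψ) : Ext (fun x => φ x ⇨ ψ x) := by
  intro x y
  rw [le_himp_iff]
  have h1 : eq x y ⊓ φ y ≤ φ x := by
    rw [eq_symm]
    exact h y x
  calc eq x y ⊓ (φ x ⇨ ψ x) ⊓ φ y ≤ eq x y ⊓ ((φ x ⇨ ψ x) ⊓ φ x) := by
        refine le_inf (inf_le_left.trans inf_le_left) (le_inf (inf_le_left.trans inf_le_right) ?_)
        refine le_trans ?_ h1
        exact le_inf (inf_le_left.trans inf_le_left) inf_le_right
    _ ≤ eq x y ⊓ ψ x := inf_le_inf_left _ himp_inf_le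
    _ ≤ ψ y := h' x y

theorem Ext.compl {φ : BSet B → B} (h : Ext φ) : Ext (fun x => (φ x)ᶜ) := by
  have := Ext.himp h (Ext.const ⊥)
  simpa using this

theorem Ext.iInf {ι : Sort*} {φ : ι → BSet B → B} (h : ∀ i, Ext (φ i)) :
    Ext (fun x => ⨅ i, φ i x) := by
  intro x y
  exact le_iInf fun i => (inf_le_inf_left _ (iInf_le _ i)).trans (h i x y)

theorem Ext.iSup {ι : Sort*} {φ : ι → BSet B → B} (h : ∀ i, Ext (φ i)) :
    Ext (fun x => ⨆ i, φ i x) := by
  intro x y
  rw [inf_iSup_eq]
  exact iSup_mono fun i => h i x y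

theorem Ext.all {R : BSet B} {φ : BSet B → BSet B → B} (h : ∀ y, Ext (fun x => φ x y)) :
    Ext (fun x => all R (φ x)) :=
  Ext.iInf fun y => Ext.himp (Ext.const _) (h y)

theorem Ext.ex {R : BSet B} {φ : BSet B → BSet B → B} (h : ∀ y, Ext (fun x => φ x y)) :
    Ext (fun x => ex R (φ x)) :=
  Ext.iSup fun y => Ext.inf (Ext.const _) (h y)

theorem Ext.mem_left (u : BSet B) : Ext (fun x => mem x u) := fun x y => mem_congr_left x y u

theorem Ext.mem_right (y : BSet B) : Ext (fun x => mem y x) := fun u v => mem_congr_right y u v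

theorem Ext.eq_left (y : BSet B) : Ext (fun x => eq x y) := by
  intro x z
  rw [eq_symm x z]
  exact eq_trans _ _ _

theorem Ext.eq_right (y : BSet B) : Ext (fun x => eq y x) := by
  intro x z
  rw [inf_comm]
  exact eq_trans _ _ _

end BSet

end Pool.Agent.LibPlas90
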