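import Mathlib

/-!
The Boolean-valued universe `V^B` over a complete Boolean algebra `B`, and the truth value in it
of the set theoretic sentence: there is a dense subgroup `G` of the real line, of cardinality
less than that of the real line, such that each non-expansive bijection of `G` onto itself is an
isometry.

All quantifiers below range over the whole universe `V^B`; the only primitive predicates are
membership and equality.
-/

universe u

namespace Pool.Agent.LibPlas90

/-- The elements of the Boolean-valued universe `V^B`: the set `mk ι A b` has the elements `A i`,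
each with truth value (at least) `b i`. -/
inductive BSet (B : Type u) : Type (u + 1)
  | mk (ι : Type u) (A : ι → BSet B) (b : ι → B) : BSet B

namespace BSet

variable {B : Type u} [CompleteBooleanAlgebra B]

/-- Truth value of `x = y` in `V^B`. -/
noncomputable def eq : BSet B → BSet B → B
  | mk _ A b, mk _ C c =>
    (⨅ i, b i ⇨ ⨆ j, c j ⊓ eq (A i) (C j)) ⊓ (⨅ j, c j ⇨ ⨆ i, b i ⊓ eq (A i) (C j))

/-- Truth value of `x ∈ y` in `V^B`. -/
noncomputable def mem (x : BSet B) : BSet B → B
  | mk _ C c => ⨆ j, c j ⊓ eq x (C j)

/-- Truth value of an equivalence. -/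
noncomputable def equiv (a b : B) : B := (a ⇨ b) ⊓ (b ⇨ a)

/-- `z` is the unordered pair of `x` and `y`. -/
noncomputable def isUPair (z x y : BSet B) : B :=
  ⨅ t : BSet B, equiv (mem t z) (eq t x ⊔ eq t y)

/-- `p` is the ordered (Kuratowski) pair of `x` and `y`. -/
noncomputable def isPair (p x y : BSet B) : B :=
  ⨅ z : BSet B, equiv (mem z p) (isUPair z x x ⊔ isUPair z x y)

/-- The pair of `x` and `y` is in `F`. -/
noncomputable def rel (F x y : BSet B) : B :=
  ⨆ p : BSet B, isPair p x y ⊓ mem p F

/-- The triple of `x`, `y` and `z` is in `P`. -/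
noncomputable def rel3 (P x y z : BSet B) : B :=
  ⨆ q : BSet B, isPair q x y ⊓ rel P q z

/-- For all `x` in `R`. -/
noncomputable def all (R : BSet B) (φ : BSet B → B) : B := ⨅ x : BSet B, mem x R ⇨ φ x

/-- There is `x` in `R`. -/
noncomputable def ex (R : BSet B) (φ : BSet B → B) : B := ⨆ x : BSet B, mem x R ⊓ φ x

/-- `(R, P)` is an abelian group; `P` is the graph of its addition. -/
noncomputable def isGroup (R P : BSet B) : B :=
  (ex R fun _ => ⊤) ⊓
  (all R fun x => all R fun y => ex R fun z => rel3 P x y z) ⊓
  (all R fun x => all R fun y => all R fun z => all R fun w =>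
    rel3 P x y z ⊓ rel3 P x y w ⇨ eq z w) ⊓
  (all R fun x => all R fun y => all R fun z => rel3 P x y z ⇨ rel3 P y x z) ⊓
  (all R fun x => all R fun y => all R fun z => all R fun u => all R fun v => all R fun w =>
    rel3 P x y u ⊓ rel3 P u z v ⊓ rel3 P y z w ⇨ rel3 P x w v) ⊓
  (all R fun x => all R fun y => ex R fun z => rel3 P x z y)

/-- `L` is a dense linear order of `R`, compatible with the addition `P`, with more than one
element. -/
noncomputable def isOrder (R P L : BSet B) : B :=
  (all R fun x => (rel L x x)ᶜ) ⊓
  (all R fun x => all R fun y => all R fun z => rel L x y ⊓ rel L y z ⇨ rel L x z) ⊓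
  (all R fun x => all R fun y => rel L x y ⊔ eq x y ⊔ rel L y x) ⊓
  (all R fun x => all R fun y => all R fun z => all R fun u => all R fun v =>
    rel L x y ⊓ rel3 P x z u ⊓ rel3 P y z v ⇨ rel L u v) ⊓
  (all R fun x => all R fun y => rel L x y ⇨ ex R fun z => rel L x z ⊓ rel L z y) ⊓
  (ex R fun x => ex R fun y => rel L x y)

/-- Each nonempty subset `S` of `R` which has an upper bound has a least upper bound. -/
noncomputable def isComplete (R L : BSet B) : B :=
  ⨅ S : BSet B,
    (ex R fun x => mem x S) ⊓ (ex R fun a => all R fun x => mem x S ⇨ (rel L a x)ᶜ) ⇨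
      ex R fun s => (all R fun x => mem x S ⇨ (rel L s x)ᶜ) ⊓
        (all R fun a => (all R fun x => mem x S ⇨ (rel L a x)ᶜ) ⇨ (rel L a s)ᶜ)

/-- `(R, P, L)` is a Dedekind complete densely ordered abelian group with more than one element;
up to isomorphism the only one is the real line with its addition and its order. -/
noncomputable def isRealLine (R P L : BSet B) : B :=
  isGroup R P ⊓ isOrder R P L ⊓ isComplete R L

/-- `G` is a subgroup of `(R, P)`: a nonempty subset closed under differences. -/
noncomputable def isSubgroup (R P G : BSet B) : B :=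
  (all G fun x => mem x R) ⊓ (ex G fun _ => ⊤) ⊓
  (all G fun x => all G fun y => all R fun z => rel3 P x z y ⇨ mem z G)

/-- `G` is dense in `(R, L)`. -/
noncomputable def isDense (R L G : BSet B) : B :=
  all R fun x => all R fun y => rel L x y ⇨ ex G fun z => rel L x z ⊓ rel L z y

/-- The cardinality of `G` is less than that of `R`: no function maps a subset of `G` onto `R`. -/
noncomputable def isSmall (R G : BSet B) : B :=
  ⨅ f : BSet B,
    ((all R fun y => ex G fun x => rel f x y) ⊓
      (all G fun x => all R fun y => all R fun y' => rel f x y ⊓ rel f x y' ⇨ eq y y'))ᶜ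

/-- `f` is a bijection of `G` onto `G`. -/
noncomputable def isBijection (f G : BSet B) : B :=
  (all G fun x => ex G fun y => rel f x y) ⊓
  (all G fun x => all G fun y => all G fun y' => rel f x y ⊓ rel f x y' ⇨ eq y y') ⊓
  (all G fun y => ex G fun x => rel f x y) ⊓
  (all G fun x => all G fun x' => all G fun y => rel f x y ⊓ rel f x' y ⇨ eq x x')

/-- `a + b ≤ c + d` in `(R, P, L)`. -/
noncomputable def sumLE (R P L a b c d : BSet B) : B :=
  all R fun s => all R fun t => rel3 P a b s ⊓ rel3 P c d t ⇨ (rel L t s)ᶜ

/-- `a + b = c + d` in `(R, P)`. -/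
noncomputable def sumEq (R P a b c d : BSet B) : B :=
  all R fun s => all R fun t => rel3 P a b s ⊓ rel3 P c d t ⇨ eq s t

/-- `|f x - f x'| ≤ |x - x'|` for all `x`, `x'` in `G`; it is enough to say it for `x ≤ x'`,
where it means that `x + f x' ≤ x' + f x` and `x + f x ≤ x' + f x'`. -/
noncomputable def isNonexpansive (R P L f G : BSet B) : B :=
  all G fun x => all G fun x' => all G fun y => all G fun y' =>
    (rel L x' x)ᶜ ⊓ rel f x y ⊓ rel f x' y' ⇨ sumLE R P L x y' x' y ⊓ sumLE R P L x y x' y'

/-- `|f x - f x'| = |x - x'|` for all `x`, `x'` in `G`; it is enough to say it for `x ≤ x'`,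
where it means that `x + f x' = x' + f x` or `x + f x = x' + f x'`. -/
noncomputable def isIsometry (R P L f G : BSet B) : B :=
  all G fun x => all G fun x' => all G fun y => all G fun y' =>
    (rel L x' x)ᶜ ⊓ rel f x y ⊓ rel f x' y' ⇨ sumEq R P x y' x' y ⊔ sumEq R P x y x' y'

/-- `G` is plastic: every non-expansive bijection of `G` onto itself is an isometry. -/
noncomputable def isPlastic (R P L G : BSet B) : B :=
  ⨅ f : BSet B, isBijection f G ⊓ isNonexpansive R P L f G ⇨ isIsometry R P L f G

variable (B)

/-- The truth value in `V^B` of the sentence: the real line has a dense subgroup of cardinality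
less than the continuum which is plastic. -/
noncomputable def plasticSentence : B :=
  ⨆ (R : BSet B) (P : BSet B) (L : BSet B) (G : BSet B),
    isRealLine R P L ⊓ isSubgroup R P G ⊓ isDense R L G ⊓ isSmall R G ⊓ isPlastic R P L G

end BSet

end Pool.Agent.LibPlas90
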