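import Mathlib

/-!
A rigidity lemma on functions of one real variable.
-/

namespace Pool.Agent.LibPlas90

open MeasureTheory

private theorem det_null {f : ℝ → ℝ} {C : NNReal} (hf : LipschitzWith C f) {s : Set ℝ}
    (hs : volume s = 0) : volume (f '' s) = 0 := by
  rw [← hausdorffMeasure_real] at hs ⊢
  have h := hf.hausdorffMeasure_image_le zero_le_one s
  rw [hs, mul_zero] at h
  exact nonpos_iff_eq_zero.1 h

private theorem det_lip {φ : ℝ → ℝ} (hφ : ∀ x y, |φ x - φ y| ≤ |x - y|) : LipschitzWith 1 φ := by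
  apply LipschitzWith.of_dist_le_mul
  intro x y
  rw [Real.dist_eq, Real.dist_eq, NNReal.coe_one, one_mul]
  exact hφ x y

/-- almost everywhere the slope is one or minus one -/
private theorem det_slope (φ : ℝ → ℝ) (hφ : ∀ x y, |φ x - φ y| ≤ |x - y|) (H : AddSubgroup ℝ)
    (hH : (H : Set ℝ).Countable)
    (h1 : ∀ᵐ t : ℝ, ∃ n : ℤ, ∃ h ∈ H, φ t = n * t + h)
    (h0 : ∀ h ∈ H, ∀ᵐ t : ℝ, φ t ≠ h) :
    ∀ᵐ t : ℝ, ∃ ε : ℤ, (ε = 1 ∨ ε = -1) ∧ ∃ h ∈ H, φ t = ε * t + h := by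
  have hcount : Countable (H : Set ℝ) := hH.to_subtype
  have h0' : ∀ᵐ t : ℝ, ∀ h : (H : Set ℝ), φ t ≠ h := by
    rw [ae_all_iff]
    exact fun h => h0 h h.2
  have hbig : ∀ᵐ t : ℝ, ∀ n : ℤ, ∀ h : (H : Set ℝ), 2 ≤ |n| → φ t ≠ n * t + h := by
    rw [ae_all_iff]
    intro n
    rw [ae_all_iff]
    intro h
    rw [ae_iff]
    apply Set.Subsingleton.measure_zero
    intro t ht t' ht'
    simp only [Set.mem_ofPred_eq, Classical.not_imp, not_not, ne_eq] at ht ht'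
    have e : φ t - φ t' = n * (t - t') := by rw [ht.2, ht'.2]; ring
    have h3 := hφ t t'
    rw [e, abs_mul] at h3
    have h4 : (2 : ℝ) ≤ |(n : ℝ)| := by exact_mod_cast ht.1
    have h5 := abs_nonneg (t - t')
    have h6 : |t - t'| = 0 := by nlinarith
    exact sub_eq_zero.1 (abs_eq_zero.1 h6)
  filter_upwards [h1, h0', hbig] with t ht ht0 htb
  obtain ⟨n, h, hh, e⟩ := ht
  have hn0 : n ≠ 0 := by
    rintro rfl
    apply ht0 ⟨h, hh⟩
    rw [e]
    simp
  have hn2 : ¬ 2 ≤ |n| := fun h2 => htb n ⟨h, hh⟩ h2 e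
  refine ⟨n, ?_, h, hh, e⟩
  rcases abs_cases n with h | h <;> omega

/-- there is no local maximum above two points with the same value -/
private theorem det_nomax (φ : ℝ → ℝ) (hφ : ∀ x y, |φ x - φ y| ≤ |x - y|) (H : AddSubgroup ℝ)
    (hH : (H : Set ℝ).Countable)
    (h1 : ∀ᵐ t : ℝ, ∃ ε : ℤ, (ε = 1 ∨ ε = -1) ∧ ∃ h ∈ H, φ t = ε * t + h)
    (h2 : ∀ ε : ℤ, (ε = 1 ∨ ε = -1) → ∀ g ∈ H, (ε ≠ 1 ∨ g ≠ 0) →
      ∀ᵐ t : ℝ, φ t ≠ φ (ε * t + g))
    {a b c : ℝ} (hac : a < c) (hcb : c < b) (hab : φ a = φ b) (hlt : φ a < φ c) : False := by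
  have hcount : Countable (H : Set ℝ) := hH.to_subtype
  have hlip := det_lip hφ
  have hcont := hlip.continuous
  set N : Set ℝ := {t : ℝ | ¬ ∃ ε : ℤ, (ε = 1 ∨ ε = -1) ∧ ∃ h ∈ H, φ t = ε * t + h} with hN
  have hNnull : volume N = 0 := ae_iff.1 h1
  let B : ℤ → ((H : Set ℝ) : Type) → Set ℝ := fun ε g =>
    {t : ℝ | (ε = 1 ∨ ε = -1) ∧ (ε ≠ 1 ∨ (g : ℝ) ≠ 0) ∧ φ t = φ (ε * t + g)}
  have hBnull : ∀ ε g, volume (B ε g) = 0 := by
    intro ε g
    by_cases hε : (ε = 1 ∨ ε = -1) ∧ (ε ≠ 1 ∨ (g : ℝ) ≠ 0)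
    · have := ae_iff.1 (h2 ε hε.1 g g.2 hε.2)
      refine measure_mono_null ?_ this
      intro t ht
      simp only [Set.mem_ofPred_eq, ne_eq, not_not]
      exact ht.2.2
    · have : B ε g = ∅ := by
        ext t
        simp only [Set.mem_ofPred_eq, Set.mem_empty_iff_false, iff_false, B]
        exact fun h => hε ⟨h.1, h.2.1⟩
      rw [this, measure_empty]
  have hsub : Set.Ioo (φ a) (φ c) ⊆ φ '' N ∪ ⋃ ε : ℤ, ⋃ g : (H : Set ℝ), φ '' (B ε g) := by
    intro k hk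
    obtain ⟨x, hx, hxk⟩ := intermediate_value_Ioo hac.le hcont.continuousOn hk
    obtain ⟨y, hy, hyk⟩ := intermediate_value_Ioo' hcb.le hcont.continuousOn (by rwa [← hab])
    have hxy : x < y := hx.2.trans hy.1
    by_cases hxN : x ∈ N
    · exact Or.inl ⟨x, hxN, hxk⟩
    by_cases hyN : y ∈ N
    · exact Or.inl ⟨y, hyN, hyk⟩
    right
    simp only [hN, Set.mem_ofPred_eq, not_not] at hxN hyN
    obtain ⟨e, he, h, hh, hex⟩ := hxN
    obtain ⟨e', he', h', hh', hey⟩ := hyN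
    have hee : ((e' : ℝ)) * e' = 1 := by rcases he' with rfl | rfl <;> norm_num
    have hgH : (e' : ℝ) * (h - h') ∈ H := by
      have hd : h - h' ∈ H := H.sub_mem hh hh'
      rcases he' with rfl | rfl
      · simpa using hd
      · simpa using H.sub_mem hh' hh
    have hy2 : y = ((e' * e : ℤ) : ℝ) * x + (e' : ℝ) * (h - h') := by
      have e1 : (e' : ℝ) * y + h' = e * x + h := by rw [← hey, ← hex, hxk, hyk]
      push_cast
      have e2 : (e' : ℝ) * ((e' : ℝ) * y + h') = (e' : ℝ) * (e * x + h) := by rw [e1]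
      linear_combination e2 - y * hee
    rw [Set.mem_iUnion]
    refine ⟨e' * e, ?_⟩
    rw [Set.mem_iUnion]
    refine ⟨⟨(e' : ℝ) * (h - h'), hgH⟩, x, ⟨?_, ?_, ?_⟩, hxk⟩
    · rcases he with rfl | rfl <;> rcases he' with rfl | rfl <;> norm_num
    · by_contra hcon
      rw [not_or, not_not, not_not] at hcon
      rw [hcon.1] at hy2
      simp only at hcon
      rw [hcon.2] at hy2
      norm_num at hy2
      linarith
    · rw [← hy2, hxk, hyk]
  have hnull : volume (φ '' N ∪ ⋃ ε : ℤ, ⋃ g : (H : Set ℝ), φ '' (B ε g)) = 0 := by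
    rw [measure_union_null_iff]
    refine ⟨det_null hlip hNnull, ?_⟩
    rw [measure_iUnion_null_iff]
    intro ε
    rw [measure_iUnion_null_iff]
    intro g
    exact det_null hlip (hBnull ε g)
  have hvol := measure_mono_null hsub hnull
  rw [Real.volume_Ioo, ENNReal.ofReal_eq_zero] at hvol
  linarith

/-- `φ` is not constant on an interval -/
private theorem det_noconst (φ : ℝ → ℝ) (H : AddSubgroup ℝ)
    (hH : (H : Set ℝ).Countable)
    (h1 : ∀ᵐ t : ℝ, ∃ ε : ℤ, (ε = 1 ∨ ε = -1) ∧ ∃ h ∈ H, φ t = ε * t + h)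
    {a b : ℝ} (hab : a < b) (hc : ∀ c ∈ Set.Ioo a b, φ c = φ a) : False := by
  have hcount : Countable (H : Set ℝ) := hH.to_subtype
  have hsub : Set.Ioo a b ⊆ {t : ℝ | ¬ ∃ ε : ℤ, (ε = 1 ∨ ε = -1) ∧ ∃ h ∈ H, φ t = ε * t + h} ∪
      ⋃ ε : ℤ, ⋃ h : (H : Set ℝ), {(ε : ℝ) * (φ a - h)} := by
    intro t ht
    by_cases h : ∃ ε : ℤ, (ε = 1 ∨ ε = -1) ∧ ∃ h ∈ H, φ t = ε * t + h
    · right
      obtain ⟨ε, hε, h, hh, e⟩ := h
      rw [Set.mem_iUnion]
      refine ⟨ε, ?_⟩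
      rw [Set.mem_iUnion]
      refine ⟨⟨h, hh⟩, ?_⟩
      rw [Set.mem_singleton_iff]
      rw [hc t ht] at e
      have hee : ((ε : ℝ)) * ε = 1 := by rcases hε with rfl | rfl <;> norm_num
      rw [e]
      linear_combination (-t) * hee
    · exact Or.inl h
  have hnull : volume ({t : ℝ | ¬ ∃ ε : ℤ, (ε = 1 ∨ ε = -1) ∧ ∃ h ∈ H, φ t = ε * t + h} ∪
      ⋃ ε : ℤ, ⋃ h : (H : Set ℝ), {(ε : ℝ) * (φ a - h)}) = 0 := by
    rw [measure_union_null_iff]
    refine ⟨ae_iff.1 h1, ?_⟩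
    apply Set.Countable.measure_zero
    exact Set.countable_iUnion fun ε => Set.countable_iUnion fun h => Set.countable_singleton _
  have hvol := measure_mono_null hsub hnull
  rw [Real.volume_Ioo, ENNReal.ofReal_eq_zero] at hvol
  linarith

private theorem det_mono (φ : ℝ → ℝ) (hφ : ∀ x y, |φ x - φ y| ≤ |x - y|) (H : AddSubgroup ℝ)
    (hH : (H : Set ℝ).Countable)
    (h1 : ∀ᵐ t : ℝ, ∃ ε : ℤ, (ε = 1 ∨ ε = -1) ∧ ∃ h ∈ H, φ t = ε * t + h)
    (hm : StrictMono φ) : ∀ x y, |φ x - φ y| = |x - y| := by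
  have hcount : Countable (H : Set ℝ) := hH.to_subtype
  set ψ : ℝ → ℝ := fun t => φ t - t with hψ
  have hlip : LipschitzWith 2 ψ := by
    apply LipschitzWith.of_dist_le_mul
    intro x y
    rw [Real.dist_eq, Real.dist_eq]
    have h3 := hφ x y
    have h4 : |ψ x - ψ y| ≤ |φ x - φ y| + |x - y| := by
      have : ψ x - ψ y = (φ x - φ y) - (x - y) := by simp only [hψ]; ring
      rw [this]
      exact abs_sub _ _
    have h5 : ((2 : NNReal) : ℝ) = 2 := rfl
    rw [h5]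
    linarith
  have hae : ∀ᵐ t : ℝ, ψ t ∈ (H : Set ℝ) := by
    have hneg : ∀ᵐ t : ℝ, ∀ h : (H : Set ℝ), φ t ≠ -t + h := by
      rw [ae_all_iff]
      intro h
      rw [ae_iff]
      apply Set.Subsingleton.measure_zero
      intro t ht t' ht'
      simp only [Set.mem_ofPred_eq, not_not, ne_eq] at ht ht'
      rcases lt_trichotomy t t' with hlt | heq | hlt
      · have := hm hlt
        linarith
      · exact heq
      · have := hm hlt
        linarith
    filter_upwards [h1, hneg] with t ht htn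
    obtain ⟨ε, hε, h, hh, e⟩ := ht
    rcases hε with rfl | rfl
    · have : ψ t = h := by simp only [hψ]; rw [e]; push_cast; ring
      rw [this]
      exact hh
    · exfalso
      apply htn ⟨h, hh⟩
      rw [e]
      push_cast
      ring
  have hrange : volume (Set.range ψ) = 0 := by
    have hsub : Set.range ψ ⊆ (H : Set ℝ) ∪ ψ '' {t : ℝ | ¬ ψ t ∈ (H : Set ℝ)} := by
      rintro _ ⟨t, rfl⟩
      by_cases h : ψ t ∈ (H : Set ℝ)
      · exact Or.inl h
      · exact Or.inr ⟨t, h, rfl⟩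
    refine measure_mono_null hsub ?_
    rw [measure_union_null_iff]
    exact ⟨hH.measure_zero _, det_null hlip (ae_iff.1 hae)⟩
  have hconst : ∀ x y, ¬ ψ x < ψ y := by
    intro x y hlt
    have hsub : Set.Icc (ψ x) (ψ y) ⊆ Set.range ψ :=
      mem_range_of_exists_le_of_exists_ge_aux hlip.continuous x y
    have := measure_mono_null hsub hrange
    rw [Real.volume_Icc, ENNReal.ofReal_eq_zero] at this
    linarith
  intro x y
  have hxy : ψ x = ψ y := le_antisymm (not_lt.1 (hconst y x)) (not_lt.1 (hconst x y))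
  simp only [hψ] at hxy
  have : φ x - φ y = x - y := by linarith
  rw [this]
where
  mem_range_of_exists_le_of_exists_ge_aux {ψ : ℝ → ℝ} (hc : Continuous ψ) (x y : ℝ) :
      Set.Icc (ψ x) (ψ y) ⊆ Set.range ψ := by
    intro z hz
    exact mem_range_of_exists_le_of_exists_ge hc ⟨x, hz.1⟩ ⟨y, hz.2⟩

-- PLAS-19
/-- A 1-Lipschitz function which is a.e. of the form `n * t + h`, with `h` in a countable group,
and which is injective in a measure theoretic sense, is an isometry. -/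
theorem det (φ : ℝ → ℝ) (hφ : ∀ x y, |φ x - φ y| ≤ |x - y|) (H : AddSubgroup ℝ)
    (hH : (H : Set ℝ).Countable)
    (h1 : ∀ᵐ t : ℝ, ∃ n : ℤ, ∃ h ∈ H, φ t = n * t + h)
    (h0 : ∀ h ∈ H, ∀ᵐ t : ℝ, φ t ≠ h)
    (h2 : ∀ ε : ℤ, (ε = 1 ∨ ε = -1) → ∀ g ∈ H, (ε ≠ 1 ∨ g ≠ 0) →
      ∀ᵐ t : ℝ, φ t ≠ φ (ε * t + g)) :
    ∀ x y, |φ x - φ y| = |x - y| := by
  have hs := det_slope φ hφ H hH h1 h0
  have hcont := (det_lip hφ).continuous
  -- the negative of `φ`
  have hφn : ∀ x y, |(-φ x) - (-φ y)| ≤ |x - y| := by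
    intro x y
    have : (-φ x) - (-φ y) = -(φ x - φ y) := by ring
    rw [this, abs_neg]
    exact hφ x y
  have hsn : ∀ᵐ t : ℝ, ∃ ε : ℤ, (ε = 1 ∨ ε = -1) ∧ ∃ h ∈ H, -φ t = ε * t + h := by
    filter_upwards [hs] with t ht
    obtain ⟨ε, hε, h, hh, e⟩ := ht
    refine ⟨-ε, by rcases hε with rfl | rfl <;> simp, -h, H.neg_mem hh, ?_⟩
    rw [e]
    push_cast
    ring
  have h2n : ∀ ε : ℤ, (ε = 1 ∨ ε = -1) → ∀ g ∈ H, (ε ≠ 1 ∨ g ≠ 0) →
      ∀ᵐ t : ℝ, -φ t ≠ -φ (ε * t + g) := by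
    intro ε hε g hg hne
    filter_upwards [h2 ε hε g hg hne] with t ht h
    exact ht (neg_injective h)
  have hnolt : ∀ a b : ℝ, a < b → φ a ≠ φ b := by
    intro a b hab heq
    by_cases hc : ∀ c ∈ Set.Ioo a b, φ c = φ a
    · exact det_noconst φ H hH hs hab hc
    · push Not at hc
      obtain ⟨c, hc, hne⟩ := hc
      rcases lt_or_gt_of_ne hne with hlt | hlt
      · exact det_nomax (fun t => -φ t) hφn H hH hsn h2n hc.1 hc.2
          (by simpa using heq) (by simpa using hlt)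
      · exact det_nomax φ hφ H hH hs h2 hc.1 hc.2 heq hlt
  have hinj : Function.Injective φ := by
    intro a b hab
    rcases lt_trichotomy a b with h | h | h
    · exact absurd hab (hnolt a b h)
    · exact h
    · exact absurd hab.symm (hnolt b a h)
  rcases hcont.strictMono_of_inj hinj with hm | hm
  · exact det_mono φ hφ H hH hs hm
  · intro x y
    have := det_mono (fun t => -φ t) hφn H hH hsn (fun a b hab => neg_lt_neg (hm hab)) x y
    have e : (-φ x) - (-φ y) = -(φ x - φ y) := by ring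
    rw [e, abs_neg] at this
    exact this

end Pool.Agent.LibPlas90
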