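import Pool.Agent.LibPlas90.Prod

/-!
Measurable functions depend on countably many coordinates.
-/

namespace Pool.Agent.LibPlas90

open MeasureTheory

variable {K M : Type}

/-- the sigma-algebra of the sets depending on countably many coordinates -/
private def depSpace (K M : Type) : MeasurableSpace (Om K M) where
  MeasurableSet' S := ∃ D : Set (K ⊕ M), D.Countable ∧
      ∀ ω ω' : Om K M, (∀ j ∈ D, ω j = ω' j) → (ω ∈ S ↔ ω' ∈ S)
  measurableSet_empty := ⟨∅, Set.countable_empty, fun _ _ _ => Iff.rfl⟩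
  measurableSet_compl := by
    rintro S ⟨D, hD, h⟩
    exact ⟨D, hD, fun ω ω' hj => not_congr (h ω ω' hj)⟩
  measurableSet_iUnion := by
    intro f hf
    choose D hD h using hf
    refine ⟨⋃ i, D i, Set.countable_iUnion hD, fun ω ω' hj => ?_⟩
    simp only [Set.mem_iUnion]
    exact exists_congr fun i => h i ω ω' fun j hji => hj j (Set.mem_iUnion.2 ⟨i, hji⟩)

private theorem pi_le_depSpace (K M : Type) :
    (MeasurableSpace.pi : MeasurableSpace (Om K M)) ≤ depSpace K M := by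
  apply iSup_le
  intro j S hS
  obtain ⟨t, _, rfl⟩ := hS
  refine ⟨{j}, Set.countable_singleton j, fun ω ω' hj => ?_⟩
  simp only [Set.mem_preimage]
  rw [hj j rfl]

-- PLAS-16
theorem exists_countable_dep_set {S : Set (Om K M)} (hS : MeasurableSet S) :
    ∃ D : Set (K ⊕ M), D.Countable ∧
      ∀ ω ω' : Om K M, (∀ j ∈ D, ω j = ω' j) → (ω ∈ S ↔ ω' ∈ S) :=
  pi_le_depSpace K M S hS

theorem exists_countable_dep {f : Om K M → ℝ} (hf : Measurable f) :
    ∃ D : Set (K ⊕ M), D.Countable ∧ ∀ ω ω' : Om K M, (∀ j ∈ D, ω j = ω' j) → f ω = f ω' := by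
  have h : ∀ q : ℚ, ∃ D : Set (K ⊕ M), D.Countable ∧
      ∀ ω ω' : Om K M, (∀ j ∈ D, ω j = ω' j) → (ω ∈ {x | f x < q} ↔ ω' ∈ {x | f x < q}) :=
    fun q => exists_countable_dep_set (hf measurableSet_Iio)
  choose D hD hq using h
  refine ⟨⋃ q, D q, Set.countable_iUnion hD, fun ω ω' hj => ?_⟩
  have key : ∀ q : ℚ, f ω < q ↔ f ω' < q := fun q =>
    hq q ω ω' fun j hjq => hj j (Set.mem_iUnion.2 ⟨q, hjq⟩)
  apply le_antisymm
  · by_contra hlt
    obtain ⟨q, h1, h2⟩ := exists_rat_btwn (not_le.1 hlt)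
    exact absurd ((key q).2 h1) (not_lt.2 h2.le)
  · by_contra hlt
    obtain ⟨q, h1, h2⟩ := exists_rat_btwn (not_le.1 hlt)
    exact absurd ((key q).1 h1) (not_lt.2 h2.le)

end Pool.Agent.LibPlas90
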