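import Pool.Agent.LibPlas90.ProdDense
import Pool.Agent.LibPlas90.ProdDep
import Pool.Agent.LibPlas90.Det

/-!
The extension of the partial function.
-/

namespace Pool.Agent.LibPlas90

open MeasureTheory

variable {K M : Type}

/-- The combinations of the coordinates in `A`. -/
abbrev Supp (A : Set (K ⊕ M)) : Type := {c : K →₀ ℤ // ∀ k ∈ c.support, Sum.inl k ∈ A}

/-- The extension of the partial function. -/
noncomputable def Phi (A : Set (K ⊕ M)) (Y : (K →₀ ℤ) → Om K M → ℝ) (ω : Om K M) (t : ℝ) : ℝ :=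
  ⨅ c : Supp A, (Y c.1 ω + |t - ev c.1 ω|)

instance (A : Set (K ⊕ M)) : Nonempty (Supp A) := ⟨⟨0, by simp⟩⟩

theorem countable_Supp {A : Set (K ⊕ M)} (hA : A.Countable) : Countable (Supp A) := by
  have hK : {k : K | (Sum.inl k : K ⊕ M) ∈ A}.Countable := hA.preimage Sum.inl_injective
  have : Countable {k : K | (Sum.inl k : K ⊕ M) ∈ A} := hK
  have h1 : (Set.range (fun c : ({k : K | (Sum.inl k : K ⊕ M) ∈ A} →₀ ℤ) =>
      c.mapDomain Subtype.val)).Countable := Set.countable_range _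
  refine Set.countable_coe_iff.mpr (h1.mono ?_)
  intro c hc
  refine ⟨c.comapDomain Subtype.val Subtype.val_injective.injOn, ?_⟩
  refine Finsupp.mapDomain_comapDomain _ Subtype.val_injective _ ?_
  intro k hk
  exact ⟨⟨k, hc k hk⟩, rfl⟩

theorem Phi_bdd (A : Set (K ⊕ M)) (Y : (K →₀ ℤ) → Om K M → ℝ) (ω : Om K M)
    (hN : ∀ c c' : Supp A, |Y c.1 ω - Y c'.1 ω| ≤ |ev c.1 ω - ev c'.1 ω|) (t : ℝ) :
    BddBelow (Set.range fun c : Supp A => (Y c.1 ω + |t - ev c.1 ω|)) := by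
  let c0 : Supp A := ⟨0, by simp⟩
  refine ⟨Y c0.1 ω - |t - ev c0.1 ω|, ?_⟩
  rintro _ ⟨c, rfl⟩
  have h1 := hN c0 c
  have h2 := abs_sub_abs_le_abs_sub (ev c0.1 ω - t) (ev c.1 ω - t)
  have h3 : |ev c0.1 ω - ev c.1 ω| ≤ |t - ev c0.1 ω| + |t - ev c.1 ω| := by
    have := abs_sub_le (ev c0.1 ω) t (ev c.1 ω)
    rw [abs_sub_comm (ev c0.1 ω) t] at this
    exact this
  have h4 := le_abs_self (Y c0.1 ω - Y c.1 ω)
  simp only
  linarith

theorem Phi_ev (A : Set (K ⊕ M)) (Y : (K →₀ ℤ) → Om K M → ℝ) (ω : Om K M)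
    (hN : ∀ c c' : Supp A, |Y c.1 ω - Y c'.1 ω| ≤ |ev c.1 ω - ev c'.1 ω|) (c : Supp A) :
    Phi A Y ω (ev c.1 ω) = Y c.1 ω := by
  apply le_antisymm
  · have := ciInf_le (Phi_bdd A Y ω hN (ev c.1 ω)) c
    simpa [Phi] using this
  · refine le_ciInf fun c' => ?_
    have h1 := hN c c'
    have h4 := le_abs_self (Y c.1 ω - Y c'.1 ω)
    linarith

theorem Phi_lip (A : Set (K ⊕ M)) (Y : (K →₀ ℤ) → Om K M → ℝ) (ω : Om K M)
    (hN : ∀ c c' : Supp A, |Y c.1 ω - Y c'.1 ω| ≤ |ev c.1 ω - ev c'.1 ω|) (t t' : ℝ) :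
    |Phi A Y ω t - Phi A Y ω t'| ≤ |t - t'| := by
  have key : ∀ u v : ℝ, Phi A Y ω u - |u - v| ≤ Phi A Y ω v := by
    intro u v
    refine le_ciInf fun c => ?_
    have h1 := ciInf_le (Phi_bdd A Y ω hN u) c
    have h2 := abs_sub_le u v (ev c.1 ω)
    have h3 : Phi A Y ω u ≤ Y c.1 ω + |u - ev c.1 ω| := h1
    linarith
  have h1 := key t t'
  have h2 := key t' t
  rw [abs_sub_comm t' t] at h2
  rw [abs_le]
  constructor <;> linarith

theorem measurable_Phi {A : Set (K ⊕ M)} (hA : A.Countable) (Y : (K →₀ ℤ) → Om K M → ℝ)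
    (hY : ∀ c, Measurable (Y c)) {f : Om K M → ℝ} (hf : Measurable f) :
    Measurable fun ω => Phi A Y ω (f ω) := by
  have := countable_Supp hA
  unfold Phi
  refine Measurable.iInf fun c => ?_
  exact (hY c.1).add ((hf.sub (measurable_ev c.1)).abs)

theorem Phi_congr {A : Set (K ⊕ M)} {Y : (K →₀ ℤ) → Om K M → ℝ}
    (hYA : ∀ c : K →₀ ℤ, (∀ k ∈ c.support, Sum.inl k ∈ A) →
        ∀ ω ω' : Om K M, (∀ j ∈ A, ω j = ω' j) → Y c ω = Y c ω')
    {ω ω' : Om K M} (h : ∀ j ∈ A, ω j = ω' j) (t : ℝ) : Phi A Y ω t = Phi A Y ω' t := by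
  unfold Phi
  congr 1
  funext c
  rw [hYA c.1 c.2 ω ω' h, ev_congr c.1 ω ω' (fun k hk => h _ (c.2 k hk))]

/-- The values of the partial function are those of the extension. -/
theorem Phi_eq {A : Set (K ⊕ M)} {Y : (K →₀ ℤ) → Om K M → ℝ} {ω : Om K M}
    (hN : ∀ c c' : Supp A, |Y c.1 ω - Y c'.1 ω| ≤ |ev c.1 ω - ev c'.1 ω|)
    (hd : ∀ a b : ℝ, a < b → ∃ c : Supp A, a < ev c.1 ω ∧ ev c.1 ω < b)
    {c : K →₀ ℤ} (hc : ∀ c' : Supp A, |Y c ω - Y c'.1 ω| ≤ |ev c ω - ev c'.1 ω|) :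
    Y c ω = Phi A Y ω (ev c ω) := by
  by_contra hne
  have hpos : 0 < |Y c ω - Phi A Y ω (ev c ω)| := abs_pos.mpr (sub_ne_zero.mpr hne)
  obtain ⟨c', h1, h2⟩ := hd (ev c ω) (ev c ω + |Y c ω - Phi A Y ω (ev c ω)| / 2) (by linarith)
  have h3 := hc c'
  have h4 := Phi_lip A Y ω hN (ev c'.1 ω) (ev c ω)
  rw [Phi_ev A Y ω hN c'] at h4
  have h5 := abs_sub_le (Y c ω) (Y c'.1 ω) (Phi A Y ω (ev c ω))
  rw [abs_of_neg (by linarith : ev c ω - ev c'.1 ω < 0)] at h3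
  rw [abs_of_pos (by linarith : 0 < ev c'.1 ω - ev c ω)] at h4
  linarith

end Pool.Agent.LibPlas90
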