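import Pool.Agent.LibPlas90.CoreA
import Pool.Agent.LibPlas90.CoreB

/-!
The core of the proof.
-/

namespace Pool.Agent.LibPlas90

open MeasureTheory

variable {K M : Type}

theorem ev_single (k : K) (n : ℤ) (ω : Om K M) :
    ev (Finsupp.single k n) ω = (n : ℝ) * ω (Sum.inl k) := by
  unfold ev
  rw [Finsupp.sum_single_index]
  simp

/-- Evaluation as a homomorphism. -/
noncomputable def evHom (ω : Om K M) : (K →₀ ℤ) →+ ℝ where
  toFun c := ev c ω
  map_zero' := by simp [ev]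
  map_add' c d := ev_add c d ω

/-- The combinations of the coordinates in `A`, as a subgroup. -/
def supG (A : Set (K ⊕ M)) : AddSubgroup (K →₀ ℤ) where
  carrier := {c | ∀ k, c k ≠ 0 → Sum.inl k ∈ A}
  zero_mem' := by intro k hk; simp at hk
  add_mem' := by
    intro a b ha hb k hk
    by_cases h : a k = 0
    · refine hb k fun h' => hk ?_
      simp [h, h']
    · exact ha k h
  neg_mem' := by
    intro a ha k hk
    refine ha k fun h => hk ?_
    simp [h]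

/-- The group of the values of the combinations of the coordinates in `A`. -/
noncomputable def HA (A : Set (K ⊕ M)) (ω : Om K M) : AddSubgroup ℝ := (supG A).map (evHom ω)

theorem mem_HA {A : Set (K ⊕ M)} {ω : Om K M} {h : ℝ} :
    h ∈ HA A ω ↔ ∃ c ∈ supG A, ev c ω = h := Iff.rfl

theorem supp_of_supG {A : Set (K ⊕ M)} {c : K →₀ ℤ} (h : c ∈ supG A) :
    ∀ k ∈ c.support, Sum.inl k ∈ A := fun k hk => h k (Finsupp.mem_support_iff.mp hk)

theorem supG_of_supp {A : Set (K ⊕ M)} {c : K →₀ ℤ} (h : ∀ k ∈ c.support, Sum.inl k ∈ A) :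
    c ∈ supG A := fun k hk => h k (Finsupp.mem_support_iff.mpr hk)

theorem countable_supG {A : Set (K ⊕ M)} (hA : A.Countable) : (supG A : Set (K →₀ ℤ)).Countable := by
  have := countable_Supp hA
  refine (Set.countable_range (fun c : Supp A => c.1)).mono ?_
  intro c hc
  exact ⟨⟨c, supp_of_supG hc⟩, rfl⟩

theorem countable_HA {A : Set (K ⊕ M)} (hA : A.Countable) (ω : Om K M) :
    (HA A ω : Set ℝ).Countable := by
  refine ((countable_supG hA).image (fun c => ev c ω)).mono ?_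
  rintro h ⟨c, hc, rfl⟩
  exact ⟨c, hc, rfl⟩

theorem single_mem_supG {A : Set (K ⊕ M)} {k : K} (hk : Sum.inl k ∈ A) (n : ℤ) :
    Finsupp.single k n ∈ supG A := by
  classical
  intro j hj
  by_cases h : k = j
  · exact h ▸ hk
  · rw [Finsupp.single_apply, if_neg h] at hj
    exact absurd rfl hj

/-- Resampling outside of `A`. -/
theorem ae_push [DecidableEq (K ⊕ M)] {A : Set (K ⊕ M)} {S : Set (Om K M)}
    (hSA : ∀ ω ω' : Om K M, (∀ j ∈ A, ω j = ω' j) → (ω ∈ S ↔ ω' ∈ S)) {j : K ⊕ M}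
    (hj : j ∉ A) {p : Om K M → Prop} (h : ∀ᵐ ω ∂(mu K M), ω ∈ S → p ω) :
    ∀ᵐ ω ∂(mu K M), ω ∈ S → ∀ᵐ s ∂lam, p (Function.update ω j s) := by
  filter_upwards [ae_update j h] with ω hω hS
  filter_upwards [hω] with s hs
  refine hs ((hSA ω _ fun i hi => ?_).mp hS)
  rw [Function.update_of_ne]
  rintro rfl
  exact hj hi

theorem cover {Q : ℝ → Prop} {r : ℝ} (hr : r ∈ Set.Ioo (0 : ℝ) 1)
    (h : ∀ m : ℤ, ∀ᵐ s ∂lam, Q (s + m * r)) : ∀ᵐ t : ℝ, Q t := by
  have h1 : ∀ m : ℤ, ∀ᵐ t : ℝ, (t - m * r) ∈ Set.Icc (0 : ℝ) 1 → Q t := by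
    intro m
    have h2 := h m
    rw [lam, ae_restrict_iff' measurableSet_Icc] at h2
    have h3 := (measurePreserving_sub_right (volume : Measure ℝ) (m * r)).quasiMeasurePreserving.ae h2
    filter_upwards [h3] with t ht h4
    have := ht h4
    simpa using this
  filter_upwards [ae_all_iff.mpr h1] with t ht
  refine ht ⌊t / r⌋ ⟨?_, ?_⟩
  · have := Int.floor_le (t / r)
    rw [le_div_iff₀ hr.1] at this
    linarith
  · have := Int.lt_floor_add_one (t / r)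
    rw [div_lt_iff₀ hr.1] at this
    have h5 := hr.2
    nlinarith

set_option linter.unusedSectionVars false

section

variable {A : Set (K ⊕ M)} (hA : A.Countable) {S : Set (Om K M)} (hS : MeasurableSet S)
  (hSA : ∀ ω ω' : Om K M, (∀ j ∈ A, ω j = ω' j) → (ω ∈ S ↔ ω' ∈ S))
  {Y : (K →₀ ℤ) → Om K M → ℝ} (hY : ∀ c, Measurable (Y c))
  (hYA : ∀ c : K →₀ ℤ, (∀ k ∈ c.support, Sum.inl k ∈ A) →
        ∀ ω ω' : Om K M, (∀ j ∈ A, ω j = ω' j) → Y c ω = Y c ω')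
  (hPhi : ∀ c, ∀ᵐ ω ∂(mu K M), ω ∈ S → Y c ω = Phi A Y ω (ev c ω))
  {α k0 : K} (hα : Sum.inl α ∉ A) (hk0 : Sum.inl k0 ∈ A)

include hSA hYA hPhi hα hk0

theorem ev_cm [DecidableEq (K ⊕ M)] (m : ℤ) (ω : Om K M) (s : ℝ) :
    ev (Finsupp.single α 1 + Finsupp.single k0 m) (Function.update ω (Sum.inl α) s) =
      s + m * ω (Sum.inl k0) := by
  have hne : (Sum.inl k0 : K ⊕ M) ≠ Sum.inl α := by
    intro h
    exact hα (h ▸ hk0)
  rw [ev_add, ev_single, ev_single, Function.update_self, Function.update_of_ne hne]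
  simp

include hA hS hY

theorem claim1 (m : ℤ) (hG : ∃ D : Set (K →₀ ℤ), D.Countable ∧
      ∀ᵐ ω ∂(mu K M), ω ∈ S → ∃ d ∈ D, Y (Finsupp.single α 1 + Finsupp.single k0 m) ω = ev d ω) :
    ∀ᵐ ω ∂(mu K M), ω ∈ S → ∀ᵐ s ∂lam, ∃ n : ℤ, ∃ h ∈ HA A ω,
      Phi A Y ω (s + m * ω (Sum.inl k0)) = n * (s + m * ω (Sum.inl k0)) + h := by
  classical
  set cm : K →₀ ℤ := Finsupp.single α 1 + Finsupp.single k0 m with hcm
  obtain ⟨D, hD, hDY⟩ := hG
  have hne : k0 ≠ α := by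
    rintro rfl
    exact hα hk0
  have e2 : ∀ d ∈ D, ¬ (∀ k ∈ d.support, Sum.inl k ∈ A ∨ k = α) →
      ∀ᵐ ω ∂(mu K M), ω ∈ S → Phi A Y ω (ev cm ω) ≠ ev d ω := by
    intro d hd hnot
    push Not at hnot
    obtain ⟨β, hβd, hβA, hβα⟩ := hnot
    have hβk : k0 ≠ β := by
      rintro rfl
      exact hβA hk0
    have hmeas : MeasurableSet {ω : Om K M | ω ∈ S → Phi A Y ω (ev cm ω) ≠ ev d ω} := by
      have h1 : MeasurableSet {ω : Om K M | Phi A Y ω (ev cm ω) = ev d ω} :=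
        measurableSet_eq_fun (measurable_Phi hA Y hY (measurable_ev cm)) (measurable_ev d)
      have h2 : {ω : Om K M | ω ∈ S → Phi A Y ω (ev cm ω) ≠ ev d ω} =
          Sᶜ ∪ {ω : Om K M | Phi A Y ω (ev cm ω) = ev d ω}ᶜ := by
        ext ω
        simp only [Set.mem_ofPred_eq, Set.mem_union, Set.mem_compl_iff]
        tauto
      rw [h2]
      exact hS.compl.union h1.compl
    refine ae_of_update (Sum.inl β) hmeas (Filter.Eventually.of_forall fun ω => ?_)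
    have hone : ∀ᵐ s ∂lam, s ≠ (Phi A Y ω (ev cm ω) - ev d ω) / (d β) + ω (Sum.inl β) := by
      rw [ae_iff]
      have : {s : ℝ | ¬ s ≠ (Phi A Y ω (ev cm ω) - ev d ω) / (d β) + ω (Sum.inl β)} =
          {(Phi A Y ω (ev cm ω) - ev d ω) / (d β) + ω (Sum.inl β)} := by
        ext s; simp
      rw [this, lam]
      exact le_antisymm ((Measure.restrict_apply_le _ _).trans (by simp)) bot_le
    filter_upwards [hone] with s hs _ heq
    have hagree : ∀ j ∈ A, Function.update ω (Sum.inl β) s j = ω j := by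
      intro j hj
      rw [Function.update_of_ne]
      rintro rfl
      exact hβA hj
    rw [Phi_congr hYA hagree, ev_update, ev_update] at heq
    have hc : cm β = 0 := by
      rw [hcm, Finsupp.add_apply, Finsupp.single_apply, Finsupp.single_apply, if_neg hβα.symm,
        if_neg hβk, add_zero]
    rw [hc] at heq
    have hdβ : (d β : ℝ) ≠ 0 := by
      have := Finsupp.mem_support_iff.mp hβd
      exact_mod_cast this
    apply hs
    simp only [Int.cast_zero, zero_mul, add_zero] at heq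
    rw [heq]
    field_simp
    ring
  have e3 : ∀ᵐ ω ∂(mu K M), ω ∈ S → ∃ d : K →₀ ℤ, (∀ k ∈ d.support, Sum.inl k ∈ A ∨ k = α) ∧
      Phi A Y ω (ev cm ω) = ev d ω := by
    have e4 : ∀ᵐ ω ∂(mu K M), ∀ d ∈ D, ¬ (∀ k ∈ d.support, Sum.inl k ∈ A ∨ k = α) →
        ω ∈ S → Phi A Y ω (ev cm ω) ≠ ev d ω := by
      refine (ae_ball_iff hD).mpr fun d hd => ?_
      by_cases h : ∀ k ∈ d.support, Sum.inl k ∈ A ∨ k = α
      · exact Filter.Eventually.of_forall fun ω h' => absurd h h'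
      · filter_upwards [e2 d hd h] with ω hω _
        exact hω
    filter_upwards [e4, hDY, hPhi cm] with ω h4 h5 h6 hωS
    obtain ⟨d, hd, hd2⟩ := h5 hωS
    refine ⟨d, ?_, ?_⟩
    · by_contra hcon
      exact h4 d hd hcon hωS (by rw [← h6 hωS, hd2])
    · rw [← h6 hωS, hd2]
  filter_upwards [ae_push hSA hα e3] with ω hω hωS
  filter_upwards [hω hωS] with s hs
  obtain ⟨d, hd, hd2⟩ := hs
  have hagree : ∀ j ∈ A, Function.update ω (Sum.inl α) s j = ω j := by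
    intro j hj
    rw [Function.update_of_ne]
    rintro rfl
    exact hα hj
  rw [Phi_congr hYA hagree, ev_cm hSA hYA hPhi hα hk0, ev_update] at hd2
  refine ⟨d α, ev (d - Finsupp.single α (d α) - Finsupp.single k0 (d α * m)) ω, ?_, ?_⟩
  · refine mem_HA.mpr ⟨_, ?_, rfl⟩
    refine (supG A).sub_mem ?_ (single_mem_supG hk0 _)
    intro k hk
    rw [Finsupp.sub_apply, Finsupp.single_apply] at hk
    by_cases h : α = k
    · rw [if_pos h, h, sub_self] at hk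
      exact absurd rfl hk
    · rw [if_neg h, sub_zero] at hk
      rcases hd k (Finsupp.mem_support_iff.mpr hk) with h' | h'
      · exact h'
      · exact absurd h'.symm h
  · rw [hd2, ev_sub, ev_sub, ev_single, ev_single]
    push_cast
    ring

theorem claim0 (m : ℤ) {α' : K} (hα' : Sum.inl α' ∉ A) (hαα' : α ≠ α')
    (hI : ∀ c c', c ≠ c' → ∀ᵐ ω ∂(mu K M), ω ∈ S → Y c ω ≠ Y c' ω) :
    ∀ᵐ ω ∂(mu K M), ω ∈ S → ∀ κ : ℝ, ∀ᵐ s ∂lam, Phi A Y ω (s + m * ω (Sum.inl k0)) ≠ κ := by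
  classical
  have hcc : (Finsupp.single α (1 : ℤ) + Finsupp.single k0 m) ≠
      Finsupp.single α' 1 + Finsupp.single k0 m := by
    intro h
    have h1 := DFunLike.congr_fun (add_right_cancel h) α
    rw [Finsupp.single_apply, Finsupp.single_apply, if_pos rfl, if_neg hαα'.symm] at h1
    exact one_ne_zero h1
  have e1 : ∀ᵐ ω ∂(mu K M), ω ∈ S →
      Phi A Y ω (ev (Finsupp.single α (1 : ℤ) + Finsupp.single k0 m) ω) ≠
      Phi A Y ω (ev (Finsupp.single α' (1 : ℤ) + Finsupp.single k0 m) ω) := by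
    filter_upwards [hI _ _ hcc, hPhi (Finsupp.single α (1 : ℤ) + Finsupp.single k0 m),
      hPhi (Finsupp.single α' (1 : ℤ) + Finsupp.single k0 m)] with ω h1 h2 h3 hωS
    rw [← h2 hωS, ← h3 hωS]
    exact h1 hωS
  have hagree : ∀ (β : K) (_ : Sum.inl β ∉ A) (ω : Om K M) (s : ℝ), ∀ j ∈ A,
      Function.update ω (Sum.inl β) s j = ω j := by
    intro β hβ ω s j hj
    rw [Function.update_of_ne]
    rintro rfl
    exact hβ hj
  have hk : ∀ (β : K) (_ : Sum.inl β ∉ A) (ω : Om K M) (s : ℝ),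
      Function.update ω (Sum.inl β) s (Sum.inl k0) = ω (Sum.inl k0) := by
    intro β hβ ω s
    exact hagree β hβ ω s _ hk0
  have e2 := ae_push hSA hα e1
  have e3 : ∀ᵐ ω ∂(mu K M), ω ∈ S → ∀ᵐ s ∂lam, Phi A Y ω (s + m * ω (Sum.inl k0)) ≠
      Phi A Y ω (ω (Sum.inl α') + m * ω (Sum.inl k0)) := by
    filter_upwards [e2] with ω h1 hωS
    filter_upwards [h1 hωS] with s hs
    rw [ev_cm hSA hYA hPhi hα hk0, Phi_congr hYA (hagree α hα ω s),
      Phi_congr hYA (hagree α hα ω s), ev_add, ev_single, ev_single, hk α hα,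
      Function.update_of_ne (by simpa using hαα'.symm)] at hs
    simpa using hs
  have e4 := ae_push hSA hα' e3
  filter_upwards [e4] with ω h4 hωS κ
  by_contra hcon
  have h5 : ∃ᶠ s in ae lam, Phi A Y ω (s + m * ω (Sum.inl k0)) = κ := by
    rw [Filter.not_eventually] at hcon
    exact hcon.mono fun s hs => not_not.mp hs
  obtain ⟨s', h6, h7⟩ := (h5.and_eventually (h4 hωS)).exists
  have h8 : ∀ᵐ s ∂lam, Phi A Y ω (s + m * ω (Sum.inl k0)) ≠ κ := by
    filter_upwards [h7] with s hs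
    rw [Phi_congr hYA (hagree α' hα' ω s'), Phi_congr hYA (hagree α' hα' ω s'), hk α' hα',
      Function.update_self, h6] at hs
    exact hs
  exact hcon h8

theorem claim2 (m : ℤ) (hI : ∀ c c', c ≠ c' → ∀ᵐ ω ∂(mu K M), ω ∈ S → Y c ω ≠ Y c' ω)
    {ε : ℤ} (hε : ε = 1 ∨ ε = -1) {g : K →₀ ℤ} (hg : g ∈ supG A) (hεg : ε ≠ 1 ∨ g ≠ 0) :
    ∀ᵐ ω ∂(mu K M), ω ∈ S → ∀ᵐ s ∂lam, Phi A Y ω (s + m * ω (Sum.inl k0)) ≠
      Phi A Y ω (ε * (s + m * ω (Sum.inl k0)) + ev g ω) := by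
  classical
  have hne : k0 ≠ α := by
    rintro rfl
    exact hα hk0
  set cm : K →₀ ℤ := Finsupp.single α 1 + Finsupp.single k0 m with hcm
  have hcα : cm α = 1 := by
    rw [hcm, Finsupp.add_apply, Finsupp.single_apply, Finsupp.single_apply, if_pos rfl,
      if_neg hne, add_zero]
  have hgα : g α = 0 := by
    by_contra h
    exact hα (hg α h)
  have hcc : cm ≠ ε • cm + g := by
    intro h
    have h1 : cm α = ε * cm α + g α := by
      calc cm α = (ε • cm + g) α := by rw [← h]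
        _ = ε * cm α + g α := rfl
    rw [hcα, hgα] at h1
    have h2 : ε = 1 := by linarith
    rcases hεg with h3 | h3
    · exact h3 h2
    · rw [h2, one_smul] at h
      exact h3 (by simpa using h)
  have hagree : ∀ (ω : Om K M) (s : ℝ), ∀ j ∈ A,
      Function.update ω (Sum.inl α) s j = ω j := by
    intro ω s j hj
    rw [Function.update_of_ne]
    rintro rfl
    exact hα hj
  have hsmul : ∀ ω : Om K M, ev (ε • cm + g) ω = ε * ev cm ω + ev g ω := by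
    intro ω
    have h1 := (evHom ω).map_add (ε • cm) g
    rw [map_zsmul] at h1
    have h2 : ev (ε • cm + g) ω = ε • ev cm ω + ev g ω := h1
    rw [h2, zsmul_eq_mul]
  have e1 : ∀ᵐ ω ∂(mu K M), ω ∈ S →
      Phi A Y ω (ev cm ω) ≠ Phi A Y ω (ε * ev cm ω + ev g ω) := by
    filter_upwards [hI _ _ hcc, hPhi cm, hPhi (ε • cm + g)] with ω h1 h2 h3 hωS
    rw [← hsmul, ← h2 hωS, ← h3 hωS]
    exact h1 hωS
  filter_upwards [ae_push hSA hα e1] with ω h1 hωS
  filter_upwards [h1 hωS] with s hs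
  rw [ev_cm hSA hYA hPhi hα hk0, Phi_congr hYA (hagree ω s),
      Phi_congr hYA (hagree ω s), ev_update, hgα] at hs
  simpa using hs

end

theorem core [Uncountable K] (S : Set (Om K M)) (hS : MeasurableSet S)
    (Y : (K →₀ ℤ) → Om K M → ℝ) (hY : ∀ c, Measurable (Y c))
    (hG : ∀ c, ∃ D : Set (K →₀ ℤ), D.Countable ∧
      ∀ᵐ ω ∂(mu K M), ω ∈ S → ∃ d ∈ D, Y c ω = ev d ω)
    (hN : ∀ c c', ∀ᵐ ω ∂(mu K M), ω ∈ S → |Y c ω - Y c' ω| ≤ |ev c ω - ev c' ω|)
    (hI : ∀ c c', c ≠ c' → ∀ᵐ ω ∂(mu K M), ω ∈ S → Y c ω ≠ Y c' ω) :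
    ∀ c c', ∀ᵐ ω ∂(mu K M), ω ∈ S → |Y c ω - Y c' ω| = |ev c ω - ev c' ω| := by
  classical
  obtain ⟨A, hA, hAinf, hSA, hYA⟩ := exists_closed Y hY S hS
  have hcS := countable_Supp hA
  have g1 : ∀ᵐ ω ∂(mu K M), ω ∈ S → ∀ c c' : Supp A,
      |Y c.1 ω - Y c'.1 ω| ≤ |ev c.1 ω - ev c'.1 ω| := by
    have : ∀ᵐ ω ∂(mu K M), ∀ c c' : Supp A, ω ∈ S →
        |Y c.1 ω - Y c'.1 ω| ≤ |ev c.1 ω - ev c'.1 ω| :=
      ae_all_iff.mpr fun c => ae_all_iff.mpr fun c' => hN c.1 c'.1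
    filter_upwards [this] with ω h hωS c c'
    exact h c c' hωS
  have g2 : ∀ᵐ ω ∂(mu K M), ∀ a b : ℝ, a < b → ∃ c : Supp A, a < ev c.1 ω ∧ ev c.1 ω < b := by
    filter_upwards [ev_dense (M := M) hAinf] with ω h a b hab
    obtain ⟨c, hc, h1, h2⟩ := h a b hab
    exact ⟨⟨c, fun k hk => hc hk⟩, h1, h2⟩
  have g3 : ∀ c, ∀ᵐ ω ∂(mu K M), ω ∈ S → Y c ω = Phi A Y ω (ev c ω) := by
    intro c
    have : ∀ᵐ ω ∂(mu K M), ∀ c' : Supp A, ω ∈ S → |Y c ω - Y c'.1 ω| ≤ |ev c ω - ev c'.1 ω| :=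
      ae_all_iff.mpr fun c' => hN c c'.1
    filter_upwards [this, g1, g2] with ω h1 h2 h3 hωS
    exact Phi_eq (h2 hωS) h3 (fun c' => h1 c' hωS)
  -- two coordinates outside of `A`
  have hKA : {k : K | (Sum.inl k : K ⊕ M) ∈ A}.Countable := hA.preimage Sum.inl_injective
  have hco : {k : K | (Sum.inl k : K ⊕ M) ∈ A}ᶜ.Infinite := by
    intro hfin
    have h1 := hKA.union hfin.countable
    rw [Set.union_compl_self] at h1
    exact Set.not_countable_univ h1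
  obtain ⟨α, hα⟩ := hco.nonempty
  obtain ⟨α', hα', hne⟩ := hco.exists_notMem_finite (Set.finite_singleton α)
  obtain ⟨k0, hk0⟩ := hAinf.nonempty
  have hαα' : α ≠ α' := fun h => hne h.symm
  have c1 : ∀ᵐ ω ∂(mu K M), ω ∈ S → ∀ m : ℤ, ∀ᵐ s ∂lam, ∃ n : ℤ, ∃ h ∈ HA A ω,
      Phi A Y ω (s + m * ω (Sum.inl k0)) = n * (s + m * ω (Sum.inl k0)) + h := by
    have := ae_all_iff.mpr fun m => claim1 hA hS hSA hY hYA g3 hα hk0 m (hG _)
    filter_upwards [this] with ω h hωS m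
    exact h m hωS
  have c0 : ∀ᵐ ω ∂(mu K M), ω ∈ S → ∀ m : ℤ, ∀ κ : ℝ, ∀ᵐ s ∂lam,
      Phi A Y ω (s + m * ω (Sum.inl k0)) ≠ κ := by
    have := ae_all_iff.mpr fun m => claim0 hA hS hSA hY hYA g3 hα hk0 m hα' hαα' hI
    filter_upwards [this] with ω h hωS m
    exact h m hωS
  have c2 : ∀ᵐ ω ∂(mu K M), ω ∈ S → ∀ ε : ℤ, (ε = 1 ∨ ε = -1) → ∀ g ∈ supG A,
      (ε ≠ 1 ∨ g ≠ 0) → ∀ m : ℤ, ∀ᵐ s ∂lam, Phi A Y ω (s + m * ω (Sum.inl k0)) ≠
      Phi A Y ω (ε * (s + m * ω (Sum.inl k0)) + ev g ω) := by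
    have : ∀ᵐ ω ∂(mu K M), ∀ ε : ℤ, ∀ g ∈ (supG A : Set (K →₀ ℤ)), ∀ m : ℤ,
        (ε = 1 ∨ ε = -1) → (ε ≠ 1 ∨ g ≠ 0) → ω ∈ S →
        ∀ᵐ s ∂lam, Phi A Y ω (s + m * ω (Sum.inl k0)) ≠
        Phi A Y ω (ε * (s + m * ω (Sum.inl k0)) + ev g ω) := by
      refine ae_all_iff.mpr fun ε => (ae_ball_iff (countable_supG hA)).mpr fun g hg =>
        ae_all_iff.mpr fun m => ?_
      by_cases h1 : ε = 1 ∨ ε = -1
      · by_cases h2 : ε ≠ 1 ∨ g ≠ 0
        · filter_upwards [claim2 hA hS hSA hY hYA g3 hα hk0 m hI h1 hg h2] with ω h3 _ _ h4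
          exact h3 h4
        · exact Filter.Eventually.of_forall fun ω _ h3 => absurd h3 h2
      · exact Filter.Eventually.of_forall fun ω h3 => absurd h3 h1
    filter_upwards [this] with ω h hωS ε hε g hg hεg m
    exact h ε g hg m hε hεg hωS
  have c3 : ∀ᵐ ω ∂(mu K M), ω ∈ S → ∀ x y, |Phi A Y ω x - Phi A Y ω y| = |x - y| := by
    filter_upwards [c0, c1, c2, g1, coord_mem (M := M) (Sum.inl k0)] with ω h0 h1 h2 h3 h4 hωS
    refine det (Phi A Y ω) (Phi_lip A Y ω (h3 hωS)) (HA A ω) (countable_HA hA ω)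
      (cover h4 (h1 hωS)) (fun h _ => cover h4 fun m => h0 hωS m h) ?_
    rintro ε hε g hg hεg
    obtain ⟨c, hc, rfl⟩ := mem_HA.mp hg
    refine cover (Q := fun t => Phi A Y ω t ≠ Phi A Y ω (ε * t + ev c ω)) h4 ?_
    refine h2 hωS ε hε c hc ?_
    rcases hεg with h5 | h5
    · exact Or.inl h5
    · refine Or.inr ?_
      rintro rfl
      exact h5 (evHom ω).map_zero
  intro c c'
  filter_upwards [c3, g3 c, g3 c'] with ω h1 h2 h3 hωS
  rw [h2 hωS, h3 hωS]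
  exact h1 hωS _ _

end Pool.Agent.LibPlas90
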