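import Pool.Agent.LibPlas90.MeasApi

/-!
Suprema in a measure algebra are suprema of countable subfamilies.
-/

namespace Pool.Agent.LibPlas90

open MeasureTheory

namespace MeasAlg

variable {Ω : Type} [MeasurableSpace Ω] {μ : Measure Ω} (A : MeasAlg μ)

-- PLAS-4b
theorem exists_countable_iSup [IsProbabilityMeasure μ] {ι : Type*} (a : ι → A.B) :
    ∃ C : Set ι, C.Countable ∧ ⨆ i, a i = ⨆ i ∈ C, a i := by
  choose f hf hf2 using A.surj
  obtain ⟨C, hC, hC2⟩ := exists_countable_cover μ (fun i => f (a i)) (fun i => hf _)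
  refine ⟨C, hC, le_antisymm (iSup_le fun i => ?_) (iSup₂_le fun i _ => le_iSup a i)⟩
  have : Countable C := hC
  have h1 : ⨆ i ∈ C, a i = A.cls (⋃ j ∈ C, f (a j)) := by
    rw [Set.biUnion_eq_iUnion, A.cls_iUnion (fun i => hf _), iSup_subtype']
    exact iSup_congr fun i => (hf2 _).symm
  rw [h1, ← hf2 (a i), A.cls_le (hf _) (MeasurableSet.biUnion hC fun j _ => hf _)]
  exact hC2 i

theorem ccc [IsProbabilityMeasure μ] {ι : Type*} (a : ι → A.B) (h : ∀ i, a i ≠ ⊥)
    (h' : ∀ i j, i ≠ j → a i ⊓ a j = ⊥) : Countable ι := by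
  obtain ⟨C, hC, hC2⟩ := A.exists_countable_iSup a
  have h1 : C = Set.univ := by
    refine Set.eq_univ_of_forall fun i => ?_
    by_contra hi
    apply h i
    refine le_bot_iff.mp ?_
    calc a i = a i ⊓ ⨆ j ∈ C, a j := by
          rw [← hC2, inf_eq_left.mpr (le_iSup a i)]
      _ = ⨆ j ∈ C, a i ⊓ a j := by rw [inf_iSup₂_eq]
      _ ≤ ⊥ := by
          refine iSup₂_le fun j hj => ?_
          rw [h' i j]
          rintro rfl
          exact hi hj
  rw [h1] at hC
  exact Set.countable_univ_iff.mp hC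

end MeasAlg

end Pool.Agent.LibPlas90
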