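import Pool.Agent.LibPlas90.Core
import Pool.Agent.LibPlas90.MeasCcc

/-!
The core of the proof, in the language of the measure algebra.
-/

namespace Pool.Agent.LibPlas90

open MeasureTheory

variable {K M : Type}

-- PLAS-21
theorem core2 [Uncountable K] (A : MeasAlg (mu K M)) (b : A.B)
    (a : (K →₀ ℤ) → (K →₀ ℤ) → A.B) (h1 : ∀ c, b ≤ ⨆ d, a c d)
    (h2 : ∀ c d d', d ≠ d' → b ⊓ a c d ⊓ a c d' = ⊥)
    (h3 : ∀ c c' d, c ≠ c' → b ⊓ a c d ⊓ a c' d = ⊥)
    (h4 : ∀ c c' d d', b ⊓ a c d ⊓ a c' d' ≤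
      A.cls {ω | |ev d ω - ev d' ω| ≤ |ev c ω - ev c' ω|}) :
    ∀ c c' d d', b ⊓ a c d ⊓ a c' d' ≤
      A.cls {ω | |ev d ω - ev d' ω| = |ev c ω - ev c' ω|} := by
  classical
  obtain ⟨S, hS, hSb⟩ := A.surj b
  choose T hT hTa using fun c d => A.surj (a c d)
  have hab : ∀ c c' d d', b ⊓ a c d ⊓ a c' d' = A.cls (S ∩ T c d ∩ T c' d') := by
    intro c c' d d'
    rw [A.cls_inter (hS.inter (hT c d)) (hT c' d'), A.cls_inter hS (hT c d), hSb, hTa, hTa]
  have hmm : ∀ c c' d d', MeasurableSet (S ∩ T c d ∩ T c' d') := fun c c' d d' =>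
    (hS.inter (hT c d)).inter (hT c' d')
  have hle : ∀ c c' d d' : K →₀ ℤ,
      MeasurableSet {ω : Om K M | |ev d ω - ev d' ω| ≤ |ev c ω - ev c' ω|} := by
    intro c c' d d'
    exact measurableSet_le ((measurable_ev d).sub (measurable_ev d')).norm
      ((measurable_ev c).sub (measurable_ev c')).norm
  have heq : ∀ c c' d d' : K →₀ ℤ,
      MeasurableSet {ω : Om K M | |ev d ω - ev d' ω| = |ev c ω - ev c' ω|} := by
    intro c c' d d'
    exact measurableSet_eq_fun ((measurable_ev d).sub (measurable_ev d')).norm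
      ((measurable_ev c).sub (measurable_ev c')).norm
  -- enumerations
  have hg : ∀ c, ∃ g : ℕ → (K →₀ ℤ), b ≤ ⨆ n, a c (g n) := by
    intro c
    obtain ⟨C, hC, hC'⟩ := A.exists_countable_iSup (a c)
    obtain ⟨g, hg⟩ := (hC.insert 0).exists_eq_range ⟨0, Set.mem_insert _ _⟩
    refine ⟨g, (h1 c).trans (hC'.le.trans ?_)⟩
    refine iSup₂_le fun d hd => ?_
    have : d ∈ Set.range g := by
      rw [← hg]
      exact Set.mem_insert_of_mem _ hd
    obtain ⟨n, rfl⟩ := this
    exact le_iSup (fun n => a c (g n)) n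
  choose g hg using hg
  have hcov : ∀ c, ∀ᵐ ω ∂(mu K M), ω ∈ S → ∃ n, ω ∈ T c (g c n) := by
    intro c
    have h : A.cls S ≤ A.cls (⋃ n, T c (g c n)) := by
      rw [A.cls_iUnion (fun n => hT c (g c n)), hSb]
      simp_rw [hTa]
      exact hg c
    rw [A.cls_le hS (MeasurableSet.iUnion fun n => hT c (g c n))] at h
    filter_upwards [h] with ω hω hωS
    simpa using hω hωS
  -- the selection
  let p : (K →₀ ℤ) → ℕ → Om K M → Prop := fun c n ω => ω ∈ T c (g c n) ∨ ω ∉ ⋃ m, T c (g c m)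
  have hp : ∀ c ω, ∃ n, p c n ω := by
    intro c ω
    by_cases h : ω ∈ ⋃ m, T c (g c m)
    · obtain ⟨m, hm⟩ := Set.mem_iUnion.mp h
      exact ⟨m, Or.inl hm⟩
    · exact ⟨0, Or.inr h⟩
  have hpm : ∀ c n, MeasurableSet {ω | p c n ω} := by
    intro c n
    exact (hT c (g c n)).union (MeasurableSet.iUnion fun m => hT c (g c m)).compl
  let Y : (K →₀ ℤ) → Om K M → ℝ := fun c ω => ev (g c (Nat.find (hp c ω))) ω
  have hY : ∀ c, Measurable (Y c) := by
    intro c
    exact Measurable.find (f := fun n => ev (M := M) (g c n)) (fun n => measurable_ev (g c n))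
      (hpm c) (hp c)
  have hsel : ∀ c, ∀ᵐ ω ∂(mu K M), ω ∈ S → ∃ n, ω ∈ T c (g c n) ∧ Y c ω = ev (g c n) ω := by
    intro c
    filter_upwards [hcov c] with ω hω hωS
    refine ⟨Nat.find (hp c ω), ?_, rfl⟩
    rcases Nat.find_spec (hp c ω) with h | h
    · exact h
    · exact absurd (Set.mem_iUnion.mpr (hω hωS)) h
  have hF : ∀ c d, ∀ᵐ ω ∂(mu K M), ω ∈ S → ω ∈ T c d → Y c ω = ev d ω := by
    intro c d
    have h : ∀ᵐ ω ∂(mu K M), ∀ n, g c n ≠ d → ω ∉ S ∩ T c d ∩ T c (g c n) := by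
      rw [ae_all_iff]
      intro n
      by_cases hn : g c n = d
      · exact Filter.Eventually.of_forall fun ω hn' => absurd hn hn'
      · have h5 := h2 c d (g c n) (Ne.symm hn)
        rw [hab, A.cls_eq_bot (hmm _ _ _ _)] at h5
        filter_upwards [h5] with ω hω _ using hω
    filter_upwards [h, hsel c] with ω hω hs hωS hωT
    obtain ⟨n, hn, hYn⟩ := hs hωS
    rw [hYn]
    by_contra hne
    refine hω n (fun h => hne (by rw [h])) ⟨⟨hωS, hωT⟩, hn⟩
  have hcore := core S hS Y hY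
    (fun c => ⟨Set.range (g c), Set.countable_range _, by
      filter_upwards [hsel c] with ω hs hωS
      obtain ⟨n, _, hYn⟩ := hs hωS
      exact ⟨g c n, Set.mem_range_self n, hYn⟩⟩)
    (fun c c' => by
      have h : ∀ᵐ ω ∂(mu K M), ∀ n n', ω ∈ S ∩ T c (g c n) ∩ T c' (g c' n') →
          |ev (g c n) ω - ev (g c' n') ω| ≤ |ev c ω - ev c' ω| := by
        rw [ae_all_iff]
        intro n
        rw [ae_all_iff]
        intro n'
        have h5 := h4 c c' (g c n) (g c' n')
        rw [hab, A.cls_le (hmm _ _ _ _) (hle _ _ _ _)] at h5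
        exact h5
      filter_upwards [h, hsel c, hsel c'] with ω hω hs hs' hωS
      obtain ⟨n, hn, hYn⟩ := hs hωS
      obtain ⟨n', hn', hYn'⟩ := hs' hωS
      rw [hYn, hYn']
      exact hω n n' ⟨⟨hωS, hn⟩, hn'⟩)
    (fun c c' hcc => by
      have h : ∀ᵐ ω ∂(mu K M), ∀ n n', g c n = g c' n' →
          ω ∉ S ∩ T c (g c n) ∩ T c' (g c' n') := by
        rw [ae_all_iff]
        intro n
        rw [ae_all_iff]
        intro n'
        by_cases hn : g c n = g c' n'
        · have h5 := h3 c c' (g c n) hcc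
          rw [hab, A.cls_eq_bot (hmm _ _ _ _)] at h5
          filter_upwards [h5] with ω hω _
          rw [← hn]
          exact hω
        · exact Filter.Eventually.of_forall fun ω hn' => absurd hn' hn
      have h' : ∀ᵐ ω ∂(mu K M), ∀ n n', g c n ≠ g c' n' → ev (g c n) ω ≠ ev (g c' n') ω := by
        rw [ae_all_iff]
        intro n
        rw [ae_all_iff]
        intro n'
        by_cases hn : g c n = g c' n'
        · exact Filter.Eventually.of_forall fun ω hn' => absurd hn hn'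
        · filter_upwards [ev_ne (M := M) hn] with ω hω _ using hω
      filter_upwards [h, h', hsel c, hsel c'] with ω hω hω' hs hs' hωS
      obtain ⟨n, hn, hYn⟩ := hs hωS
      obtain ⟨n', hn', hYn'⟩ := hs' hωS
      rw [hYn, hYn']
      by_cases hnn : g c n = g c' n'
      · exact absurd ⟨⟨hωS, hn⟩, hn'⟩ (hω n n' hnn)
      · exact hω' n n' hnn)
  intro c c' d d'
  rw [hab, A.cls_le (hmm _ _ _ _) (heq _ _ _ _)]
  filter_upwards [hcore c c', hF c d, hF c' d'] with ω hω hF1 hF2 hωS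
  have e1 := hF1 hωS.1.1 hωS.1.2
  have e2 := hF2 hωS.1.1 hωS.2
  have := hω hωS.1.1
  rw [e1, e2] at this
  exact this

end Pool.Agent.LibPlas90
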