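import Pool.Agent.LibPlas90.ProdDense
import Pool.Agent.LibPlas90.ProdDep
import Pool.Agent.LibPlas90.Det

/-!
The core of the proof.
-/

namespace Pool.Agent.LibPlas90

open MeasureTheory

variable {K M : Type}

/-- A countable set of coordinates closed under the supports of the functions `Y c`. -/
theorem exists_closed [Infinite K] (Y : (K →₀ ℤ) → Om K M → ℝ) (hY : ∀ c, Measurable (Y c))
    (S : Set (Om K M)) (hS : MeasurableSet S) :
    ∃ A : Set (K ⊕ M), A.Countable ∧ {k : K | Sum.inl k ∈ A}.Infinite ∧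
      (∀ ω ω' : Om K M, (∀ j ∈ A, ω j = ω' j) → (ω ∈ S ↔ ω' ∈ S)) ∧
      ∀ c : K →₀ ℤ, (∀ k ∈ c.support, Sum.inl k ∈ A) →
        ∀ ω ω' : Om K M, (∀ j ∈ A, ω j = ω' j) → Y c ω = Y c ω' := by
  classical
  choose D hD hDd using fun c => exists_countable_dep (hY c)
  obtain ⟨DS, hDS, hDSd⟩ := exists_countable_dep_set hS
  let C0 : Set (K ⊕ M) := DS ∪ Sum.inl '' (Set.range (Infinite.natEmbedding K))
  have hC0 : C0.Countable := hDS.union ((Set.countable_range _).image _)
  let step : Set (K ⊕ M) → Set (K ⊕ M) := fun A =>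
    A ∪ ⋃ c ∈ {c : K →₀ ℤ | ∀ k ∈ c.support, Sum.inl k ∈ A}, D c
  have hstep : ∀ A : Set (K ⊕ M), A.Countable → (step A).Countable := by
    intro A hA
    refine hA.union (Set.Countable.biUnion ?_ (fun c _ => hD c))
    have hK : {k : K | (Sum.inl k : K ⊕ M) ∈ A}.Countable := hA.preimage Sum.inl_injective
    have : Countable {k : K | (Sum.inl k : K ⊕ M) ∈ A} := hK
    have h1 : (Set.range (fun c : ({k : K | (Sum.inl k : K ⊕ M) ∈ A} →₀ ℤ) =>
        c.mapDomain Subtype.val)).Countable := Set.countable_range _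
    refine h1.mono ?_
    intro c hc
    refine ⟨c.comapDomain Subtype.val Subtype.val_injective.injOn, ?_⟩
    refine Finsupp.mapDomain_comapDomain _ Subtype.val_injective _ ?_
    intro k hk
    exact ⟨⟨k, hc k hk⟩, rfl⟩
  let C : ℕ → Set (K ⊕ M) := fun n => step^[n] C0
  have hCs : ∀ n, C (n + 1) = step (C n) := fun n => Function.iterate_succ_apply' _ _ _
  have hCc : ∀ n, (C n).Countable := by
    intro n
    induction n with
    | zero => exact hC0
    | succ n ih => rw [hCs]; exact hstep _ ih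
  have hmono : Monotone C := by
    refine monotone_nat_of_le_succ fun n => ?_
    rw [hCs]
    exact Set.subset_union_left
  refine ⟨⋃ n, C n, Set.countable_iUnion hCc, ?_, ?_, ?_⟩
  · refine (Set.infinite_range_of_injective (Infinite.natEmbedding K).injective).mono ?_
    intro k hk
    exact Set.mem_iUnion.mpr ⟨0, Or.inr ⟨k, hk, rfl⟩⟩
  · intro ω ω' h
    exact hDSd ω ω' fun j hj => h j (Set.mem_iUnion.mpr ⟨0, Or.inl hj⟩)
  · intro c hc ω ω' h
    refine hDd c ω ω' fun j hj => h j ?_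
    obtain ⟨n, hn⟩ : ∃ n, ∀ k ∈ c.support, Sum.inl k ∈ C n := by
      choose! f hf using fun k (hk : k ∈ c.support) => Set.mem_iUnion.mp (hc k hk)
      refine ⟨c.support.sup f, fun k hk => hmono (Finset.le_sup hk) (hf k hk)⟩
    refine Set.mem_iUnion.mpr ⟨n + 1, ?_⟩
    rw [hCs]
    exact Or.inr (Set.mem_biUnion (x := c) hn hj)

end Pool.Agent.LibPlas90
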