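import Pool.Agent.LibPlas90.RealRel
import Pool.Agent.LibPlas90.MeasCcc

/-!
A set of reals of the Boolean-valued universe given by a family of random variables.
-/

namespace Pool.Agent.LibPlas90

open MeasureTheory BSet

variable {Ω : Type} [MeasurableSpace Ω] {μ : Measure Ω} [IsProbabilityMeasure μ] (A : MeasAlg μ)

-- PLAS-11
theorem isDense_top {I : Type} (E : I → RV Ω) (C : Set I) (hC : C.Countable)
    (h : ∀ᵐ ω ∂μ, ∀ a b : ℝ, a < b → ∃ c ∈ C, a < (E c).1 ω ∧ (E c).1 ω < b) :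
    isDense (RR A) (LL A) (GG A E) = ⊤ := by
  rw [isDense, all_RR A (Ext.all fun y => Ext.himp (Ext.rel1 _ _)
    (Ext.ex fun z => Ext.inf (Ext.rel1 _ _) (Ext.const _)))]
  refine iInf_eq_top.2 fun X => ?_
  rw [all_RR A (Ext.himp (Ext.rel2 _ _) (Ext.ex fun z => Ext.inf (Ext.const _) (Ext.rel2 _ _)))]
  refine iInf_eq_top.2 fun Y => ?_
  rw [himp_eq_top_iff, ex_GG A E (Ext.inf (Ext.rel2 _ _) (Ext.rel1 _ _))]
  simp only [rel_LL]
  have hm : ∀ Z W : RV Ω, MeasurableSet {ω | Z.1 ω < W.1 ω} := fun Z W =>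
    measurableSet_lt Z.2 W.2
  have : Countable C := hC.to_subtype
  have h1 : A.cls {ω | X.1 ω < Y.1 ω} ≤
      A.cls (⋃ c : C, {ω | X.1 ω < (E c).1 ω} ∩ {ω | (E c).1 ω < Y.1 ω}) := by
    rw [A.cls_le (hm X Y) (MeasurableSet.iUnion fun c => (hm _ _).inter (hm _ _))]
    filter_upwards [h] with ω hω hlt
    obtain ⟨c, hc, h1, h2⟩ := hω _ _ hlt
    exact Set.mem_iUnion.2 ⟨⟨c, hc⟩, h1, h2⟩
  refine h1.trans ?_
  rw [A.cls_iUnion (fun c => (hm _ _).inter (hm _ _))]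
  refine iSup_le fun c => ?_
  rw [A.cls_inter (hm _ _) (hm _ _)]
  exact le_iSup (fun c : I => A.cls {ω | X.1 ω < (E c).1 ω} ⊓ A.cls {ω | (E c).1 ω < Y.1 ω}) c.1

end Pool.Agent.LibPlas90
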