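import Pool.Agent.LibPlas90.RealRel
import Pool.Agent.LibPlas90.MeasCcc

/-!
A set of reals of the Boolean-valued universe given by a family of random variables.
-/

namespace Pool.Agent.LibPlas90

open MeasureTheory BSet

variable {Ω : Type} [MeasurableSpace Ω] {μ : Measure Ω} [IsProbabilityMeasure μ] (A : MeasAlg μ)

omit [IsProbabilityMeasure μ] in
private theorem mem_mk_top {ι : Type} (N : ι → BSet A.B) (i : ι) :
    mem (N i) (BSet.mk ι N (fun _ => ⊤)) = ⊤ := by
  refine top_le_iff.1 ?_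
  unfold mem
  refine le_iSup_of_le i ?_
  rw [eq_refl, inf_top_eq]

omit [IsProbabilityMeasure μ] in
private theorem all_le_top {R x : BSet A.B} (h : mem x R = ⊤) (φ : BSet A.B → A.B) : all R φ ≤ φ x := by
  unfold all
  refine (iInf_le _ x).trans ?_
  rw [h, top_himp]

omit [IsProbabilityMeasure μ] in
private theorem sumLE_le (X Y Z W : RV Ω) :
    sumLE (RR A) (PP A) (LL A) (toB A X) (toB A Y) (toB A Z) (toB A W) ≤
      A.cls {ω | X.1 ω + Y.1 ω ≤ Z.1 ω + W.1 ω} := by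
  unfold sumLE
  refine (all_le_top A (mem_mk_top A (toB A) ⟨fun ω => X.1 ω + Y.1 ω, X.2.add Y.2⟩) _).trans ?_
  refine (all_le_top A (mem_mk_top A (toB A) ⟨fun ω => Z.1 ω + W.1 ω, Z.2.add W.2⟩) _).trans ?_
  rw [rel3_PP, rel3_PP, rel_LL]
  have e1 : {ω | X.1 ω + Y.1 ω = X.1 ω + Y.1 ω} = Set.univ := by ext; simp
  have e2 : {ω | Z.1 ω + W.1 ω = Z.1 ω + W.1 ω} = Set.univ := by ext; simp
  have m : MeasurableSet {ω | Z.1 ω + W.1 ω < X.1 ω + Y.1 ω} := measurableSet_lt (Z.2.add W.2) (X.2.add Y.2)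
  rw [e1, e2, A.cls_univ, inf_top_eq, top_himp]
  change (A.cls {ω | Z.1 ω + W.1 ω < X.1 ω + Y.1 ω})ᶜ ≤ _
  rw [← A.cls_compl m]
  apply le_of_eq
  congr 1
  ext ω
  simp [not_lt]

omit [IsProbabilityMeasure μ] in
private theorem Ext.sumEq1 (b c d : BSet A.B) : Ext (fun x => sumEq (RR A) (PP A) x b c d) := by
  unfold sumEq
  exact Ext.all fun s => Ext.all fun t => Ext.himp (Ext.inf (Ext.rel3_1 _ _ _) (Ext.const _)) (Ext.const _)

omit [IsProbabilityMeasure μ] in
private theorem Ext.sumEq2 (b c d : BSet A.B) : Ext (fun x => sumEq (RR A) (PP A) b x c d) := by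
  unfold sumEq
  exact Ext.all fun s => Ext.all fun t => Ext.himp (Ext.inf (Ext.rel3_2 _ _ _) (Ext.const _)) (Ext.const _)

omit [IsProbabilityMeasure μ] in
private theorem Ext.sumEq3 (b c d : BSet A.B) : Ext (fun x => sumEq (RR A) (PP A) b c x d) := by
  unfold sumEq
  exact Ext.all fun s => Ext.all fun t => Ext.himp (Ext.inf (Ext.const _) (Ext.rel3_1 _ _ _)) (Ext.const _)

omit [IsProbabilityMeasure μ] in
private theorem Ext.sumEq4 (b c d : BSet A.B) : Ext (fun x => sumEq (RR A) (PP A) b c d x) := by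
  unfold sumEq
  exact Ext.all fun s => Ext.all fun t => Ext.himp (Ext.inf (Ext.const _) (Ext.rel3_2 _ _ _)) (Ext.const _)

omit [IsProbabilityMeasure μ] in
private theorem le_sumEq (X Y Z W : RV Ω) :
    A.cls {ω | X.1 ω + Y.1 ω = Z.1 ω + W.1 ω} ≤
      sumEq (RR A) (PP A) (toB A X) (toB A Y) (toB A Z) (toB A W) := by
  unfold sumEq
  rw [all_RR A (Ext.all fun t => Ext.himp (Ext.inf (Ext.rel3_3 _ _ _) (Ext.const _)) (Ext.eq_left _))]
  refine le_iInf fun S => ?_
  rw [all_RR A (Ext.himp (Ext.inf (Ext.const _) (Ext.rel3_3 _ _ _)) (Ext.eq_right _))]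
  refine le_iInf fun T => ?_
  rw [rel3_PP, rel3_PP, eq_toB, le_himp_iff]
  have m1 : MeasurableSet {ω | X.1 ω + Y.1 ω = Z.1 ω + W.1 ω} := measurableSet_eq_fun (X.2.add Y.2) (Z.2.add W.2)
  have m2 : MeasurableSet {ω | X.1 ω + Y.1 ω = S.1 ω} := measurableSet_eq_fun (X.2.add Y.2) S.2
  have m3 : MeasurableSet {ω | Z.1 ω + W.1 ω = T.1 ω} := measurableSet_eq_fun (Z.2.add W.2) T.2
  rw [← A.cls_inter m2 m3, ← A.cls_inter m1 (m2.inter m3),
    A.cls_le (m1.inter (m2.inter m3)) (measurableSet_eq_fun S.2 T.2)]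
  refine Filter.Eventually.of_forall fun ω hω => ?_
  obtain ⟨h1, h2, h3⟩ := hω
  simp only [Set.mem_ofPred_eq] at h1 h2 h3 ⊢
  rw [← h2, ← h3, h1]

-- PLAS-13
theorem isPlastic_top {I : Type} (E : I → RV Ω)
    (hE : ∀ c d, c ≠ d → ∀ᵐ ω ∂μ, (E c).1 ω ≠ (E d).1 ω)
    (hcore : ∀ (b : A.B) (a : I → I → A.B), (∀ c, b ≤ ⨆ d, a c d) →
      (∀ c d d', d ≠ d' → b ⊓ a c d ⊓ a c d' = ⊥) →
      (∀ c c' d, c ≠ c' → b ⊓ a c d ⊓ a c' d = ⊥) →
      (∀ c c' d d', b ⊓ a c d ⊓ a c' d' ≤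
        A.cls {ω | |(E d).1 ω - (E d').1 ω| ≤ |(E c).1 ω - (E c').1 ω|}) →
      ∀ c c' d d', b ⊓ a c d ⊓ a c' d' ≤
        A.cls {ω | |(E d).1 ω - (E d').1 ω| = |(E c).1 ω - (E c').1 ω|}) :
    isPlastic (RR A) (PP A) (LL A) (GG A E) = ⊤ := by
  refine top_le_iff.1 ?_
  unfold isPlastic
  refine le_iInf fun f => ?_
  rw [le_himp_iff, top_inf_eq]
  set b := isBijection f (GG A E) ⊓ isNonexpansive (RR A) (PP A) (LL A) f (GG A E) with hb
  have hmem : ∀ c, mem (toB A (E c)) (GG A E) = ⊤ := fun c => mem_mk_top A (fun c => toB A (E c)) c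
  have hbot : ∀ c d, c ≠ d → BSet.eq (toB A (E c)) (toB A (E d)) = ⊥ := by
    intro c d hcd
    rw [eq_toB, A.cls_eq_bot (measurableSet_eq_fun (E c).2 (E d).2)]
    exact hE c d hcd
  -- (1)
  have h1 : ∀ c, b ≤ ⨆ d, rel f (toB A (E c)) (toB A (E d)) := by
    intro c
    rw [← ex_GG A E (Ext.rel2 f (toB A (E c)))]
    refine inf_le_left.trans ?_
    unfold isBijection
    refine inf_le_left.trans (inf_le_left.trans (inf_le_left.trans ?_))
    exact all_le_top A (hmem c) _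
  -- (2)
  have h2 : ∀ c d d', d ≠ d' → b ⊓ rel f (toB A (E c)) (toB A (E d)) ⊓ rel f (toB A (E c)) (toB A (E d')) = ⊥ := by
    intro c d d' hdd
    have hle : b ≤ rel f (toB A (E c)) (toB A (E d)) ⊓ rel f (toB A (E c)) (toB A (E d')) ⇨
        BSet.eq (toB A (E d)) (toB A (E d')) := by
      refine inf_le_left.trans ?_
      unfold isBijection
      refine inf_le_left.trans (inf_le_left.trans (inf_le_right.trans ?_))
      refine (all_le_top A (hmem c) _).trans ?_
      refine (all_le_top A (hmem d) _).trans ?_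
      exact all_le_top A (hmem d') _
    rw [le_himp_iff, ← inf_assoc, hbot d d' hdd] at hle
    exact le_bot_iff.1 hle
  -- (3)
  have h3 : ∀ c c' d, c ≠ c' → b ⊓ rel f (toB A (E c)) (toB A (E d)) ⊓ rel f (toB A (E c')) (toB A (E d)) = ⊥ := by
    intro c c' d hcc
    have hle : b ≤ rel f (toB A (E c)) (toB A (E d)) ⊓ rel f (toB A (E c')) (toB A (E d)) ⇨
        BSet.eq (toB A (E c)) (toB A (E c')) := by
      refine inf_le_left.trans ?_
      unfold isBijection
      refine inf_le_right.trans ?_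
      refine (all_le_top A (hmem c) _).trans ?_
      refine (all_le_top A (hmem c') _).trans ?_
      exact all_le_top A (hmem d) _
    rw [le_himp_iff, ← inf_assoc, hbot c c' hcc] at hle
    exact le_bot_iff.1 hle
  -- measurability
  have mle : ∀ c c' : I, MeasurableSet {ω | (E c).1 ω ≤ (E c').1 ω} := fun c c' => measurableSet_le (E c).2 (E c').2
  have mabs : ∀ c c' d d' : I, MeasurableSet {ω | |(E d).1 ω - (E d').1 ω| ≤ |(E c).1 ω - (E c').1 ω|} :=
    fun c c' d d' => measurableSet_le (((E d).2.sub (E d').2).abs) (((E c).2.sub (E c').2).abs)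
  have mabs2 : ∀ c c' d d' : I, MeasurableSet {ω | |(E d).1 ω - (E d').1 ω| = |(E c).1 ω - (E c').1 ω|} :=
    fun c c' d d' => measurableSet_eq_fun (((E d).2.sub (E d').2).abs) (((E c).2.sub (E c').2).abs)
  have hcompl : ∀ c c' : I, (rel (LL A) (toB A (E c')) (toB A (E c)))ᶜ = A.cls {ω | (E c).1 ω ≤ (E c').1 ω} := by
    intro c c'
    rw [rel_LL, ← A.cls_compl (measurableSet_lt (E c').2 (E c).2)]
    congr 1
    ext ω
    simp [not_lt]
  -- (4) one half
  have h4 : ∀ c c' d d', b ⊓ rel f (toB A (E c)) (toB A (E d)) ⊓ rel f (toB A (E c')) (toB A (E d')) ⊓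
      A.cls {ω | (E c).1 ω ≤ (E c').1 ω} ≤
        A.cls {ω | |(E d).1 ω - (E d').1 ω| ≤ |(E c).1 ω - (E c').1 ω|} := by
    intro c c' d d'
    have hle : b ≤ (rel (LL A) (toB A (E c')) (toB A (E c)))ᶜ ⊓ rel f (toB A (E c)) (toB A (E d)) ⊓
        rel f (toB A (E c')) (toB A (E d')) ⇨
        sumLE (RR A) (PP A) (LL A) (toB A (E c)) (toB A (E d')) (toB A (E c')) (toB A (E d)) ⊓
        sumLE (RR A) (PP A) (LL A) (toB A (E c)) (toB A (E d)) (toB A (E c')) (toB A (E d')) := by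
      refine inf_le_right.trans ?_
      unfold isNonexpansive
      refine (all_le_top A (hmem c) _).trans ?_
      refine (all_le_top A (hmem c') _).trans ?_
      refine (all_le_top A (hmem d) _).trans ?_
      exact all_le_top A (hmem d') _
    rw [le_himp_iff, hcompl] at hle
    have hle2 := hle.trans (inf_le_inf (sumLE_le A _ _ _ _) (sumLE_le A _ _ _ _))
    have m1 : MeasurableSet {ω | (E c).1 ω + (E d').1 ω ≤ (E c').1 ω + (E d).1 ω} :=
      measurableSet_le ((E c).2.add (E d').2) ((E c').2.add (E d).2)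
    have m2 : MeasurableSet {ω | (E c).1 ω + (E d).1 ω ≤ (E c').1 ω + (E d').1 ω} :=
      measurableSet_le ((E c).2.add (E d).2) ((E c').2.add (E d').2)
    rw [← A.cls_inter m1 m2] at hle2
    have hle3 : b ⊓ rel f (toB A (E c)) (toB A (E d)) ⊓ rel f (toB A (E c')) (toB A (E d')) ⊓
      A.cls {ω | (E c).1 ω ≤ (E c').1 ω} ≤
        A.cls {ω | (E c).1 ω ≤ (E c').1 ω} ⊓ A.cls ({ω | (E c).1 ω + (E d').1 ω ≤ (E c').1 ω + (E d).1 ω} ∩
          {ω | (E c).1 ω + (E d).1 ω ≤ (E c').1 ω + (E d').1 ω}) := by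
      refine le_inf inf_le_right (le_trans ?_ hle2)
      refine le_inf (inf_le_left.trans (inf_le_left.trans inf_le_left)) ?_
      refine le_inf (le_inf inf_le_right (inf_le_left.trans (inf_le_left.trans inf_le_right)))
        (inf_le_left.trans inf_le_right)
    refine hle3.trans ?_
    rw [← A.cls_inter (mle c c') (m1.inter m2), A.cls_le ((mle c c').inter (m1.inter m2)) (mabs c c' d d')]
    refine Filter.Eventually.of_forall fun ω hω => ?_
    obtain ⟨g1, g2, g3⟩ := hω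
    simp only [Set.mem_ofPred_eq] at g1 g2 g3 ⊢
    rw [abs_of_nonpos (sub_nonpos.2 g1), abs_le]
    constructor <;> linarith
  have htop : ∀ c c', A.cls {ω | (E c).1 ω ≤ (E c').1 ω} ⊔ A.cls {ω | (E c').1 ω ≤ (E c).1 ω} = ⊤ := by
    intro c c'
    rw [← A.cls_union (mle c c') (mle c' c), A.cls_eq_top ((mle c c').union (mle c' c))]
    refine Filter.Eventually.of_forall fun ω => ?_
    rcases le_total ((E c).1 ω) ((E c').1 ω) with h | h
    · exact Or.inl h
    · exact Or.inr h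
  have h5 : ∀ c c' d d', b ⊓ rel f (toB A (E c)) (toB A (E d)) ⊓ rel f (toB A (E c')) (toB A (E d')) ≤
        A.cls {ω | |(E d).1 ω - (E d').1 ω| ≤ |(E c).1 ω - (E c').1 ω|} := by
    intro c c' d d'
    rw [← inf_top_eq (b ⊓ rel f (toB A (E c)) (toB A (E d)) ⊓ rel f (toB A (E c')) (toB A (E d'))),
      ← htop c c', inf_sup_left]
    refine sup_le (h4 c c' d d') ?_
    have := h4 c' c d' d
    have e : {ω | |(E d').1 ω - (E d).1 ω| ≤ |(E c').1 ω - (E c).1 ω|} =
        {ω | |(E d).1 ω - (E d').1 ω| ≤ |(E c).1 ω - (E c').1 ω|} := by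
      ext ω
      simp only [Set.mem_ofPred_eq]
      rw [abs_sub_comm ((E d').1 ω), abs_sub_comm ((E c').1 ω)]
    rw [e] at this
    refine le_trans ?_ this
    refine le_inf (le_inf (le_inf (inf_le_left.trans (inf_le_left.trans inf_le_left)) (inf_le_left.trans inf_le_right))
      (inf_le_left.trans (inf_le_left.trans inf_le_right))) inf_le_right
  have h6 := hcore b (fun c d => rel f (toB A (E c)) (toB A (E d))) h1 h2 h3 h5
  -- conclusion
  unfold isIsometry
  rw [all_GG A E (Ext.all fun x' => Ext.all fun y => Ext.all fun y' => Ext.himp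
    (Ext.inf (Ext.inf (Ext.compl (Ext.rel2 _ _)) (Ext.rel1 _ _)) (Ext.const _))
    (Ext.sup (Ext.sumEq1 A _ _ _) (Ext.sumEq1 A _ _ _)))]
  refine le_iInf fun c => ?_
  rw [all_GG A E (Ext.all fun y => Ext.all fun y' => Ext.himp
    (Ext.inf (Ext.inf (Ext.compl (Ext.rel1 _ _)) (Ext.const _)) (Ext.rel1 _ _))
    (Ext.sup (Ext.sumEq3 A _ _ _) (Ext.sumEq3 A _ _ _)))]
  refine le_iInf fun c' => ?_
  rw [all_GG A E (Ext.all fun y' => Ext.himp
    (Ext.inf (Ext.inf (Ext.const _) (Ext.rel2 _ _)) (Ext.const _))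
    (Ext.sup (Ext.sumEq4 A _ _ _) (Ext.sumEq2 A _ _ _)))]
  refine le_iInf fun d => ?_
  rw [all_GG A E (Ext.himp
    (Ext.inf (Ext.inf (Ext.const _) (Ext.const _)) (Ext.rel2 _ _))
    (Ext.sup (Ext.sumEq2 A _ _ _) (Ext.sumEq4 A _ _ _)))]
  refine le_iInf fun d' => ?_
  rw [le_himp_iff, hcompl]
  refine le_trans ?_ (sup_le_sup (le_sumEq A (E c) (E d') (E c') (E d)) (le_sumEq A (E c) (E d) (E c') (E d')))
  have m1 : MeasurableSet {ω | (E c).1 ω + (E d').1 ω = (E c').1 ω + (E d).1 ω} :=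
    measurableSet_eq_fun ((E c).2.add (E d').2) ((E c').2.add (E d).2)
  have m2 : MeasurableSet {ω | (E c).1 ω + (E d).1 ω = (E c').1 ω + (E d').1 ω} :=
    measurableSet_eq_fun ((E c).2.add (E d).2) ((E c').2.add (E d').2)
  rw [← A.cls_union m1 m2]
  have h7 : b ⊓ (A.cls {ω | (E c).1 ω ≤ (E c').1 ω} ⊓ rel f (toB A (E c)) (toB A (E d)) ⊓
      rel f (toB A (E c')) (toB A (E d'))) ≤ A.cls {ω | (E c).1 ω ≤ (E c').1 ω} ⊓
        A.cls {ω | |(E d).1 ω - (E d').1 ω| = |(E c).1 ω - (E c').1 ω|} := by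
    refine le_inf (inf_le_right.trans (inf_le_left.trans inf_le_left)) (le_trans ?_ (h6 c c' d d'))
    exact le_inf (le_inf inf_le_left (inf_le_right.trans (inf_le_left.trans inf_le_right)))
      (inf_le_right.trans inf_le_right)
  refine h7.trans ?_
  rw [← A.cls_inter (mle c c') (mabs2 c c' d d'), A.cls_le ((mle c c').inter (mabs2 c c' d d')) (m1.union m2)]
  refine Filter.Eventually.of_forall fun ω hω => ?_
  obtain ⟨g1, g2⟩ := hω
  simp only [Set.mem_ofPred_eq, Set.mem_union] at g1 g2 ⊢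
  rw [abs_of_nonpos (sub_nonpos.2 g1)] at g2
  rcases abs_cases ((E d).1 ω - (E d').1 ω) with ⟨g3, _⟩ | ⟨g3, _⟩
  · right; linarith
  · left; linarith

end Pool.Agent.LibPlas90
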