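import Pool.Agent.LibPlas90.RealRel
import Pool.Agent.LibPlas90.MeasCcc

/-!
A set of reals of the Boolean-valued universe given by a family of random variables.
-/

namespace Pool.Agent.LibPlas90

open MeasureTheory BSet

variable {Ω : Type} [MeasurableSpace Ω] {μ : Measure Ω} [IsProbabilityMeasure μ] (A : MeasAlg μ)

omit [IsProbabilityMeasure μ] in
private theorem mem_mk_top {ι : Type} (N : ι → BSet A.B) (i : ι) :
    mem (N i) (BSet.mk ι N (fun _ => ⊤)) = ⊤ := by
  refine top_le_iff.1 ?_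
  unfold mem
  refine le_iSup_of_le i ?_
  rw [eq_refl, inf_top_eq]

omit [IsProbabilityMeasure μ] in
private theorem all_le_top {R x : BSet A.B} (h : mem x R = ⊤) (φ : BSet A.B → A.B) : all R φ ≤ φ x := by
  unfold all
  refine (iInf_le _ x).trans ?_
  rw [h, top_himp]

-- PLAS-12
theorem isSmall_top {I : Type} (E : I → RV Ω) {M : Type} (Z : M → RV Ω)
    (hZ : ∀ i j, i ≠ j → ∀ᵐ ω ∂μ, (Z i).1 ω ≠ (Z j).1 ω)
    (hM : ∀ g : M → I, ∃ c, ¬ (g ⁻¹' {c}).Countable) :
    isSmall (RR A) (GG A E) = ⊤ := by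
  refine top_le_iff.1 ?_
  unfold isSmall
  refine le_iInf fun f => ?_
  rw [top_le_iff, compl_eq_top]
  set b := (all (RR A) fun y => ex (GG A E) fun x => rel f x y) ⊓
      (all (GG A E) fun x => all (RR A) fun y => all (RR A) fun y' =>
        rel f x y ⊓ rel f x y' ⇨ BSet.eq y y') with hb
  by_contra hne
  have h1 : ∀ m, b ≤ ⨆ c, rel f (toB A (E c)) (toB A (Z m)) := by
    intro m
    rw [← ex_GG A E (Ext.rel1 f (toB A (Z m)))]
    exact inf_le_left.trans (all_le_top A (mem_mk_top A (toB A) (Z m)) _)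
  have h2 : ∀ c m m', m ≠ m' → b ⊓ rel f (toB A (E c)) (toB A (Z m)) ⊓ rel f (toB A (E c)) (toB A (Z m')) = ⊥ := by
    intro c m m' hmm
    have hle : b ≤ rel f (toB A (E c)) (toB A (Z m)) ⊓ rel f (toB A (E c)) (toB A (Z m')) ⇨
        BSet.eq (toB A (Z m)) (toB A (Z m')) := by
      refine inf_le_right.trans ?_
      refine (all_le_top A (mem_mk_top A (fun c => toB A (E c)) c) _).trans ?_
      refine (all_le_top A (mem_mk_top A (toB A) (Z m)) _).trans ?_
      exact all_le_top A (mem_mk_top A (toB A) (Z m')) _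
    rw [le_himp_iff, ← inf_assoc] at hle
    have hbot : BSet.eq (toB A (Z m)) (toB A (Z m')) = ⊥ := by
      rw [eq_toB, A.cls_eq_bot (measurableSet_eq_fun (Z m).2 (Z m').2)]
      exact hZ m m' hmm
    rw [hbot] at hle
    exact le_bot_iff.1 hle
  have h3 : ∀ m, ∃ c, b ⊓ rel f (toB A (E c)) (toB A (Z m)) ≠ ⊥ := by
    intro m
    by_contra hcon
    push Not at hcon
    apply hne
    have : b = b ⊓ ⨆ c, rel f (toB A (E c)) (toB A (Z m)) := (inf_eq_left.2 (h1 m)).symm
    rw [this, inf_iSup_eq]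
    simp [hcon]
  choose g hg using h3
  obtain ⟨c, hc⟩ := hM g
  apply hc
  have := A.ccc (ι := ↥(g ⁻¹' {c})) (fun m => b ⊓ rel f (toB A (E c)) (toB A (Z m.1)))
    (fun m => by
      have hm : g m.1 = c := m.2
      have := hg m.1
      rwa [hm] at this)
    (fun m m' hmm => by
      have hmm' : m.1 ≠ m'.1 := fun h => hmm (Subtype.ext h)
      have := h2 c m.1 m'.1 hmm'
      refine le_bot_iff.1 (le_trans ?_ this.le)
      refine le_inf inf_le_left ?_
      exact inf_le_right.trans inf_le_right)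
  exact this
end Pool.Agent.LibPlas90
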