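import Pool.Agent.LibPlas90.RealRel
import Pool.Agent.LibPlas90.MeasCcc

/-!
A set of reals of the Boolean-valued universe given by a family of random variables.
-/

namespace Pool.Agent.LibPlas90

open MeasureTheory BSet

variable {Ω : Type} [MeasurableSpace Ω] {μ : Measure Ω} [IsProbabilityMeasure μ] (A : MeasAlg μ)

omit [IsProbabilityMeasure μ] in
private theorem mem_RR_top (X : RV Ω) : mem (toB A X) (RR A) = ⊤ := by
  have h : mem (toB A X) (RR A) = ⨆ Y : RV Ω, (⊤ : A.B) ⊓ BSet.eq (toB A X) (toB A Y) := by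
    rw [RR, mem]
  rw [h]
  refine top_le_iff.1 (le_iSup_of_le X ?_)
  rw [eq_refl, top_inf_eq]

omit [IsProbabilityMeasure μ] in
private theorem le_mem_GG {I : Type} (E : I → RV Ω) (X : RV Ω) (c : I) :
    BSet.eq (toB A X) (toB A (E c)) ≤ mem (toB A X) (GG A E) := by
  have h : mem (toB A X) (GG A E) = ⨆ d : I, (⊤ : A.B) ⊓ BSet.eq (toB A X) (toB A (E d)) := by
    rw [GG, mem]
  rw [h]
  refine le_iSup_of_le c ?_
  rw [top_inf_eq]

-- PLAS-10
theorem isSubgroup_top {I : Type} [AddCommGroup I] (E : I → RV Ω)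
    (hE : ∀ c d, ∀ᵐ ω ∂μ, (E (c - d)).1 ω = (E c).1 ω - (E d).1 ω) :
    isSubgroup (RR A) (PP A) (GG A E) = ⊤ := by
  have h1 : (all (GG A E) fun x => mem x (RR A)) = ⊤ := by
    rw [all_GG A E (Ext.mem_left _)]
    exact iInf_eq_top.2 fun c => mem_RR_top A _
  have h2 : (ex (GG A E) fun _ => (⊤ : A.B)) = ⊤ := by
    rw [ex_GG A E (Ext.const _)]
    exact top_le_iff.1 (le_iSup (fun _ : I => (⊤ : A.B)) 0)
  have h3 : (all (GG A E) fun x => all (GG A E) fun y => all (RR A) fun z =>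
      rel3 (PP A) x z y ⇨ mem z (GG A E)) = ⊤ := by
    rw [all_GG A E (Ext.all fun y => Ext.all fun z => Ext.himp (Ext.rel3_1 _ _ _) (Ext.const _))]
    refine iInf_eq_top.2 fun c => ?_
    rw [all_GG A E (Ext.all fun z => Ext.himp (Ext.rel3_3 _ _ _) (Ext.const _))]
    refine iInf_eq_top.2 fun d => ?_
    rw [all_RR A (Ext.himp (Ext.rel3_2 _ _ _) (Ext.mem_left _))]
    refine iInf_eq_top.2 fun Z => ?_
    rw [himp_eq_top_iff, rel3_PP]
    refine le_trans ?_ (le_mem_GG A E Z (d - c))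
    rw [eq_toB]
    refine (A.cls_le (measurableSet_eq_fun ((E c).2.add Z.2) (E d).2)
      (measurableSet_eq_fun Z.2 (E (d - c)).2)).2 ?_
    filter_upwards [hE d c] with ω hω h
    simp only [Set.mem_setOf_eq, Pi.add_apply] at h ⊢
    rw [hω]
    linarith
  rw [isSubgroup, h1, h2, h3, top_inf_eq, top_inf_eq]

end Pool.Agent.LibPlas90
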