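import Pool.Agent.LibPlas90.GSub
import Pool.Agent.LibPlas90.GDense
import Pool.Agent.LibPlas90.GSmall
import Pool.Agent.LibPlas90.GPlastic
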