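import Mathlib

/-!
Two index sets.
-/

namespace Pool.Agent.LibPlas90

open Cardinal

theorem countable_supported {K : Type} {C : Set K} (hC : C.Countable) :
    {c : K →₀ ℤ | (c.support : Set K) ⊆ C}.Countable := by
  have : Countable C := hC.to_subtype
  have h : Countable {c : K →₀ ℤ // (c.support : Set K) ⊆ C} :=
    (Finsupp.restrictSupportEquiv C ℤ).countable_iff.2 inferInstance
  exact h.to_set

-- PLAS-22
theorem exists_types : ∃ K M : Type, Uncountable K ∧
    ∀ g : M → (K →₀ ℤ), ∃ c, ¬ (g ⁻¹' {c}).Countable := by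
  have h01 : (ℵ₀ : Cardinal.{0}) < Cardinal.aleph 1 := by
    rw [← Cardinal.aleph_zero]
    exact Cardinal.aleph_lt_aleph.2 zero_lt_one
  have h12 : Cardinal.aleph.{0} 1 < Cardinal.aleph 2 :=
    Cardinal.aleph_lt_aleph.2 one_lt_two
  refine ⟨(Cardinal.aleph 1).out, (Cardinal.aleph 2).out, ?_, ?_⟩
  · rw [← Cardinal.aleph0_lt_mk_iff, Cardinal.mk_out]
    exact h01
  · intro g
    by_contra hcon
    push Not at hcon
    have hinf : Infinite (Cardinal.aleph.{0} 1).out := by
      rw [Cardinal.infinite_iff, Cardinal.mk_out]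
      exact h01.le
    have h1 : #((Cardinal.aleph.{0} 1).out →₀ ℤ) = Cardinal.aleph 1 := by
      rw [Cardinal.mk_finsupp_of_infinite, Cardinal.mk_out, Cardinal.mk_int]
      exact max_eq_left h01.le
    have h2 : #(Cardinal.aleph.{0} 2).out = #(Σ y, {x // g x = y}) :=
      Cardinal.mk_congr (Equiv.sigmaFiberEquiv g).symm
    rw [Cardinal.mk_out, Cardinal.mk_sigma] at h2
    have h3 : Cardinal.sum (fun y => #{x // g x = y}) ≤
        Cardinal.sum (fun _ : ((Cardinal.aleph.{0} 1).out →₀ ℤ) => (ℵ₀ : Cardinal.{0})) := by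
      apply Cardinal.sum_le_sum
      intro y
      exact Cardinal.le_aleph0_iff_set_countable.2 (hcon y)
    rw [Cardinal.sum_const', h1] at h3
    have h4 : Cardinal.aleph.{0} 1 * ℵ₀ = Cardinal.aleph 1 :=
      Cardinal.mul_aleph0_eq h01.le
    rw [h4, ← h2] at h3
    exact absurd h12 (not_lt.2 h3)

end Pool.Agent.LibPlas90
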