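import Pool.Agent.LibPlas90.RLine
import Pool.Agent.LibPlas90.GTop
import Pool.Agent.LibPlas90.Core2
import Pool.Agent.LibPlas90.Types

/-!
The main theorem.
-/

namespace Pool.Agent.LibPlas90

open MeasureTheory BSet Cardinal

theorem main : ∃ (B : Type) (_ : CompleteBooleanAlgebra B) (_ : Nontrivial B),
    BSet.plasticSentence B = ⊤ := by
  classical
  obtain ⟨K, M, hK, hM⟩ := exists_types
  obtain ⟨A⟩ := nonempty_measAlg (mu K M)
  refine ⟨A.B, A.inst, A.nontrivial, ?_⟩
  let E : (K →₀ ℤ) → RV (Om K M) := fun c => ⟨ev c, measurable_ev c⟩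
  have hd : isDense (RR A) (LL A) (GG A E) = ⊤ := by
    obtain ⟨C, hC⟩ : ∃ C : Set K, C.Infinite ∧ C.Countable :=
      ⟨_, Set.infinite_range_of_injective (Infinite.natEmbedding K).injective,
        Set.countable_range _⟩
    refine isDense_top A E {c | (c.support : Set K) ⊆ C} (countable_supported hC.2) ?_
    · filter_upwards [ev_dense (M := M) hC.1] with ω hω a b hab
      exact hω a b hab
  have hs : isSmall (RR A) (GG A E) = ⊤ := by
    refine isSmall_top A E (M := M)
      (fun m => ⟨fun ω => ω (Sum.inr m), measurable_pi_apply _⟩) ?_ hM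
    intro i j hij
    exact coord_ne (by simpa using hij)
  have hg : isSubgroup (RR A) (PP A) (GG A E) = ⊤ :=
    isSubgroup_top A E (fun c d => Filter.Eventually.of_forall fun ω => ev_sub c d ω)
  have hp : isPlastic (RR A) (PP A) (LL A) (GG A E) = ⊤ :=
    isPlastic_top A E (fun c d h => ev_ne h) (fun b a h1 h2 h3 h4 => core2 A b a h1 h2 h3 h4)
  refine top_le_iff.mp ?_
  refine le_iSup_of_le (RR A) (le_iSup_of_le (PP A) (le_iSup_of_le (LL A)
    (le_iSup_of_le (GG A E) ?_)))
  have hr : isRealLine (RR A) (PP A) (LL A) = ⊤ := isRealLine_top A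
  exact le_inf (le_inf (le_inf (le_inf hr.ge hg.ge) hd.ge) hs.ge) hp.ge

end Pool.Agent.LibPlas90
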