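import Mathlib

/-!
Measure algebras.
-/

namespace Pool.Agent.LibPlas90

open MeasureTheory

/-- The measure algebra of a measure: a complete Boolean algebra `B` together with the map `cls`
which sends a measurable set to its class modulo null sets. -/
structure MeasAlg {Ω : Type} [MeasurableSpace Ω] (μ : Measure Ω) where
  B : Type
  inst : CompleteBooleanAlgebra B
  cls : Set Ω → B
  surj : ∀ a : B, ∃ s : Set Ω, MeasurableSet s ∧ cls s = a
  le_iff : ∀ s t : Set Ω, MeasurableSet s → MeasurableSet t →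
    (cls s ≤ cls t ↔ ∀ᵐ ω ∂μ, ω ∈ s → ω ∈ t)

/-- Exhaustion. -/
theorem exists_countable_cover {Ω : Type} [MeasurableSpace Ω] (μ : Measure Ω)
    [IsProbabilityMeasure μ] {ι : Type*} (T : ι → Set Ω) (hT : ∀ i, MeasurableSet (T i)) :
    ∃ C : Set ι, C.Countable ∧ ∀ i, ∀ᵐ ω ∂μ, ω ∈ T i → ω ∈ ⋃ j ∈ C, T j := by
  let f : {C : Set ι // C.Countable} → ENNReal := fun C => μ (⋃ j ∈ C.1, T j)
  have hne : (Set.range f).Nonempty := ⟨_, ⟨⟨∅, Set.countable_empty⟩, rfl⟩⟩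
  obtain ⟨u, _, hu, hur⟩ := exists_seq_tendsto_sSup hne (OrderTop.bddAbove _)
  choose C hC using hur
  refine ⟨⋃ n, (C n).1, Set.countable_iUnion fun n => (C n).2, fun i => ?_⟩
  set D : Set ι := ⋃ n, (C n).1 with hD
  have hDc : D.Countable := Set.countable_iUnion fun n => (C n).2
  set U : Set Ω := ⋃ j ∈ D, T j with hU
  have hUm : MeasurableSet U := MeasurableSet.biUnion hDc fun j _ => hT j
  have h1 : sSup (Set.range f) ≤ μ U := by
    refine le_of_tendsto' hu fun n => ?_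
    rw [← hC n]
    exact measure_mono (Set.biUnion_subset_biUnion_left (Set.subset_iUnion (fun n => (C n).1) n))
  have h2 : μ (U ∪ T i) ≤ sSup (Set.range f) := by
    have h3 : U ∪ T i ⊆ ⋃ j ∈ insert i D, T j := by
      rintro ω (h | h)
      · obtain ⟨j, hj, hj2⟩ := Set.mem_iUnion₂.mp h
        exact Set.mem_iUnion₂.mpr ⟨j, Or.inr hj, hj2⟩
      · exact Set.mem_iUnion₂.mpr ⟨i, Or.inl rfl, h⟩
    refine (measure_mono h3).trans (le_sSup ⟨⟨insert i D, hDc.insert i⟩, rfl⟩)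
  have h4 : μ (T i \ U) = 0 := by
    have h5 : μ (U ∪ T i) = μ U + μ (T i \ U) := by
      rw [← Set.union_sdiff_self]
      exact measure_union Set.disjoint_sdiff_right ((hT i).diff hUm)
    have h6 : μ U + μ (T i \ U) ≤ μ U + 0 := by
      rw [← h5, add_zero]
      exact h2.trans h1
    have h7 := (ENNReal.add_le_add_iff_left (measure_ne_top μ U)).mp h6
    exact le_antisymm h7 bot_le
  rw [ae_iff]
  refine measure_mono_null ?_ h4
  intro ω hω
  simp only [Set.mem_ofPred_eq, Classical.not_imp] at hω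
  exact ⟨hω.1, hω.2⟩

section

variable {Ω : Type} [MeasurableSpace Ω] (μ : Measure Ω)

/-- Measurable sets, preordered by inclusion up to a null set. -/
def MSet (_ : Measure Ω) : Type := {s : Set Ω // MeasurableSet s}

instance : Preorder (MSet μ) where
  le s t := ∀ᵐ ω ∂μ, ω ∈ s.1 → ω ∈ t.1
  le_refl s := Filter.Eventually.of_forall fun _ h => h
  le_trans s t u h1 h2 := by
    filter_upwards [h1, h2] with ω h3 h4 h5
    exact h4 (h3 h5)

theorem MSet.le_def {s t : MSet μ} : s ≤ t ↔ ∀ᵐ ω ∂μ, ω ∈ s.1 → ω ∈ t.1 := Iff.rfl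

/-- The quotient. -/
def MQ : Type := Antisymmetrization (MSet μ) (· ≤ ·)

noncomputable instance : PartialOrder (MQ μ) :=
  inferInstanceAs (PartialOrder (Antisymmetrization (MSet μ) (· ≤ ·)))

/-- The class of a set. -/
def MQ.mk (s : MSet μ) : MQ μ := toAntisymmetrization (· ≤ ·) s

theorem MQ.le_iff {s t : MSet μ} : MQ.mk μ s ≤ MQ.mk μ t ↔ s ≤ t :=
  toAntisymmetrization_le_toAntisymmetrization_iff

theorem MQ.exists_rep (a : MQ μ) : ∃ s, MQ.mk μ s = a :=
  Quotient.exists_rep a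

theorem MQ.exists_lub [IsProbabilityMeasure μ] (S : Set (MQ μ)) : ∃ a, IsLUB S a := by
  choose f hf using MQ.exists_rep μ
  obtain ⟨C, hC, hC2⟩ := exists_countable_cover μ (fun a : S => (f a.1).1) (fun a => (f a.1).2)
  refine ⟨MQ.mk μ ⟨⋃ a ∈ C, (f a.1).1, MeasurableSet.biUnion hC fun a _ => (f a.1).2⟩, ?_, ?_⟩
  · intro a ha
    rw [← hf a, MQ.le_iff, MSet.le_def]
    exact hC2 ⟨a, ha⟩
  · intro b hb
    rw [← hf b, MQ.le_iff, MSet.le_def]
    have h1 : ∀ a ∈ C, ∀ᵐ ω ∂μ, ω ∈ (f a.1).1 → ω ∈ (f b).1 := by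
      intro a _
      have h2 := hb a.2
      rw [← hf a.1, ← hf b, MQ.le_iff, MSet.le_def] at h2
      exact h2
    have h3 := (ae_ball_iff hC).mpr h1
    filter_upwards [h3] with ω h4 h5
    obtain ⟨a, ha, ha2⟩ := Set.mem_iUnion₂.mp h5
    exact h4 a ha ha2

noncomputable instance [IsProbabilityMeasure μ] : SupSet (MQ μ) :=
  ⟨fun S => (MQ.exists_lub μ S).choose⟩

noncomputable instance [IsProbabilityMeasure μ] : CompleteLattice (MQ μ) :=
  completeLatticeOfSup (MQ μ) fun S => (MQ.exists_lub μ S).choose_spec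

variable [IsProbabilityMeasure μ]

theorem MQ.mk_sup (s t : MSet μ) :
    MQ.mk μ s ⊔ MQ.mk μ t = MQ.mk μ ⟨s.1 ∪ t.1, s.2.union t.2⟩ := by
  apply le_antisymm
  · refine sup_le ?_ ?_
    · rw [MQ.le_iff, MSet.le_def]
      exact Filter.Eventually.of_forall fun _ h => Or.inl h
    · rw [MQ.le_iff, MSet.le_def]
      exact Filter.Eventually.of_forall fun _ h => Or.inr h
  · obtain ⟨u, hu⟩ := MQ.exists_rep μ (MQ.mk μ s ⊔ MQ.mk μ t)
    have h1 : MQ.mk μ s ≤ MQ.mk μ u := hu ▸ le_sup_left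
    have h2 : MQ.mk μ t ≤ MQ.mk μ u := hu ▸ le_sup_right
    rw [← hu, MQ.le_iff, MSet.le_def]
    rw [MQ.le_iff, MSet.le_def] at h1 h2
    filter_upwards [h1, h2] with ω h3 h4 h5
    exact h5.elim h3 h4

theorem MQ.mk_inf (s t : MSet μ) :
    MQ.mk μ s ⊓ MQ.mk μ t = MQ.mk μ ⟨s.1 ∩ t.1, s.2.inter t.2⟩ := by
  apply le_antisymm
  · obtain ⟨u, hu⟩ := MQ.exists_rep μ (MQ.mk μ s ⊓ MQ.mk μ t)
    have h1 : MQ.mk μ u ≤ MQ.mk μ s := hu ▸ inf_le_left
    have h2 : MQ.mk μ u ≤ MQ.mk μ t := hu ▸ inf_le_right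
    rw [← hu, MQ.le_iff, MSet.le_def]
    rw [MQ.le_iff, MSet.le_def] at h1 h2
    filter_upwards [h1, h2] with ω h3 h4 h5
    exact ⟨h3 h5, h4 h5⟩
  · refine le_inf ?_ ?_
    · rw [MQ.le_iff, MSet.le_def]
      exact Filter.Eventually.of_forall fun _ h => h.1
    · rw [MQ.le_iff, MSet.le_def]
      exact Filter.Eventually.of_forall fun _ h => h.2

theorem MQ.mk_bot : MQ.mk μ ⟨∅, MeasurableSet.empty⟩ = ⊥ := by
  obtain ⟨u, hu⟩ := MQ.exists_rep μ (⊥ : MQ μ)
  refine le_bot_iff.mp ?_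
  rw [← hu, MQ.le_iff, MSet.le_def]
  exact Filter.Eventually.of_forall fun _ h => h.elim

theorem MQ.mk_top : MQ.mk μ ⟨Set.univ, MeasurableSet.univ⟩ = ⊤ := by
  obtain ⟨u, hu⟩ := MQ.exists_rep μ (⊤ : MQ μ)
  refine top_le_iff.mp ?_
  rw [← hu, MQ.le_iff, MSet.le_def]
  exact Filter.Eventually.of_forall fun _ _ => trivial

noncomputable instance : DistribLattice (MQ μ) where
  le_sup_inf a b c := by
    obtain ⟨s, rfl⟩ := MQ.exists_rep μ a
    obtain ⟨t, rfl⟩ := MQ.exists_rep μ b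
    obtain ⟨u, rfl⟩ := MQ.exists_rep μ c
    rw [MQ.mk_sup, MQ.mk_sup, MQ.mk_inf, MQ.mk_inf, MQ.mk_sup, MQ.le_iff, MSet.le_def]
    refine Filter.Eventually.of_forall fun ω h => ?_
    rcases h with ⟨h1 | h1, h2 | h2⟩
    · exact Or.inl h1
    · exact Or.inl h1
    · exact Or.inl h2
    · exact Or.inr ⟨h1, h2⟩

instance : ComplementedLattice (MQ μ) where
  exists_isCompl a := by
    obtain ⟨s, rfl⟩ := MQ.exists_rep μ a
    refine ⟨MQ.mk μ ⟨s.1ᶜ, s.2.compl⟩, ?_⟩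
    rw [isCompl_iff, disjoint_iff, codisjoint_iff, MQ.mk_inf, MQ.mk_sup, ← MQ.mk_bot, ← MQ.mk_top]
    constructor
    · congr 1
      exact Subtype.ext (Set.inter_compl_self _)
    · congr 1
      exact Subtype.ext (Set.union_compl_self _)

noncomputable instance : BooleanAlgebra (MQ μ) :=
  DistribLattice.booleanAlgebraOfComplemented (MQ μ)

noncomputable instance : CompleteBooleanAlgebra (MQ μ) :=
  { (inferInstance : BooleanAlgebra (MQ μ)), (inferInstance : CompleteLattice (MQ μ)) with }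

end

-- PLAS-3
theorem nonempty_measAlg {Ω : Type} [MeasurableSpace Ω] (μ : Measure Ω) [IsProbabilityMeasure μ] :
    Nonempty (MeasAlg μ) := by
  classical
  refine ⟨⟨MQ μ, inferInstance,
    fun s => if h : MeasurableSet s then MQ.mk μ ⟨s, h⟩ else ⊥, ?_, ?_⟩⟩
  · intro a
    obtain ⟨s, rfl⟩ := MQ.exists_rep μ a
    exact ⟨s.1, s.2, by rw [dif_pos s.2]; rfl⟩
  · intro s t hs ht
    rw [dif_pos hs, dif_pos ht]
    exact MQ.le_iff μ

end Pool.Agent.LibPlas90
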