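import Pool.Agent.LibPlas90.MeasAlg

/-!
The calculus of a measure algebra.
-/

namespace Pool.Agent.LibPlas90

open MeasureTheory

namespace MeasAlg

variable {Ω : Type} [MeasurableSpace Ω] {μ : Measure Ω} (A : MeasAlg μ)

noncomputable instance : CompleteBooleanAlgebra A.B := A.inst

-- PLAS-4a
theorem cls_le {s t : Set Ω} (hs : MeasurableSet s) (ht : MeasurableSet t) :
    A.cls s ≤ A.cls t ↔ ∀ᵐ ω ∂μ, ω ∈ s → ω ∈ t := A.le_iff s t hs ht

theorem cls_mono {s t : Set Ω} (hs : MeasurableSet s) (ht : MeasurableSet t) (h : s ⊆ t) :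
    A.cls s ≤ A.cls t := (A.cls_le hs ht).mpr (Filter.Eventually.of_forall fun _ h' => h h')

theorem cls_eq {s t : Set Ω} (hs : MeasurableSet s) (ht : MeasurableSet t) :
    A.cls s = A.cls t ↔ ∀ᵐ ω ∂μ, ω ∈ s ↔ ω ∈ t := by
  rw [le_antisymm_iff, A.cls_le hs ht, A.cls_le ht hs, ← Filter.eventually_and]
  constructor
  · intro h
    filter_upwards [h] with ω h'
    exact ⟨h'.1, h'.2⟩
  · intro h
    filter_upwards [h] with ω h'
    exact ⟨h'.1, h'.2⟩

theorem cls_iUnion {ι : Type*} [Countable ι] {s : ι → Set Ω} (hs : ∀ i, MeasurableSet (s i)) :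
    A.cls (⋃ i, s i) = ⨆ i, A.cls (s i) := by
  apply le_antisymm
  · obtain ⟨u, hu, hu2⟩ := A.surj (⨆ i, A.cls (s i))
    rw [← hu2, A.cls_le (MeasurableSet.iUnion hs) hu]
    have h1 : ∀ i, ∀ᵐ ω ∂μ, ω ∈ s i → ω ∈ u := by
      intro i
      rw [← A.cls_le (hs i) hu, hu2]
      exact le_iSup (fun i => A.cls (s i)) i
    filter_upwards [ae_all_iff.mpr h1] with ω h2 h3
    obtain ⟨i, hi⟩ := Set.mem_iUnion.mp h3
    exact h2 i hi
  · exact iSup_le fun i => A.cls_mono (hs i) (MeasurableSet.iUnion hs) (Set.subset_iUnion s i)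

theorem cls_iInter {ι : Type*} [Countable ι] {s : ι → Set Ω} (hs : ∀ i, MeasurableSet (s i)) :
    A.cls (⋂ i, s i) = ⨅ i, A.cls (s i) := by
  apply le_antisymm
  · exact le_iInf fun i => A.cls_mono (MeasurableSet.iInter hs) (hs i) (Set.iInter_subset s i)
  · obtain ⟨u, hu, hu2⟩ := A.surj (⨅ i, A.cls (s i))
    rw [← hu2, A.cls_le hu (MeasurableSet.iInter hs)]
    have h1 : ∀ i, ∀ᵐ ω ∂μ, ω ∈ u → ω ∈ s i := by
      intro i
      rw [← A.cls_le hu (hs i), hu2]
      exact iInf_le (fun i => A.cls (s i)) i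
    filter_upwards [ae_all_iff.mpr h1] with ω h2 h3
    exact Set.mem_iInter.mpr fun i => h2 i h3

theorem cls_union {s t : Set Ω} (hs : MeasurableSet s) (ht : MeasurableSet t) :
    A.cls (s ∪ t) = A.cls s ⊔ A.cls t := by
  rw [Set.union_eq_iUnion, A.cls_iUnion (by intro b; cases b <;> assumption), iSup_bool_eq]
  simp

theorem cls_inter {s t : Set Ω} (hs : MeasurableSet s) (ht : MeasurableSet t) :
    A.cls (s ∩ t) = A.cls s ⊓ A.cls t := by
  rw [Set.inter_eq_iInter, A.cls_iInter (by intro b; cases b <;> assumption), iInf_bool_eq]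
  simp

theorem cls_univ : A.cls Set.univ = ⊤ := by
  obtain ⟨u, hu, hu2⟩ := A.surj ⊤
  refine top_le_iff.mp ?_
  rw [← hu2]
  exact A.cls_mono hu MeasurableSet.univ (Set.subset_univ _)

theorem cls_empty : A.cls ∅ = ⊥ := by
  obtain ⟨u, hu, hu2⟩ := A.surj ⊥
  refine le_bot_iff.mp ?_
  rw [← hu2]
  exact A.cls_mono MeasurableSet.empty hu (Set.empty_subset _)

theorem cls_compl {s : Set Ω} (hs : MeasurableSet s) : A.cls sᶜ = (A.cls s)ᶜ := by
  have h : IsCompl (A.cls s) (A.cls sᶜ) := by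
    rw [isCompl_iff, disjoint_iff, codisjoint_iff, ← A.cls_inter hs hs.compl,
      ← A.cls_union hs hs.compl, Set.inter_compl_self, Set.union_compl_self]
    exact ⟨A.cls_empty, A.cls_univ⟩
  exact h.compl_eq.symm

theorem cls_himp {s t : Set Ω} (hs : MeasurableSet s) (ht : MeasurableSet t) :
    A.cls s ⇨ A.cls t = A.cls (sᶜ ∪ t) := by
  rw [A.cls_union hs.compl ht, A.cls_compl hs, himp_eq, sup_comm]

theorem cls_eq_bot {s : Set Ω} (hs : MeasurableSet s) : A.cls s = ⊥ ↔ ∀ᵐ ω ∂μ, ω ∉ s := by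
  rw [← A.cls_empty, A.cls_eq hs MeasurableSet.empty]
  simp

theorem cls_eq_top {s : Set Ω} (hs : MeasurableSet s) : A.cls s = ⊤ ↔ ∀ᵐ ω ∂μ, ω ∈ s := by
  rw [← A.cls_univ, A.cls_eq hs MeasurableSet.univ]
  simp

theorem nontrivial [IsProbabilityMeasure μ] : Nontrivial A.B := by
  refine ⟨⊥, ⊤, fun h => ?_⟩
  rw [← A.cls_empty, A.cls_eq_top MeasurableSet.empty] at h
  simp only [Set.mem_empty_iff_false, Filter.eventually_false_iff_eq_bot, ae_eq_bot] at h
  exact IsProbabilityMeasure.ne_zero μ h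

end MeasAlg

end Pool.Agent.LibPlas90
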