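import Pool.Agent.LibPlas90.BBasic

/-!
Ordered pairs in the Boolean-valued universe.
-/

universe u

namespace Pool.Agent.LibPlas90

namespace BSet

variable {B : Type u} [CompleteBooleanAlgebra B]

/-- The unordered pair. -/
def upr (x y : BSet B) : BSet B := mk (ULift Bool) (fun t => if t.down then x else y) (fun _ => ⊤)

/-- The ordered pair. -/
def opr (x y : BSet B) : BSet B := upr (upr x x) (upr x y)

-- PLAS-2
theorem mem_upr (t x y : BSet B) : mem t (upr x y) = eq t x ⊔ eq t y := by
  unfold upr
  rw [mem_mk]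
  apply le_antisymm
  · refine iSup_le ?_
    rintro ⟨b⟩
    cases b
    · simp
    · simp
  · refine sup_le ?_ ?_
    · refine le_iSup_of_le ⟨true⟩ ?_
      simp
    · refine le_iSup_of_le ⟨false⟩ ?_
      simp

theorem le_eq_upr (x y x' y' : BSet B) (c : B) (h1 : c ≤ eq x x' ⊔ eq x y')
    (h2 : c ≤ eq y x' ⊔ eq y y') (h3 : c ≤ eq x' x ⊔ eq x' y) (h4 : c ≤ eq y' x ⊔ eq y' y) :
    c ≤ eq (upr x y) (upr x' y') := by
  refine le_eq_of_forall _ _ _ (fun t => ?_) (fun t => ?_)
  · rw [mem_upr, mem_upr, inf_sup_left]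
    refine sup_le ?_ ?_
    · refine (inf_le_inf_right _ h1).trans ?_
      rw [inf_sup_right]
      refine sup_le_sup ?_ ?_
      · rw [inf_comm]
        exact eq_trans _ _ _
      · rw [inf_comm]
        exact eq_trans _ _ _
    · refine (inf_le_inf_right _ h2).trans ?_
      rw [inf_sup_right]
      refine sup_le_sup ?_ ?_
      · rw [inf_comm]
        exact eq_trans _ _ _
      · rw [inf_comm]
        exact eq_trans _ _ _
  · rw [mem_upr, mem_upr, inf_sup_left]
    refine sup_le ?_ ?_
    · refine (inf_le_inf_right _ h3).trans ?_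
      rw [inf_sup_right]
      refine sup_le_sup ?_ ?_
      · rw [inf_comm]
        exact eq_trans _ _ _
      · rw [inf_comm]
        exact eq_trans _ _ _
    · refine (inf_le_inf_right _ h4).trans ?_
      rw [inf_sup_right]
      refine sup_le_sup ?_ ?_
      · rw [inf_comm]
        exact eq_trans _ _ _
      · rw [inf_comm]
        exact eq_trans _ _ _

theorem eq_upr_le (x y x' y' : BSet B) :
    eq (upr x y) (upr x' y') ≤ eq x x' ⊔ eq x y' := by
  rw [← mem_upr]
  have h1 : (⊤ : B) ≤ mem x (upr x y) := by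
    rw [mem_upr, eq_refl, top_sup_eq]
  refine le_trans ?_ (mem_congr_right x (upr x y) (upr x' y'))
  exact le_inf le_rfl (le_top.trans h1)

theorem upr_comm (x y : BSet B) : eq (upr x y) (upr y x) = ⊤ := by
  refine top_le_iff.mp (le_eq_upr _ _ _ _ _ ?_ ?_ ?_ ?_) <;> rw [eq_refl] <;> simp

theorem eq_upr_le' (x y x' y' : BSet B) :
    eq (upr x y) (upr x' y') ≤ eq y x' ⊔ eq y y' := by
  rw [← mem_upr]
  have h1 : (⊤ : B) ≤ mem y (upr x y) := by
    rw [mem_upr, eq_refl, sup_top_eq]
  refine le_trans ?_ (mem_congr_right y (upr x y) (upr x' y'))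
  exact le_inf le_rfl (le_top.trans h1)

theorem eq_upr (x y x' y' : BSet B) :
    eq (upr x y) (upr x' y') = (eq x x' ⊓ eq y y') ⊔ (eq x y' ⊓ eq y x') := by
  apply le_antisymm
  · have h1 := eq_upr_le x y x' y'
    have h2 := eq_upr_le' x y x' y'
    have h3 : eq (upr x y) (upr x' y') ≤ eq x x' ⊔ eq y x' := by
      rw [eq_symm (upr x y), eq_symm x, eq_symm y]
      exact eq_upr_le x' y' x y
    have h4 : eq (upr x y) (upr x' y') ≤ eq x y' ⊔ eq y y' := by
      rw [eq_symm (upr x y), eq_symm x, eq_symm y]
      exact eq_upr_le' x' y' x y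
    calc eq (upr x y) (upr x' y')
        ≤ (eq x x' ⊔ eq x y') ⊓ (eq y x' ⊔ eq y y') ⊓ ((eq x x' ⊔ eq y x') ⊓
            (eq x y' ⊔ eq y y')) := le_inf (le_inf h1 h2) (le_inf h3 h4)
      _ ≤ (eq x x' ⊓ eq y y') ⊔ (eq x y' ⊓ eq y x') := by
          generalize eq x x' = a
          generalize eq x y' = b
          generalize eq y x' = c
          generalize eq y y' = d
          -- (a ∨ b)(c ∨ d)(a ∨ c)(b ∨ d) ≤ ad ∨ bc
          rw [inf_sup_right (a := a) (b := b)]
          rw [inf_sup_right]
          refine sup_le ?_ ?_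
          · -- a ∧ (c ∨ d) ∧ ...(b ∨ d)
            calc a ⊓ (c ⊔ d) ⊓ ((a ⊔ c) ⊓ (b ⊔ d)) ≤ (a ⊓ c ⊔ a ⊓ d) ⊓ (b ⊔ d) := by
                  rw [← inf_sup_left]
                  exact inf_le_inf_left _ inf_le_right
              _ ≤ _ := by
                  rw [inf_sup_right]
                  refine sup_le ?_ (inf_le_left.trans le_sup_left)
                  rw [inf_sup_left]
                  refine sup_le ?_ ?_
                  · refine le_trans ?_ le_sup_right
                    exact le_inf inf_le_right (inf_le_left.trans inf_le_right)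
                  · refine le_trans ?_ le_sup_left
                    exact le_inf (inf_le_left.trans inf_le_left) inf_le_right
          · calc b ⊓ (c ⊔ d) ⊓ ((a ⊔ c) ⊓ (b ⊔ d)) ≤ (b ⊓ c ⊔ b ⊓ d) ⊓ (a ⊔ c) := by
                  rw [← inf_sup_left]
                  exact inf_le_inf_left _ inf_le_left
              _ ≤ _ := by
                  rw [inf_sup_right]
                  refine sup_le (inf_le_left.trans le_sup_right) ?_
                  rw [inf_sup_left]
                  refine sup_le ?_ ?_
                  · refine le_trans ?_ le_sup_left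
                    exact le_inf inf_le_right (inf_le_left.trans inf_le_right)
                  · refine le_trans ?_ le_sup_right
                    exact le_inf (inf_le_left.trans inf_le_left) inf_le_right
  · refine sup_le (le_eq_upr _ _ _ _ _ ?_ ?_ ?_ ?_) (le_eq_upr _ _ _ _ _ ?_ ?_ ?_ ?_)
    · exact inf_le_left.trans le_sup_left
    · exact inf_le_right.trans le_sup_right
    · rw [eq_symm x' x]
      exact inf_le_left.trans le_sup_left
    · rw [eq_symm y' y]
      exact inf_le_right.trans le_sup_right
    · exact inf_le_left.trans le_sup_right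
    · exact inf_le_right.trans le_sup_left
    · rw [eq_symm x' y]
      exact inf_le_right.trans le_sup_right
    · rw [eq_symm y' x]
      exact inf_le_left.trans le_sup_left

theorem eq_upr_self (x x' : BSet B) : eq (upr x x) (upr x' x') = eq x x' := by
  rw [eq_upr, inf_idem, sup_idem]

theorem eq_opr (x y x' y' : BSet B) : eq (opr x y) (opr x' y') = eq x x' ⊓ eq y y' := by
  unfold opr
  rw [eq_upr (upr x x), eq_upr_self, eq_upr, eq_upr, eq_upr]
  apply le_antisymm
  · refine sup_le ?_ ?_
    · rw [inf_sup_left]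
      refine sup_le ?_ ?_
      · exact inf_le_right
      · refine le_inf inf_le_left ?_
        -- x = x', x = y', y = x' gives y = y'
        calc eq x x' ⊓ (eq x y' ⊓ eq y x') ≤ eq y x' ⊓ (eq x' x ⊓ eq x y') := by
              rw [eq_symm x' x]
              exact le_inf (inf_le_right.trans inf_le_right)
                (le_inf inf_le_left (inf_le_right.trans inf_le_left))
          _ ≤ eq y x' ⊓ eq x' y' := inf_le_inf_left _ (eq_trans _ _ _)
          _ ≤ eq y y' := eq_trans _ _ _
    · -- x = x', x = y', x = x', y = x'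
      have h1 : eq x x' ⊓ eq x y' ⊔ eq x y' ⊓ eq x x' = eq x x' ⊓ eq x y' := by
        rw [inf_comm (eq x y'), sup_idem]
      have h2 : eq x x' ⊓ eq y x' ⊔ eq x x' ⊓ eq y x' = eq x x' ⊓ eq y x' := sup_idem _
      rw [h1, h2]
      refine le_inf (inf_le_left.trans inf_le_left) ?_
      calc eq x x' ⊓ eq x y' ⊓ (eq x x' ⊓ eq y x') ≤ eq y x' ⊓ (eq x' x ⊓ eq x y') := by
              rw [eq_symm x' x]
              exact le_inf (inf_le_right.trans inf_le_right)
                (le_inf (inf_le_left.trans inf_le_left) (inf_le_left.trans inf_le_right))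
          _ ≤ eq y x' ⊓ eq x' y' := inf_le_inf_left _ (eq_trans _ _ _)
          _ ≤ eq y y' := eq_trans _ _ _
  · refine le_trans ?_ le_sup_left
    exact le_inf inf_le_left le_sup_left

theorem isUPair_eq (z x y : BSet B) : isUPair z x y = eq z (upr x y) := by
  unfold isUPair equiv
  apply le_antisymm
  · refine le_eq_of_forall _ _ _ (fun t => ?_) (fun t => ?_)
    · rw [← le_himp_iff, mem_upr]
      exact (iInf_le _ t).trans inf_le_left
    · rw [← le_himp_iff, mem_upr]
      exact (iInf_le _ t).trans inf_le_right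
  · refine le_iInf fun t => le_inf ?_ ?_
    · rw [le_himp_iff, ← mem_upr]
      exact mem_congr_right _ _ _
    · rw [le_himp_iff, ← mem_upr, eq_symm]
      exact mem_congr_right _ _ _

theorem isPair_eq (p x y : BSet B) : isPair p x y = eq p (opr x y) := by
  have h : ∀ z, isUPair z x x ⊔ isUPair z x y = eq z (upr x x) ⊔ eq z (upr x y) := by
    intro z
    rw [isUPair_eq, isUPair_eq]
  rw [opr, ← isUPair_eq]
  unfold isPair
  rw [isUPair]
  exact iInf_congr fun z => by rw [h z]

theorem rel_eq (F x y : BSet B) : rel F x y = mem (opr x y) F := by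
  unfold rel
  apply le_antisymm
  · refine iSup_le fun p => ?_
    rw [isPair_eq]
    exact mem_congr_left _ _ _
  · refine le_iSup_of_le (opr x y) ?_
    rw [isPair_eq, eq_refl, top_inf_eq]

theorem Ext.comp_opr {φ : BSet B → B} (h : Ext φ) (x y x' y' : BSet B) :
    eq x x' ⊓ eq y y' ⊓ φ (opr x y) ≤ φ (opr x' y') := by
  rw [← eq_opr]
  exact h _ _

theorem Ext.rel1 (F y : BSet B) : Ext (fun x => rel F x y) := by
  intro x x'
  simp only [rel_eq]
  have := Ext.comp_opr (Ext.mem_left F) x y x' y
  rwa [eq_refl, inf_top_eq] at this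

theorem Ext.rel2 (F y : BSet B) : Ext (fun x => rel F y x) := by
  intro x x'
  simp only [rel_eq]
  have := Ext.comp_opr (Ext.mem_left F) y x y x'
  rwa [eq_refl, top_inf_eq] at this

theorem Ext.rel12 (F : BSet B) : Ext (fun x => rel F x x) := by
  intro x x'
  simp only [rel_eq]
  have := Ext.comp_opr (Ext.mem_left F) x x x' x'
  rwa [inf_idem] at this

theorem rel3_eq (P x y z : BSet B) : rel3 P x y z = mem (opr (opr x y) z) P := by
  unfold rel3
  apply le_antisymm
  · refine iSup_le fun p => ?_
    rw [isPair_eq, ← rel_eq]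
    exact Ext.rel1 P z _ _
  · refine le_iSup_of_le (opr x y) ?_
    rw [isPair_eq, eq_refl, top_inf_eq, rel_eq]

theorem Ext.rel3_1 (P y z : BSet B) : Ext (fun x => rel3 P x y z) := by
  intro x x'
  simp only [rel3_eq, ← rel_eq P]
  have := Ext.comp_opr (Ext.rel1 P z) x y x' y
  rwa [eq_refl, inf_top_eq] at this

theorem Ext.rel3_2 (P y z : BSet B) : Ext (fun x => rel3 P y x z) := by
  intro x x'
  simp only [rel3_eq, ← rel_eq P]
  have := Ext.comp_opr (Ext.rel1 P z) y x y x'
  rwa [eq_refl, top_inf_eq] at this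

theorem Ext.rel3_3 (P y z : BSet B) : Ext (fun x => rel3 P y z x) := by
  intro x x'
  simp only [rel3_eq, ← rel_eq P]
  exact Ext.rel2 P _ _ _

end BSet

end Pool.Agent.LibPlas90
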