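import Pool.Agent.LibPlas90.MeasAlg

/-!
A product of intervals.
-/

namespace Pool.Agent.LibPlas90

open MeasureTheory

/-- The uniform distribution on the unit interval. -/
noncomputable def lam : Measure ℝ := volume.restrict (Set.Icc 0 1)

instance : IsProbabilityMeasure lam := by
  constructor
  simp [lam]

/-- The product space. -/
abbrev Om (K M : Type) : Type := K ⊕ M → ℝ

/-- The product measure. -/
noncomputable def mu (K M : Type) : Measure (Om K M) := Measure.infinitePi (fun _ => lam)

instance (K M : Type) : IsProbabilityMeasure (mu K M) := by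
  unfold mu
  infer_instance

/-- The integer combination of the coordinates with coefficients `c`. -/
noncomputable def ev {K M : Type} (c : K →₀ ℤ) (ω : Om K M) : ℝ :=
  c.sum fun k n => (n : ℝ) * ω (Sum.inl k)

variable {K M : Type}

-- PLAS-14
theorem measurable_ev (c : K →₀ ℤ) : Measurable (ev (M := M) c) := by
  unfold ev Finsupp.sum
  exact Finset.measurable_sum _ fun k _ => (measurable_pi_apply _).const_mul _

theorem ev_add (c d : K →₀ ℤ) (ω : Om K M) : ev (c + d) ω = ev c ω + ev d ω := by
  classical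
  unfold ev
  refine Finsupp.sum_add_index' (fun k => by simp) (fun k a b => ?_)
  push_cast
  ring

theorem ev_neg (c : K →₀ ℤ) (ω : Om K M) : ev (-c) ω = - ev c ω := by
  have h := ev_add c (-c) ω
  rw [add_neg_cancel] at h
  have h0 : ev (0 : K →₀ ℤ) ω = 0 := by simp [ev]
  rw [h0] at h
  linarith

theorem ev_sub (c d : K →₀ ℤ) (ω : Om K M) : ev (c - d) ω = ev c ω - ev d ω := by
  rw [sub_eq_add_neg, ev_add, ev_neg]
  ring

theorem ev_congr (c : K →₀ ℤ) (ω ω' : Om K M)
    (h : ∀ k ∈ c.support, ω (Sum.inl k) = ω' (Sum.inl k)) : ev c ω = ev c ω' := by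
  unfold ev Finsupp.sum
  refine Finset.sum_congr rfl fun k hk => ?_
  show ((c k : ℤ) : ℝ) * ω (Sum.inl k) = (c k : ℝ) * ω' (Sum.inl k)
  rw [h k hk]

theorem ev_update [DecidableEq (K ⊕ M)] (c : K →₀ ℤ) (ω : Om K M) (k : K) (s : ℝ) :
    ev c (Function.update ω (Sum.inl k) s) = ev c ω + (c k : ℝ) * (s - ω (Sum.inl k)) := by
  classical
  have h1 : ev (c - Finsupp.single k (c k)) (Function.update ω (Sum.inl k) s) =
      ev (c - Finsupp.single k (c k)) ω := by
    refine ev_congr _ _ _ fun j hj => ?_
    rw [Function.update_of_ne]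
    intro h
    rw [Sum.inl.injEq] at h
    rw [Finsupp.mem_support_iff, Finsupp.sub_apply, Finsupp.single_apply, if_pos h.symm, h,
      sub_self] at hj
    exact hj rfl
  have h2 : ∀ ω' : Om K M, ev (Finsupp.single k (c k)) ω' = (c k : ℝ) * ω' (Sum.inl k) := by
    intro ω'
    unfold ev
    rw [Finsupp.sum_single_index]
    simp
  rw [ev_sub, ev_sub, h2, h2, Function.update_self] at h1
  linarith

theorem ev_update_inr [DecidableEq (K ⊕ M)] (c : K →₀ ℤ) (ω : Om K M) (m : M) (s : ℝ) :
    ev c (Function.update ω (Sum.inr m) s) = ev c ω := by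
  refine ev_congr _ _ _ fun j _ => ?_
  rw [Function.update_of_ne]
  simp

end Pool.Agent.LibPlas90
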