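import Pool.Agent.LibPlas90.ProdNe

/-!
Groups generated by coordinates are dense.
-/

namespace Pool.Agent.LibPlas90

open MeasureTheory

variable {K M : Type}

private lemma ev_pair (k0 k1 : K) (n m : ℤ) (ω : Om K M) :
    ev (Finsupp.single k0 n + Finsupp.single k1 m) ω =
      (n : ℝ) * ω (Sum.inl k0) + (m : ℝ) * ω (Sum.inl k1) := by
  rw [ev_add]
  simp [ev]

-- PLAS-18
theorem ev_dense {C : Set K} (hC : C.Infinite) :
    ∀ᵐ ω ∂(mu K M), ∀ a b : ℝ, a < b →
      ∃ c : K →₀ ℤ, (c.support : Set K) ⊆ C ∧ a < ev c ω ∧ ev c ω < b := by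
  classical
  obtain ⟨k0, hk0⟩ := hC.nonempty
  obtain ⟨k1, hk1, hne⟩ := hC.exists_notMem_finset {k0}
  have hne' : k1 ≠ k0 := by simpa using hne
  have h : ∀ᵐ ω ∂(mu K M), ∀ p : ℤ × ℤ, p ≠ (0, 0) →
      ev (Finsupp.single k0 p.1 + Finsupp.single k1 p.2) ω ≠ 0 := by
    rw [ae_all_iff]
    intro p
    by_cases hp : p = (0, 0)
    · exact Filter.Eventually.of_forall fun ω hp' => absurd hp hp'
    · have hc : (Finsupp.single k0 p.1 + Finsupp.single k1 p.2 : K →₀ ℤ) ≠ 0 := by
        intro h0
        apply hp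
        have h1 := DFunLike.congr_fun h0 k0
        have h2 := DFunLike.congr_fun h0 k1
        simp [Finsupp.single_apply, hne'] at h1
        simp [Finsupp.single_apply, hne'.symm] at h2
        exact Prod.ext h1 h2
      filter_upwards [ev_ne (M := M) hc] with ω hω _
      simpa [ev] using hω
  filter_upwards [h] with ω hω
  intro a b hab
  set u := ω (Sum.inl k0) with hu
  set v := ω (Sum.inl k1) with hv
  have key : ∀ n m : ℤ, (n, m) ≠ ((0, 0) : ℤ × ℤ) → (n : ℝ) * u + (m : ℝ) * v ≠ 0 := by
    intro n m hnm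
    have := hω (n, m) hnm
    rwa [ev_pair] at this
  have hd : Dense (AddSubgroup.closure ({u, v} : Set ℝ) : Set ℝ) := by
    rcases AddSubgroup.dense_or_cyclic (AddSubgroup.closure ({u, v} : Set ℝ)) with h1 | ⟨x, hx⟩
    · exact h1
    · exfalso
      have h1 : u ∈ AddSubgroup.closure ({x} : Set ℝ) := by
        rw [← hx]
        exact AddSubgroup.subset_closure (by simp)
      have h2 : v ∈ AddSubgroup.closure ({x} : Set ℝ) := by
        rw [← hx]
        exact AddSubgroup.subset_closure (by simp)
      rw [AddSubgroup.mem_closure_singleton] at h1 h2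
      obtain ⟨p, hp⟩ := h1
      obtain ⟨q, hq⟩ := h2
      simp only [zsmul_eq_mul] at hp hq
      by_cases hpq : (q, -p) = ((0, 0) : ℤ × ℤ)
      · have hp0 : p = 0 := by
          have := congrArg Prod.snd hpq
          simpa using this
        have h3 := key 1 0 (by simp)
        apply h3
        rw [← hp, hp0]
        simp
      · apply key q (-p) hpq
        rw [← hp, ← hq]
        push_cast
        ring
  obtain ⟨x, hx, hx'⟩ := hd.exists_between hab
  obtain ⟨n, m, hnm⟩ := AddSubgroup.mem_closure_pair.mp hx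
  refine ⟨Finsupp.single k0 n + Finsupp.single k1 m, ?_, ?_⟩
  · intro k hk
    have hk' : k ∈ (Finsupp.single k0 n + Finsupp.single k1 m : K →₀ ℤ).support := hk
    have := Finsupp.support_add hk'
    rw [Finset.mem_union] at this
    rcases this with h1 | h1
    · have := Finsupp.support_single_subset h1
      rw [Finset.mem_singleton] at this
      rw [this]; exact hk0
    · have := Finsupp.support_single_subset h1
      rw [Finset.mem_singleton] at this
      rw [this]; exact hk1
  · rw [ev_pair]
    simp only [zsmul_eq_mul] at hnm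
    rw [← hu, ← hv, hnm]
    exact ⟨hx'.1, hx'.2⟩

end Pool.Agent.LibPlas90
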