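import Pool.Agent.LibPlas90.ProdUpd

/-!
The coordinates are generic.
-/

namespace Pool.Agent.LibPlas90

open MeasureTheory

variable {K M : Type}

private theorem lam_ae_ne (s₀ : ℝ) : ∀ᵐ s ∂lam, s ≠ s₀ := by
  have h : lam {s₀} = 0 := by
    refine le_antisymm ?_ zero_le
    calc lam {s₀} ≤ volume {s₀} := Measure.restrict_le_self _
      _ = 0 := by simp
  rw [ae_iff]
  simpa using h

-- PLAS-17
theorem ev_ne {c d : K →₀ ℤ} (h : c ≠ d) : ∀ᵐ ω ∂(mu K M), ev c ω ≠ ev d ω := by
  classical
  obtain ⟨k, hk⟩ : ∃ k, c k ≠ d k := by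
    by_contra hcon
    push Not at hcon
    exact h (Finsupp.ext hcon)
  apply ae_of_update (Sum.inl k)
  · exact (measurableSet_eq_fun (measurable_ev c) (measurable_ev d)).compl
  · refine Filter.Eventually.of_forall fun ω => ?_
    have hk' : ((c k : ℝ) - d k) ≠ 0 := by
      rw [sub_ne_zero]
      exact_mod_cast hk
    filter_upwards [lam_ae_ne (ω (Sum.inl k) + (ev d ω - ev c ω) / ((c k : ℝ) - d k))] with s hs he
    apply hs
    rw [ev_update, ev_update] at he
    field_simp
    linear_combination he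

theorem coord_ne {i j : K ⊕ M} (h : i ≠ j) : ∀ᵐ ω ∂(mu K M), ω i ≠ ω j := by
  classical
  apply ae_of_update j
  · exact (measurableSet_eq_fun (measurable_pi_apply i) (measurable_pi_apply j)).compl
  · refine Filter.Eventually.of_forall fun ω => ?_
    filter_upwards [lam_ae_ne (ω i)] with s hs
    rw [Function.update_of_ne h, Function.update_self]
    exact hs.symm

theorem coord_mem (j : K ⊕ M) : ∀ᵐ ω ∂(mu K M), ω j ∈ Set.Ioo (0 : ℝ) 1 := by
  classical
  apply ae_of_update j
  · exact measurable_pi_apply j measurableSet_Ioo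
  · refine Filter.Eventually.of_forall fun ω => ?_
    have h1 : ∀ᵐ s ∂lam, s ∈ Set.Icc (0 : ℝ) 1 := ae_restrict_mem measurableSet_Icc
    filter_upwards [lam_ae_ne 0, lam_ae_ne 1, h1] with s h0 h2 h3
    rw [Function.update_self]
    exact ⟨lt_of_le_of_ne h3.1 (Ne.symm h0), lt_of_le_of_ne h3.2 h2⟩

end Pool.Agent.LibPlas90
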