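import Pool.Agent.LibPlas90.Prod

/-!
Resampling of one coordinate.
-/

namespace Pool.Agent.LibPlas90

open MeasureTheory

variable {K M : Type}

-- PLAS-15
theorem mp_update [DecidableEq (K ⊕ M)] (j : K ⊕ M) :
    MeasurePreserving (fun p : Om K M × ℝ => Function.update p.1 j p.2)
      ((mu K M).prod lam) (mu K M) := by
  have hmeas : Measurable (fun p : Om K M × ℝ => Function.update p.1 j p.2) :=
    measurable_update' (X := fun _ : K ⊕ M => ℝ)
  refine ⟨hmeas, ?_⟩
  unfold mu
  apply Measure.eq_infinitePi
  intro s t ht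
  rw [Measure.map_apply hmeas (MeasurableSet.pi s.countable_toSet fun i _ => ht i)]
  by_cases hj : j ∈ s
  · have hpre : (fun p : Om K M × ℝ => Function.update p.1 j p.2) ⁻¹' (Set.pi (s : Set (K ⊕ M)) t) =
        (Set.pi ((s.erase j : Finset (K ⊕ M)) : Set (K ⊕ M)) t) ×ˢ (t j) := by
      ext p
      simp only [Set.mem_preimage, Set.mem_pi, Finset.mem_coe, Set.mem_prod, Finset.mem_erase]
      constructor
      · intro h
        refine ⟨fun i hi => ?_, ?_⟩
        · have := h i hi.2
          rwa [Function.update_of_ne hi.1] at this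
        · have := h j hj
          rwa [Function.update_self] at this
      · intro h i hi
        by_cases hij : i = j
        · subst hij
          rw [Function.update_self]
          exact h.2
        · rw [Function.update_of_ne hij]
          exact h.1 i ⟨hij, hi⟩
    rw [hpre, Measure.prod_prod, Measure.infinitePi_pi _ (fun i _ => ht i), mul_comm]
    exact Finset.mul_prod_erase s (fun i => lam (t i)) hj
  · have hpre : (fun p : Om K M × ℝ => Function.update p.1 j p.2) ⁻¹' (Set.pi (s : Set (K ⊕ M)) t) =
        (Set.pi (s : Set (K ⊕ M)) t) ×ˢ Set.univ := by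
      ext p
      simp only [Set.mem_preimage, Set.mem_pi, Finset.mem_coe, Set.mem_prod, Set.mem_univ, and_true]
      constructor
      · intro h i hi
        have hij : i ≠ j := fun e => hj (e ▸ hi)
        have := h i hi
        rwa [Function.update_of_ne hij] at this
      · intro h i hi
        have hij : i ≠ j := fun e => hj (e ▸ hi)
        rw [Function.update_of_ne hij]
        exact h i hi
    rw [hpre, Measure.prod_prod, Measure.infinitePi_pi _ (fun i _ => ht i), measure_univ, mul_one]

theorem ae_update [DecidableEq (K ⊕ M)] (j : K ⊕ M) {p : Om K M → Prop}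
    (h : ∀ᵐ ω ∂(mu K M), p ω) :
    ∀ᵐ ω ∂(mu K M), ∀ᵐ s ∂lam, p (Function.update ω j s) := by
  have h1 : ∀ᵐ z ∂((mu K M).prod lam), p (Function.update z.1 j z.2) :=
    (mp_update (K := K) (M := M) j).quasiMeasurePreserving.ae h
  exact Measure.ae_ae_of_ae_prod h1

theorem ae_of_update [DecidableEq (K ⊕ M)] (j : K ⊕ M) {p : Om K M → Prop}
    (hp : MeasurableSet {ω | p ω})
    (h : ∀ᵐ ω ∂(mu K M), ∀ᵐ s ∂lam, p (Function.update ω j s)) :
    ∀ᵐ ω ∂(mu K M), p ω := by
  have hmp := mp_update (K := K) (M := M) j
  have h1 : ∀ᵐ z ∂((mu K M).prod lam), p (Function.update z.1 j z.2) := by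
    rw [Measure.ae_prod_iff_ae_ae]
    · exact h
    · exact hmp.measurable hp
  rw [← hmp.map_eq]
  rw [ae_map_iff hmp.measurable.aemeasurable hp]
  exact h1

end Pool.Agent.LibPlas90
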