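import Pool.Agent.LibPlas90.RealRel
import Pool.Agent.LibPlas90.MeasCcc

/-!
The random variables form the real line of the Boolean-valued universe.
-/

namespace Pool.Agent.LibPlas90

open MeasureTheory BSet

variable {Ω : Type} [MeasurableSpace Ω] {μ : Measure Ω} [IsProbabilityMeasure μ] (A : MeasAlg μ)

/-- The supremum selected by a sequence of sets. -/
private noncomputable def selSup (T : ℚ → Set Ω) (N : Set Ω) (ω : Ω) : ℝ :=
  open Classical in if ω ∈ N then sSup {x : ℝ | ∃ q : ℚ, ω ∈ T q ∧ (q : ℝ) = x} else 0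

omit [IsProbabilityMeasure μ] in
private theorem selSup_meas {T : ℚ → Set Ω} (hT : ∀ q, MeasurableSet (T q)) {N : Set Ω} (hN : MeasurableSet N)
    (h1 : ∀ ω ∈ N, ∃ q, ω ∈ T q) (h2 : ∀ ω ∈ N, ∃ M : ℝ, ∀ q, ω ∈ T q → (q : ℝ) ≤ M) :
    Measurable (selSup T N) := by
  apply measurable_of_Ioi
  intro a
  have e : selSup T N ⁻¹' Set.Ioi a = (N ∩ ⋃ q : {q : ℚ // a < (q : ℝ)}, T q.1) ∪ (Nᶜ ∩ {_ω | a < 0}) := by
    ext ω
    simp only [Set.mem_preimage, Set.mem_Ioi, Set.mem_union, Set.mem_inter_iff, Set.mem_iUnion,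
      Set.mem_compl_iff, Set.mem_ofPred_eq]
    by_cases hω : ω ∈ N
    · have es : selSup T N ω = sSup {x : ℝ | ∃ q : ℚ, ω ∈ T q ∧ (q : ℝ) = x} := by
        unfold selSup; rw [if_pos hω]
      simp only [es, hω, true_and, not_true, false_and, or_false]
      obtain ⟨q0, hq0⟩ := h1 ω hω
      obtain ⟨M, hM⟩ := h2 ω hω
      have hne : {x : ℝ | ∃ q : ℚ, ω ∈ T q ∧ (q : ℝ) = x}.Nonempty := ⟨_, q0, hq0, rfl⟩
      have hbdd : BddAbove {x : ℝ | ∃ q : ℚ, ω ∈ T q ∧ (q : ℝ) = x} := ⟨M, by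
        rintro x ⟨q, hq, rfl⟩; exact hM q hq⟩
      rw [lt_csSup_iff hbdd hne]
      constructor
      · rintro ⟨x, ⟨q, hq, rfl⟩, hx⟩
        exact ⟨⟨q, hx⟩, hq⟩
      · rintro ⟨⟨q, hx⟩, hq⟩
        exact ⟨_, ⟨q, hq, rfl⟩, hx⟩
    · have es : selSup T N ω = 0 := by
        unfold selSup; rw [if_neg hω]
      simp only [es, hω, false_and, false_or, not_false_eq_true, true_and]
  rw [e]
  have m1 : MeasurableSet (⋃ q : {q : ℚ // a < (q : ℝ)}, T q.1) := MeasurableSet.iUnion fun q => hT q.1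
  exact (hN.inter m1).union (hN.compl.inter (MeasurableSet.const _))

-- PLAS-9
theorem isComplete_top : isComplete (RR A) (LL A) = ⊤ := by
  refine top_le_iff.1 ?_
  unfold isComplete
  refine le_iInf fun S => ?_
  rw [le_himp_iff, top_inf_eq]
  -- upper bounds
  have hUB : ∀ Y : RV Ω, (all (RR A) fun x => mem x S ⇨ (rel (LL A) (toB A Y) x)ᶜ) =
      ⨅ X : RV Ω, mem (toB A X) S ⇨ A.cls {ω | X.1 ω ≤ Y.1 ω} := by
    intro Y
    rw [all_RR A (Ext.himp (Ext.mem_left _) (Ext.compl (Ext.rel2 _ _)))]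
    refine iInf_congr fun X => ?_
    rw [rel_LL, ← A.cls_compl (measurableSet_lt Y.2 X.2)]
    congr 2
    ext ω
    simp [not_lt]
  have hExtUB : Ext (fun a => all (RR A) fun x => mem x S ⇨ (rel (LL A) a x)ᶜ) :=
    Ext.all fun x => Ext.himp (Ext.const _) (Ext.compl (Ext.rel1 _ _))
  rw [ex_RR A (Ext.mem_left _), ex_RR A hExtUB]
  simp_rw [hUB]
  set σ : RV Ω → A.B := fun X => mem (toB A X) S with hσ
  have hT : ∀ q : ℚ, ∃ T : Set Ω, MeasurableSet T ∧ A.cls T = ⨆ X : RV Ω, σ X ⊓ A.cls {ω | (q : ℝ) < X.1 ω} :=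
    fun q => A.surj _
  choose T hTm hTc using hT
  have mlt : ∀ (q : ℚ) (X : RV Ω), MeasurableSet {ω | (q : ℝ) < X.1 ω} := fun q X => measurableSet_lt measurable_const X.2
  set N1 : Set Ω := ⋃ q, T q with hN1
  have hN1m : MeasurableSet N1 := MeasurableSet.iUnion hTm
  set N2 : Set Ω := ⋃ M : ℕ, ⋂ q : ℚ, ((T q)ᶜ ∪ {_ω | (q : ℝ) ≤ M}) with hN2
  have hN2m : MeasurableSet N2 := MeasurableSet.iUnion fun M => MeasurableSet.iInter fun q =>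
    (hTm q).compl.union (MeasurableSet.const _)
  have hNm : MeasurableSet (N1 ∩ N2) := hN1m.inter hN2m
  have p1 : ∀ ω ∈ N1 ∩ N2, ∃ q, ω ∈ T q := fun ω hω => Set.mem_iUnion.1 hω.1
  have p2 : ∀ ω ∈ N1 ∩ N2, ∃ M : ℝ, ∀ q, ω ∈ T q → (q : ℝ) ≤ M := by
    intro ω hω
    obtain ⟨M, hM⟩ := Set.mem_iUnion.1 hω.2
    refine ⟨M, fun q hq => ?_⟩
    rcases Set.mem_iInter.1 hM q with h | h
    · exact absurd hq h
    · exact h
  let s : RV Ω := ⟨selSup T (N1 ∩ N2), selSup_meas hTm hNm p1 p2⟩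
  -- first condition
  have c1 : (⨆ X : RV Ω, σ X) ≤ A.cls N1 := by
    refine iSup_le fun X => ?_
    rw [hN1, A.cls_iUnion hTm]
    have : A.cls (⋃ q : ℚ, {ω | (q : ℝ) < X.1 ω}) = ⊤ := by
      rw [A.cls_eq_top (MeasurableSet.iUnion fun q => mlt q X)]
      refine Filter.Eventually.of_forall fun ω => ?_
      obtain ⟨q, hq⟩ := exists_rat_lt (X.1 ω)
      exact Set.mem_iUnion.2 ⟨q, hq⟩
    rw [← inf_top_eq (σ X), ← this, A.cls_iUnion (fun q => mlt q X), inf_iSup_eq]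
    refine iSup_mono fun q => ?_
    rw [hTc q]
    exact le_iSup (fun X => σ X ⊓ A.cls {ω | (q : ℝ) < X.1 ω}) X
  have cT : ∀ (Y : RV Ω) (q : ℚ), (⨅ X : RV Ω, σ X ⇨ A.cls {ω | X.1 ω ≤ Y.1 ω}) ⊓ A.cls (T q) ≤
      A.cls {ω | (q : ℝ) < Y.1 ω} := by
    intro Y q
    rw [hTc q, inf_iSup_eq]
    refine iSup_le fun X => ?_
    have mle : MeasurableSet {ω | X.1 ω ≤ Y.1 ω} := measurableSet_le X.2 Y.2
    have g1 : (⨅ X : RV Ω, σ X ⇨ A.cls {ω | X.1 ω ≤ Y.1 ω}) ⊓ σ X ≤ A.cls {ω | X.1 ω ≤ Y.1 ω} := by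
      rw [← le_himp_iff]
      exact iInf_le _ X
    have g2 : (⨅ X : RV Ω, σ X ⇨ A.cls {ω | X.1 ω ≤ Y.1 ω}) ⊓ (σ X ⊓ A.cls {ω | (q : ℝ) < X.1 ω}) ≤
        A.cls {ω | X.1 ω ≤ Y.1 ω} ⊓ A.cls {ω | (q : ℝ) < X.1 ω} := by
      rw [← inf_assoc]
      exact inf_le_inf_right _ g1
    refine g2.trans ?_
    rw [← A.cls_inter mle (mlt q X), A.cls_le (mle.inter (mlt q X)) (mlt q Y)]
    refine Filter.Eventually.of_forall fun ω hω => ?_
    have h1 : X.1 ω ≤ Y.1 ω := hω.1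
    have h2 : (q : ℝ) < X.1 ω := hω.2
    exact lt_of_lt_of_le h2 h1
  have cQ : ∀ (Y : RV Ω), (⨅ X : RV Ω, σ X ⇨ A.cls {ω | X.1 ω ≤ Y.1 ω}) ≤
      A.cls (⋂ q : ℚ, ((T q)ᶜ ∪ {ω | (q : ℝ) < Y.1 ω})) := by
    intro Y
    rw [A.cls_iInter (fun q => (hTm q).compl.union (mlt q Y))]
    refine le_iInf fun q => ?_
    rw [← A.cls_himp (hTm q) (mlt q Y), le_himp_iff]
    exact cT Y q
  have mQ : ∀ Y : RV Ω, MeasurableSet (⋂ q : ℚ, ((T q)ᶜ ∪ {ω | (q : ℝ) < Y.1 ω})) := fun Y =>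
    MeasurableSet.iInter fun q => (hTm q).compl.union (mlt q Y)
  have c2 : (⨆ Y : RV Ω, ⨅ X : RV Ω, σ X ⇨ A.cls {ω | X.1 ω ≤ Y.1 ω}) ≤ A.cls N2 := by
    refine iSup_le fun Y => (cQ Y).trans ?_
    rw [A.cls_le (mQ Y) hN2m]
    refine Filter.Eventually.of_forall fun ω hω => ?_
    obtain ⟨M, hM⟩ := exists_nat_gt (Y.1 ω)
    refine Set.mem_iUnion.2 ⟨M, Set.mem_iInter.2 fun q => ?_⟩
    rcases Set.mem_iInter.1 hω q with h | h
    · exact Or.inl h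
    · exact Or.inr (le_of_lt (lt_trans h hM))
  have cb : (⨆ X : RV Ω, σ X) ⊓ (⨆ Y : RV Ω, ⨅ X : RV Ω, σ X ⇨ A.cls {ω | X.1 ω ≤ Y.1 ω}) ≤ A.cls (N1 ∩ N2) := by
    rw [A.cls_inter hN1m hN2m]
    exact inf_le_inf c1 c2
  refine cb.trans ?_
  -- the least upper bound
  have hset : ∀ ω ∈ N1 ∩ N2, s.1 ω = sSup {x : ℝ | ∃ q : ℚ, ω ∈ T q ∧ (q : ℝ) = x} := by
    intro ω hω
    change selSup T (N1 ∩ N2) ω = _
    unfold selSup
    rw [if_pos hω]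
  have hne : ∀ ω ∈ N1 ∩ N2, {x : ℝ | ∃ q : ℚ, ω ∈ T q ∧ (q : ℝ) = x}.Nonempty := by
    intro ω hω
    obtain ⟨q, hq⟩ := p1 ω hω
    exact ⟨_, q, hq, rfl⟩
  have hbdd : ∀ ω ∈ N1 ∩ N2, BddAbove {x : ℝ | ∃ q : ℚ, ω ∈ T q ∧ (q : ℝ) = x} := by
    intro ω hω
    obtain ⟨M, hM⟩ := p2 ω hω
    exact ⟨M, by rintro x ⟨q, hq, rfl⟩; exact hM q hq⟩
  have mem1 : mem (toB A s) (RR A) = ⊤ := by
    refine top_le_iff.1 ?_
    unfold RR mem
    refine le_iSup_of_le s ?_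
    rw [eq_refl, inf_top_eq]
  unfold ex
  refine le_iSup_of_le (toB A s) ?_
  rw [mem1, top_inf_eq]
  refine le_inf ?_ ?_
  · rw [hUB]
    refine le_iInf fun X => ?_
    rw [le_himp_iff]
    have mle : MeasurableSet {ω | X.1 ω ≤ s.1 ω} := measurableSet_le X.2 s.2
    have mR : MeasurableSet (⋂ q : ℚ, ({ω | (q : ℝ) < X.1 ω}ᶜ ∪ T q)) :=
      MeasurableSet.iInter fun q => (mlt q X).compl.union (hTm q)
    have g1 : σ X ≤ A.cls (⋂ q : ℚ, ({ω | (q : ℝ) < X.1 ω}ᶜ ∪ T q)) := by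
      rw [A.cls_iInter (fun q => (mlt q X).compl.union (hTm q))]
      refine le_iInf fun q => ?_
      rw [← A.cls_himp (mlt q X) (hTm q), le_himp_iff, hTc q]
      exact le_iSup (fun X => σ X ⊓ A.cls {ω | (q : ℝ) < X.1 ω}) X
    refine (inf_le_inf_left _ g1).trans ?_
    rw [← A.cls_inter hNm mR, A.cls_le (hNm.inter mR) mle]
    refine Filter.Eventually.of_forall fun ω hω => ?_
    change X.1 ω ≤ s.1 ω
    rw [hset ω hω.1]
    refine le_of_forall_rat_lt_imp_le fun q hq => ?_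
    refine le_csSup (hbdd ω hω.1) ⟨q, ?_, rfl⟩
    rcases Set.mem_iInter.1 hω.2 q with h | h
    · exact absurd hq h
    · exact h
  · have hE2 : Ext (fun a => (all (RR A) fun x => mem x S ⇨ (rel (LL A) a x)ᶜ) ⇨ (rel (LL A) a (toB A s))ᶜ) :=
      Ext.himp hExtUB (Ext.compl (Ext.rel1 _ _))
    rw [all_RR A hE2]
    refine le_iInf fun Y => ?_
    rw [hUB, le_himp_iff, rel_LL, ← A.cls_compl (measurableSet_lt Y.2 s.2)]
    refine (inf_le_inf_left _ (cQ Y)).trans ?_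
    rw [← A.cls_inter hNm (mQ Y), A.cls_le (hNm.inter (mQ Y)) (measurableSet_lt Y.2 s.2).compl]
    refine Filter.Eventually.of_forall fun ω hω => ?_
    change ¬ (Y.1 ω < s.1 ω)
    rw [not_lt, hset ω hω.1]
    refine csSup_le (hne ω hω.1) ?_
    rintro x ⟨q, hq, rfl⟩
    rcases Set.mem_iInter.1 hω.2 q with h | h
    · exact absurd hq h
    · exact le_of_lt h

end Pool.Agent.LibPlas90
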