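import Pool.Agent.LibPlas90.RealRel
import Pool.Agent.LibPlas90.MeasCcc

/-!
The random variables form the real line of the Boolean-valued universe.
-/

namespace Pool.Agent.LibPlas90

open MeasureTheory BSet

set_option linter.unusedSectionVars false

variable {Ω : Type} [MeasurableSpace Ω] {μ : Measure Ω} [IsProbabilityMeasure μ] (A : MeasAlg μ)

theorem all_RR_top {φ : BSet A.B → A.B} (h : Ext φ) (h' : ∀ X : RV Ω, φ (toB A X) = ⊤) :
    all (RR A) φ = ⊤ := by
  rw [all_RR A h]
  exact iInf_eq_top.mpr h'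

theorem ex_RR_top {φ : BSet A.B → A.B} (h : Ext φ) (X : RV Ω) (h' : φ (toB A X) = ⊤) :
    ex (RR A) φ = ⊤ := by
  rw [ex_RR A h]
  exact top_le_iff.mp (le_iSup_of_le X h'.ge)

theorem all_GG_top {I : Type} {E : I → RV Ω} {φ : BSet A.B → A.B} (h : Ext φ)
    (h' : ∀ c : I, φ (toB A (E c)) = ⊤) : all (GG A E) φ = ⊤ := by
  rw [all_GG A E h]
  exact iInf_eq_top.mpr h'

theorem ex_GG_top {I : Type} {E : I → RV Ω} {φ : BSet A.B → A.B} (h : Ext φ) (c : I)
    (h' : φ (toB A (E c)) = ⊤) : ex (GG A E) φ = ⊤ := by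
  rw [ex_GG A E h]
  exact top_le_iff.mp (le_iSup_of_le c h'.ge)

-- PLAS-7
theorem isGroup_top : isGroup (RR A) (PP A) = ⊤ := by
  unfold isGroup
  have c1 : (ex (RR A) fun _ => ⊤) = ⊤ :=
    ex_RR_top A (by
      repeat' with_reducible (first
        | exact Ext.const _ | exact Ext.rel1 _ _ | exact Ext.rel2 _ _ | exact Ext.rel12 _
        | exact Ext.rel3_1 _ _ _ | exact Ext.rel3_2 _ _ _ | exact Ext.rel3_3 _ _ _
        | exact Ext.mem_left _ | exact Ext.mem_right _ | exact Ext.eq_left _
        | exact Ext.eq_right _ | (refine Ext.inf ?_ ?_) | (refine Ext.sup ?_ ?_)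
        | (refine Ext.himp ?_ ?_) | (refine Ext.compl ?_) | (refine Ext.all fun _ => ?_)
        | (refine Ext.ex fun _ => ?_) | (refine Ext.iInf fun _ => ?_)
        | (refine Ext.iSup fun _ => ?_))) ⟨fun _ => 0, measurable_const⟩ rfl
  have c2 : (all (RR A) fun x => all (RR A) fun y => ex (RR A) fun z => rel3 (PP A) x y z) = ⊤ := by
    refine all_RR_top A (by
      repeat' with_reducible (first
        | exact Ext.const _ | exact Ext.rel1 _ _ | exact Ext.rel2 _ _ | exact Ext.rel12 _
        | exact Ext.rel3_1 _ _ _ | exact Ext.rel3_2 _ _ _ | exact Ext.rel3_3 _ _ _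
        | exact Ext.mem_left _ | exact Ext.mem_right _ | exact Ext.eq_left _
        | exact Ext.eq_right _ | (refine Ext.inf ?_ ?_) | (refine Ext.sup ?_ ?_)
        | (refine Ext.himp ?_ ?_) | (refine Ext.compl ?_) | (refine Ext.all fun _ => ?_)
        | (refine Ext.ex fun _ => ?_) | (refine Ext.iInf fun _ => ?_)
        | (refine Ext.iSup fun _ => ?_))) fun X => all_RR_top A (by
      repeat' with_reducible (first
        | exact Ext.const _ | exact Ext.rel1 _ _ | exact Ext.rel2 _ _ | exact Ext.rel12 _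
        | exact Ext.rel3_1 _ _ _ | exact Ext.rel3_2 _ _ _ | exact Ext.rel3_3 _ _ _
        | exact Ext.mem_left _ | exact Ext.mem_right _ | exact Ext.eq_left _
        | exact Ext.eq_right _ | (refine Ext.inf ?_ ?_) | (refine Ext.sup ?_ ?_)
        | (refine Ext.himp ?_ ?_) | (refine Ext.compl ?_) | (refine Ext.all fun _ => ?_)
        | (refine Ext.ex fun _ => ?_) | (refine Ext.iInf fun _ => ?_)
        | (refine Ext.iSup fun _ => ?_))) fun Y =>
      ex_RR_top A (by
      repeat' with_reducible (first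
        | exact Ext.const _ | exact Ext.rel1 _ _ | exact Ext.rel2 _ _ | exact Ext.rel12 _
        | exact Ext.rel3_1 _ _ _ | exact Ext.rel3_2 _ _ _ | exact Ext.rel3_3 _ _ _
        | exact Ext.mem_left _ | exact Ext.mem_right _ | exact Ext.eq_left _
        | exact Ext.eq_right _ | (refine Ext.inf ?_ ?_) | (refine Ext.sup ?_ ?_)
        | (refine Ext.himp ?_ ?_) | (refine Ext.compl ?_) | (refine Ext.all fun _ => ?_)
        | (refine Ext.ex fun _ => ?_) | (refine Ext.iInf fun _ => ?_)
        | (refine Ext.iSup fun _ => ?_))) ⟨fun ω => X.1 ω + Y.1 ω, X.2.add Y.2⟩ ?_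
    rw [rel3_PP]
    simp [A.cls_univ]
  have c3 : (all (RR A) fun x => all (RR A) fun y => all (RR A) fun z => all (RR A) fun w =>
    rel3 (PP A) x y z ⊓ rel3 (PP A) x y w ⇨ BSet.eq z w) = ⊤ := by
    refine all_RR_top A (by
      repeat' with_reducible (first
        | exact Ext.const _ | exact Ext.rel1 _ _ | exact Ext.rel2 _ _ | exact Ext.rel12 _
        | exact Ext.rel3_1 _ _ _ | exact Ext.rel3_2 _ _ _ | exact Ext.rel3_3 _ _ _
        | exact Ext.mem_left _ | exact Ext.mem_right _ | exact Ext.eq_left _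
        | exact Ext.eq_right _ | (refine Ext.inf ?_ ?_) | (refine Ext.sup ?_ ?_)
        | (refine Ext.himp ?_ ?_) | (refine Ext.compl ?_) | (refine Ext.all fun _ => ?_)
        | (refine Ext.ex fun _ => ?_) | (refine Ext.iInf fun _ => ?_)
        | (refine Ext.iSup fun _ => ?_))) fun X => all_RR_top A (by
      repeat' with_reducible (first
        | exact Ext.const _ | exact Ext.rel1 _ _ | exact Ext.rel2 _ _ | exact Ext.rel12 _
        | exact Ext.rel3_1 _ _ _ | exact Ext.rel3_2 _ _ _ | exact Ext.rel3_3 _ _ _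
        | exact Ext.mem_left _ | exact Ext.mem_right _ | exact Ext.eq_left _
        | exact Ext.eq_right _ | (refine Ext.inf ?_ ?_) | (refine Ext.sup ?_ ?_)
        | (refine Ext.himp ?_ ?_) | (refine Ext.compl ?_) | (refine Ext.all fun _ => ?_)
        | (refine Ext.ex fun _ => ?_) | (refine Ext.iInf fun _ => ?_)
        | (refine Ext.iSup fun _ => ?_))) fun Y =>
      all_RR_top A (by
      repeat' with_reducible (first
        | exact Ext.const _ | exact Ext.rel1 _ _ | exact Ext.rel2 _ _ | exact Ext.rel12 _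
        | exact Ext.rel3_1 _ _ _ | exact Ext.rel3_2 _ _ _ | exact Ext.rel3_3 _ _ _
        | exact Ext.mem_left _ | exact Ext.mem_right _ | exact Ext.eq_left _
        | exact Ext.eq_right _ | (refine Ext.inf ?_ ?_) | (refine Ext.sup ?_ ?_)
        | (refine Ext.himp ?_ ?_) | (refine Ext.compl ?_) | (refine Ext.all fun _ => ?_)
        | (refine Ext.ex fun _ => ?_) | (refine Ext.iInf fun _ => ?_)
        | (refine Ext.iSup fun _ => ?_))) fun Z => all_RR_top A (by
      repeat' with_reducible (first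
        | exact Ext.const _ | exact Ext.rel1 _ _ | exact Ext.rel2 _ _ | exact Ext.rel12 _
        | exact Ext.rel3_1 _ _ _ | exact Ext.rel3_2 _ _ _ | exact Ext.rel3_3 _ _ _
        | exact Ext.mem_left _ | exact Ext.mem_right _ | exact Ext.eq_left _
        | exact Ext.eq_right _ | (refine Ext.inf ?_ ?_) | (refine Ext.sup ?_ ?_)
        | (refine Ext.himp ?_ ?_) | (refine Ext.compl ?_) | (refine Ext.all fun _ => ?_)
        | (refine Ext.ex fun _ => ?_) | (refine Ext.iInf fun _ => ?_)
        | (refine Ext.iSup fun _ => ?_))) fun W => ?_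
    rw [himp_eq_top_iff, rel3_PP, rel3_PP, eq_toB, ← A.cls_inter (meas_add _ _ _) (meas_add _ _ _)]
    refine A.cls_mono ((meas_add _ _ _).inter (meas_add _ _ _)) (meas_eq _ _) ?_
    rintro ω ⟨h1, h2⟩
    simp only [Set.mem_ofPred_eq] at h1 h2 ⊢
    rw [← h1, ← h2]
  have c4 : (all (RR A) fun x => all (RR A) fun y => all (RR A) fun z =>
      rel3 (PP A) x y z ⇨ rel3 (PP A) y x z) = ⊤ := by
    refine all_RR_top A (by
      repeat' with_reducible (first
        | exact Ext.const _ | exact Ext.rel1 _ _ | exact Ext.rel2 _ _ | exact Ext.rel12 _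
        | exact Ext.rel3_1 _ _ _ | exact Ext.rel3_2 _ _ _ | exact Ext.rel3_3 _ _ _
        | exact Ext.mem_left _ | exact Ext.mem_right _ | exact Ext.eq_left _
        | exact Ext.eq_right _ | (refine Ext.inf ?_ ?_) | (refine Ext.sup ?_ ?_)
        | (refine Ext.himp ?_ ?_) | (refine Ext.compl ?_) | (refine Ext.all fun _ => ?_)
        | (refine Ext.ex fun _ => ?_) | (refine Ext.iInf fun _ => ?_)
        | (refine Ext.iSup fun _ => ?_))) fun X => all_RR_top A (by
      repeat' with_reducible (first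
        | exact Ext.const _ | exact Ext.rel1 _ _ | exact Ext.rel2 _ _ | exact Ext.rel12 _
        | exact Ext.rel3_1 _ _ _ | exact Ext.rel3_2 _ _ _ | exact Ext.rel3_3 _ _ _
        | exact Ext.mem_left _ | exact Ext.mem_right _ | exact Ext.eq_left _
        | exact Ext.eq_right _ | (refine Ext.inf ?_ ?_) | (refine Ext.sup ?_ ?_)
        | (refine Ext.himp ?_ ?_) | (refine Ext.compl ?_) | (refine Ext.all fun _ => ?_)
        | (refine Ext.ex fun _ => ?_) | (refine Ext.iInf fun _ => ?_)
        | (refine Ext.iSup fun _ => ?_))) fun Y =>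
      all_RR_top A (by
      repeat' with_reducible (first
        | exact Ext.const _ | exact Ext.rel1 _ _ | exact Ext.rel2 _ _ | exact Ext.rel12 _
        | exact Ext.rel3_1 _ _ _ | exact Ext.rel3_2 _ _ _ | exact Ext.rel3_3 _ _ _
        | exact Ext.mem_left _ | exact Ext.mem_right _ | exact Ext.eq_left _
        | exact Ext.eq_right _ | (refine Ext.inf ?_ ?_) | (refine Ext.sup ?_ ?_)
        | (refine Ext.himp ?_ ?_) | (refine Ext.compl ?_) | (refine Ext.all fun _ => ?_)
        | (refine Ext.ex fun _ => ?_) | (refine Ext.iInf fun _ => ?_)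
        | (refine Ext.iSup fun _ => ?_))) fun Z => ?_
    rw [himp_eq_top_iff, rel3_PP, rel3_PP]
    refine A.cls_mono (meas_add _ _ _) (meas_add _ _ _) ?_
    intro ω h1
    simp only [Set.mem_ofPred_eq] at h1 ⊢
    rw [← h1, add_comm]
  have c5 : (all (RR A) fun x => all (RR A) fun y => all (RR A) fun z => all (RR A) fun u =>
      all (RR A) fun v => all (RR A) fun w =>
      rel3 (PP A) x y u ⊓ rel3 (PP A) u z v ⊓ rel3 (PP A) y z w ⇨ rel3 (PP A) x w v) = ⊤ := by
    refine all_RR_top A (by
      repeat' with_reducible (first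
        | exact Ext.const _ | exact Ext.rel1 _ _ | exact Ext.rel2 _ _ | exact Ext.rel12 _
        | exact Ext.rel3_1 _ _ _ | exact Ext.rel3_2 _ _ _ | exact Ext.rel3_3 _ _ _
        | exact Ext.mem_left _ | exact Ext.mem_right _ | exact Ext.eq_left _
        | exact Ext.eq_right _ | (refine Ext.inf ?_ ?_) | (refine Ext.sup ?_ ?_)
        | (refine Ext.himp ?_ ?_) | (refine Ext.compl ?_) | (refine Ext.all fun _ => ?_)
        | (refine Ext.ex fun _ => ?_) | (refine Ext.iInf fun _ => ?_)
        | (refine Ext.iSup fun _ => ?_))) fun X => all_RR_top A (by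
      repeat' with_reducible (first
        | exact Ext.const _ | exact Ext.rel1 _ _ | exact Ext.rel2 _ _ | exact Ext.rel12 _
        | exact Ext.rel3_1 _ _ _ | exact Ext.rel3_2 _ _ _ | exact Ext.rel3_3 _ _ _
        | exact Ext.mem_left _ | exact Ext.mem_right _ | exact Ext.eq_left _
        | exact Ext.eq_right _ | (refine Ext.inf ?_ ?_) | (refine Ext.sup ?_ ?_)
        | (refine Ext.himp ?_ ?_) | (refine Ext.compl ?_) | (refine Ext.all fun _ => ?_)
        | (refine Ext.ex fun _ => ?_) | (refine Ext.iInf fun _ => ?_)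
        | (refine Ext.iSup fun _ => ?_))) fun Y =>
      all_RR_top A (by
      repeat' with_reducible (first
        | exact Ext.const _ | exact Ext.rel1 _ _ | exact Ext.rel2 _ _ | exact Ext.rel12 _
        | exact Ext.rel3_1 _ _ _ | exact Ext.rel3_2 _ _ _ | exact Ext.rel3_3 _ _ _
        | exact Ext.mem_left _ | exact Ext.mem_right _ | exact Ext.eq_left _
        | exact Ext.eq_right _ | (refine Ext.inf ?_ ?_) | (refine Ext.sup ?_ ?_)
        | (refine Ext.himp ?_ ?_) | (refine Ext.compl ?_) | (refine Ext.all fun _ => ?_)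
        | (refine Ext.ex fun _ => ?_) | (refine Ext.iInf fun _ => ?_)
        | (refine Ext.iSup fun _ => ?_))) fun Z => all_RR_top A (by
      repeat' with_reducible (first
        | exact Ext.const _ | exact Ext.rel1 _ _ | exact Ext.rel2 _ _ | exact Ext.rel12 _
        | exact Ext.rel3_1 _ _ _ | exact Ext.rel3_2 _ _ _ | exact Ext.rel3_3 _ _ _
        | exact Ext.mem_left _ | exact Ext.mem_right _ | exact Ext.eq_left _
        | exact Ext.eq_right _ | (refine Ext.inf ?_ ?_) | (refine Ext.sup ?_ ?_)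
        | (refine Ext.himp ?_ ?_) | (refine Ext.compl ?_) | (refine Ext.all fun _ => ?_)
        | (refine Ext.ex fun _ => ?_) | (refine Ext.iInf fun _ => ?_)
        | (refine Ext.iSup fun _ => ?_))) fun U =>
      all_RR_top A (by
      repeat' with_reducible (first
        | exact Ext.const _ | exact Ext.rel1 _ _ | exact Ext.rel2 _ _ | exact Ext.rel12 _
        | exact Ext.rel3_1 _ _ _ | exact Ext.rel3_2 _ _ _ | exact Ext.rel3_3 _ _ _
        | exact Ext.mem_left _ | exact Ext.mem_right _ | exact Ext.eq_left _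
        | exact Ext.eq_right _ | (refine Ext.inf ?_ ?_) | (refine Ext.sup ?_ ?_)
        | (refine Ext.himp ?_ ?_) | (refine Ext.compl ?_) | (refine Ext.all fun _ => ?_)
        | (refine Ext.ex fun _ => ?_) | (refine Ext.iInf fun _ => ?_)
        | (refine Ext.iSup fun _ => ?_))) fun V => all_RR_top A (by
      repeat' with_reducible (first
        | exact Ext.const _ | exact Ext.rel1 _ _ | exact Ext.rel2 _ _ | exact Ext.rel12 _
        | exact Ext.rel3_1 _ _ _ | exact Ext.rel3_2 _ _ _ | exact Ext.rel3_3 _ _ _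
        | exact Ext.mem_left _ | exact Ext.mem_right _ | exact Ext.eq_left _
        | exact Ext.eq_right _ | (refine Ext.inf ?_ ?_) | (refine Ext.sup ?_ ?_)
        | (refine Ext.himp ?_ ?_) | (refine Ext.compl ?_) | (refine Ext.all fun _ => ?_)
        | (refine Ext.ex fun _ => ?_) | (refine Ext.iInf fun _ => ?_)
        | (refine Ext.iSup fun _ => ?_))) fun W => ?_
    rw [himp_eq_top_iff, rel3_PP, rel3_PP, rel3_PP, rel3_PP,
      ← A.cls_inter (meas_add _ _ _) (meas_add _ _ _),
      ← A.cls_inter ((meas_add _ _ _).inter (meas_add _ _ _)) (meas_add _ _ _)]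
    refine A.cls_mono (((meas_add _ _ _).inter (meas_add _ _ _)).inter (meas_add _ _ _))
      (meas_add _ _ _) ?_
    rintro ω ⟨⟨h1, h2⟩, h3⟩
    simp only [Set.mem_ofPred_eq] at h1 h2 h3 ⊢
    rw [← h2, ← h1, ← h3, add_assoc]
  have c6 : (all (RR A) fun x => all (RR A) fun y => ex (RR A) fun z => rel3 (PP A) x z y) = ⊤ := by
    refine all_RR_top A (by
      repeat' with_reducible (first
        | exact Ext.const _ | exact Ext.rel1 _ _ | exact Ext.rel2 _ _ | exact Ext.rel12 _
        | exact Ext.rel3_1 _ _ _ | exact Ext.rel3_2 _ _ _ | exact Ext.rel3_3 _ _ _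
        | exact Ext.mem_left _ | exact Ext.mem_right _ | exact Ext.eq_left _
        | exact Ext.eq_right _ | (refine Ext.inf ?_ ?_) | (refine Ext.sup ?_ ?_)
        | (refine Ext.himp ?_ ?_) | (refine Ext.compl ?_) | (refine Ext.all fun _ => ?_)
        | (refine Ext.ex fun _ => ?_) | (refine Ext.iInf fun _ => ?_)
        | (refine Ext.iSup fun _ => ?_))) fun X => all_RR_top A (by
      repeat' with_reducible (first
        | exact Ext.const _ | exact Ext.rel1 _ _ | exact Ext.rel2 _ _ | exact Ext.rel12 _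
        | exact Ext.rel3_1 _ _ _ | exact Ext.rel3_2 _ _ _ | exact Ext.rel3_3 _ _ _
        | exact Ext.mem_left _ | exact Ext.mem_right _ | exact Ext.eq_left _
        | exact Ext.eq_right _ | (refine Ext.inf ?_ ?_) | (refine Ext.sup ?_ ?_)
        | (refine Ext.himp ?_ ?_) | (refine Ext.compl ?_) | (refine Ext.all fun _ => ?_)
        | (refine Ext.ex fun _ => ?_) | (refine Ext.iInf fun _ => ?_)
        | (refine Ext.iSup fun _ => ?_))) fun Y =>
      ex_RR_top A (by
      repeat' with_reducible (first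
        | exact Ext.const _ | exact Ext.rel1 _ _ | exact Ext.rel2 _ _ | exact Ext.rel12 _
        | exact Ext.rel3_1 _ _ _ | exact Ext.rel3_2 _ _ _ | exact Ext.rel3_3 _ _ _
        | exact Ext.mem_left _ | exact Ext.mem_right _ | exact Ext.eq_left _
        | exact Ext.eq_right _ | (refine Ext.inf ?_ ?_) | (refine Ext.sup ?_ ?_)
        | (refine Ext.himp ?_ ?_) | (refine Ext.compl ?_) | (refine Ext.all fun _ => ?_)
        | (refine Ext.ex fun _ => ?_) | (refine Ext.iInf fun _ => ?_)
        | (refine Ext.iSup fun _ => ?_))) ⟨fun ω => Y.1 ω - X.1 ω, Y.2.sub X.2⟩ ?_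
    rw [rel3_PP]
    simp [A.cls_univ]
  rw [c1, c2, c3, c4, c5, c6]
  simp

end Pool.Agent.LibPlas90
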