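import Pool.Agent.LibPlas90.RGroup

/-!
The random variables form the real line of the Boolean-valued universe.
-/

namespace Pool.Agent.LibPlas90

open MeasureTheory BSet

variable {Ω : Type} [MeasurableSpace Ω] {μ : Measure Ω} [IsProbabilityMeasure μ] (A : MeasAlg μ)

-- PLAS-8
theorem isOrder_top : isOrder (RR A) (PP A) (LL A) = ⊤ := by
  unfold isOrder
  have c1 : (all (RR A) fun x => (rel (LL A) x x)ᶜ) = ⊤ := by
    refine all_RR_top A (by
      repeat' with_reducible (first
        | exact Ext.const _ | exact Ext.rel1 _ _ | exact Ext.rel2 _ _ | exact Ext.rel12 _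
        | exact Ext.rel3_1 _ _ _ | exact Ext.rel3_2 _ _ _ | exact Ext.rel3_3 _ _ _
        | exact Ext.mem_left _ | exact Ext.mem_right _ | exact Ext.eq_left _
        | exact Ext.eq_right _ | (refine Ext.inf ?_ ?_) | (refine Ext.sup ?_ ?_)
        | (refine Ext.himp ?_ ?_) | (refine Ext.compl ?_) | (refine Ext.all fun _ => ?_)
        | (refine Ext.ex fun _ => ?_) | (refine Ext.iInf fun _ => ?_)
        | (refine Ext.iSup fun _ => ?_))) fun X => ?_
    rw [rel_LL, ← A.cls_compl (meas_lt _ _)]
    simp [A.cls_univ]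
  have c2 : (all (RR A) fun x => all (RR A) fun y => all (RR A) fun z =>
      rel (LL A) x y ⊓ rel (LL A) y z ⇨ rel (LL A) x z) = ⊤ := by
    refine all_RR_top A (by
      repeat' with_reducible (first
        | exact Ext.const _ | exact Ext.rel1 _ _ | exact Ext.rel2 _ _ | exact Ext.rel12 _
        | exact Ext.rel3_1 _ _ _ | exact Ext.rel3_2 _ _ _ | exact Ext.rel3_3 _ _ _
        | exact Ext.mem_left _ | exact Ext.mem_right _ | exact Ext.eq_left _
        | exact Ext.eq_right _ | (refine Ext.inf ?_ ?_) | (refine Ext.sup ?_ ?_)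
        | (refine Ext.himp ?_ ?_) | (refine Ext.compl ?_) | (refine Ext.all fun _ => ?_)
        | (refine Ext.ex fun _ => ?_) | (refine Ext.iInf fun _ => ?_)
        | (refine Ext.iSup fun _ => ?_))) fun X => all_RR_top A (by
      repeat' with_reducible (first
        | exact Ext.const _ | exact Ext.rel1 _ _ | exact Ext.rel2 _ _ | exact Ext.rel12 _
        | exact Ext.rel3_1 _ _ _ | exact Ext.rel3_2 _ _ _ | exact Ext.rel3_3 _ _ _
        | exact Ext.mem_left _ | exact Ext.mem_right _ | exact Ext.eq_left _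
        | exact Ext.eq_right _ | (refine Ext.inf ?_ ?_) | (refine Ext.sup ?_ ?_)
        | (refine Ext.himp ?_ ?_) | (refine Ext.compl ?_) | (refine Ext.all fun _ => ?_)
        | (refine Ext.ex fun _ => ?_) | (refine Ext.iInf fun _ => ?_)
        | (refine Ext.iSup fun _ => ?_))) fun Y =>
      all_RR_top A (by
      repeat' with_reducible (first
        | exact Ext.const _ | exact Ext.rel1 _ _ | exact Ext.rel2 _ _ | exact Ext.rel12 _
        | exact Ext.rel3_1 _ _ _ | exact Ext.rel3_2 _ _ _ | exact Ext.rel3_3 _ _ _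
        | exact Ext.mem_left _ | exact Ext.mem_right _ | exact Ext.eq_left _
        | exact Ext.eq_right _ | (refine Ext.inf ?_ ?_) | (refine Ext.sup ?_ ?_)
        | (refine Ext.himp ?_ ?_) | (refine Ext.compl ?_) | (refine Ext.all fun _ => ?_)
        | (refine Ext.ex fun _ => ?_) | (refine Ext.iInf fun _ => ?_)
        | (refine Ext.iSup fun _ => ?_))) fun Z => ?_
    rw [himp_eq_top_iff, rel_LL, rel_LL, rel_LL, ← A.cls_inter (meas_lt _ _) (meas_lt _ _)]
    refine A.cls_mono ((meas_lt _ _).inter (meas_lt _ _)) (meas_lt _ _) ?_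
    rintro ω ⟨h1, h2⟩
    simp only [Set.mem_ofPred_eq] at h1 h2 ⊢
    exact lt_trans h1 h2
  have c3 : (all (RR A) fun x => all (RR A) fun y =>
      rel (LL A) x y ⊔ BSet.eq x y ⊔ rel (LL A) y x) = ⊤ := by
    refine all_RR_top A (by
      repeat' with_reducible (first
        | exact Ext.const _ | exact Ext.rel1 _ _ | exact Ext.rel2 _ _ | exact Ext.rel12 _
        | exact Ext.rel3_1 _ _ _ | exact Ext.rel3_2 _ _ _ | exact Ext.rel3_3 _ _ _
        | exact Ext.mem_left _ | exact Ext.mem_right _ | exact Ext.eq_left _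
        | exact Ext.eq_right _ | (refine Ext.inf ?_ ?_) | (refine Ext.sup ?_ ?_)
        | (refine Ext.himp ?_ ?_) | (refine Ext.compl ?_) | (refine Ext.all fun _ => ?_)
        | (refine Ext.ex fun _ => ?_) | (refine Ext.iInf fun _ => ?_)
        | (refine Ext.iSup fun _ => ?_))) fun X => all_RR_top A (by
      repeat' with_reducible (first
        | exact Ext.const _ | exact Ext.rel1 _ _ | exact Ext.rel2 _ _ | exact Ext.rel12 _
        | exact Ext.rel3_1 _ _ _ | exact Ext.rel3_2 _ _ _ | exact Ext.rel3_3 _ _ _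
        | exact Ext.mem_left _ | exact Ext.mem_right _ | exact Ext.eq_left _
        | exact Ext.eq_right _ | (refine Ext.inf ?_ ?_) | (refine Ext.sup ?_ ?_)
        | (refine Ext.himp ?_ ?_) | (refine Ext.compl ?_) | (refine Ext.all fun _ => ?_)
        | (refine Ext.ex fun _ => ?_) | (refine Ext.iInf fun _ => ?_)
        | (refine Ext.iSup fun _ => ?_))) fun Y => ?_
    rw [rel_LL, rel_LL, eq_toB, ← A.cls_union (meas_lt _ _) (meas_eq _ _),
      ← A.cls_union ((meas_lt _ _).union (meas_eq _ _)) (meas_lt _ _), ← A.cls_univ]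
    congr 1
    refine Set.eq_univ_of_forall fun ω => ?_
    rcases lt_trichotomy (X.1 ω) (Y.1 ω) with h | h | h
    · exact Or.inl (Or.inl h)
    · exact Or.inl (Or.inr h)
    · exact Or.inr h
  have c4 : (all (RR A) fun x => all (RR A) fun y => all (RR A) fun z => all (RR A) fun u =>
      all (RR A) fun v =>
      rel (LL A) x y ⊓ rel3 (PP A) x z u ⊓ rel3 (PP A) y z v ⇨ rel (LL A) u v) = ⊤ := by
    refine all_RR_top A (by
      repeat' with_reducible (first
        | exact Ext.const _ | exact Ext.rel1 _ _ | exact Ext.rel2 _ _ | exact Ext.rel12 _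
        | exact Ext.rel3_1 _ _ _ | exact Ext.rel3_2 _ _ _ | exact Ext.rel3_3 _ _ _
        | exact Ext.mem_left _ | exact Ext.mem_right _ | exact Ext.eq_left _
        | exact Ext.eq_right _ | (refine Ext.inf ?_ ?_) | (refine Ext.sup ?_ ?_)
        | (refine Ext.himp ?_ ?_) | (refine Ext.compl ?_) | (refine Ext.all fun _ => ?_)
        | (refine Ext.ex fun _ => ?_) | (refine Ext.iInf fun _ => ?_)
        | (refine Ext.iSup fun _ => ?_))) fun X => all_RR_top A (by
      repeat' with_reducible (first
        | exact Ext.const _ | exact Ext.rel1 _ _ | exact Ext.rel2 _ _ | exact Ext.rel12 _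
        | exact Ext.rel3_1 _ _ _ | exact Ext.rel3_2 _ _ _ | exact Ext.rel3_3 _ _ _
        | exact Ext.mem_left _ | exact Ext.mem_right _ | exact Ext.eq_left _
        | exact Ext.eq_right _ | (refine Ext.inf ?_ ?_) | (refine Ext.sup ?_ ?_)
        | (refine Ext.himp ?_ ?_) | (refine Ext.compl ?_) | (refine Ext.all fun _ => ?_)
        | (refine Ext.ex fun _ => ?_) | (refine Ext.iInf fun _ => ?_)
        | (refine Ext.iSup fun _ => ?_))) fun Y =>
      all_RR_top A (by
      repeat' with_reducible (first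
        | exact Ext.const _ | exact Ext.rel1 _ _ | exact Ext.rel2 _ _ | exact Ext.rel12 _
        | exact Ext.rel3_1 _ _ _ | exact Ext.rel3_2 _ _ _ | exact Ext.rel3_3 _ _ _
        | exact Ext.mem_left _ | exact Ext.mem_right _ | exact Ext.eq_left _
        | exact Ext.eq_right _ | (refine Ext.inf ?_ ?_) | (refine Ext.sup ?_ ?_)
        | (refine Ext.himp ?_ ?_) | (refine Ext.compl ?_) | (refine Ext.all fun _ => ?_)
        | (refine Ext.ex fun _ => ?_) | (refine Ext.iInf fun _ => ?_)
        | (refine Ext.iSup fun _ => ?_))) fun Z => all_RR_top A (by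
      repeat' with_reducible (first
        | exact Ext.const _ | exact Ext.rel1 _ _ | exact Ext.rel2 _ _ | exact Ext.rel12 _
        | exact Ext.rel3_1 _ _ _ | exact Ext.rel3_2 _ _ _ | exact Ext.rel3_3 _ _ _
        | exact Ext.mem_left _ | exact Ext.mem_right _ | exact Ext.eq_left _
        | exact Ext.eq_right _ | (refine Ext.inf ?_ ?_) | (refine Ext.sup ?_ ?_)
        | (refine Ext.himp ?_ ?_) | (refine Ext.compl ?_) | (refine Ext.all fun _ => ?_)
        | (refine Ext.ex fun _ => ?_) | (refine Ext.iInf fun _ => ?_)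
        | (refine Ext.iSup fun _ => ?_))) fun U =>
      all_RR_top A (by
      repeat' with_reducible (first
        | exact Ext.const _ | exact Ext.rel1 _ _ | exact Ext.rel2 _ _ | exact Ext.rel12 _
        | exact Ext.rel3_1 _ _ _ | exact Ext.rel3_2 _ _ _ | exact Ext.rel3_3 _ _ _
        | exact Ext.mem_left _ | exact Ext.mem_right _ | exact Ext.eq_left _
        | exact Ext.eq_right _ | (refine Ext.inf ?_ ?_) | (refine Ext.sup ?_ ?_)
        | (refine Ext.himp ?_ ?_) | (refine Ext.compl ?_) | (refine Ext.all fun _ => ?_)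
        | (refine Ext.ex fun _ => ?_) | (refine Ext.iInf fun _ => ?_)
        | (refine Ext.iSup fun _ => ?_))) fun V => ?_
    rw [himp_eq_top_iff, rel_LL, rel_LL, rel3_PP, rel3_PP,
      ← A.cls_inter (meas_lt _ _) (meas_add _ _ _),
      ← A.cls_inter ((meas_lt _ _).inter (meas_add _ _ _)) (meas_add _ _ _)]
    refine A.cls_mono (((meas_lt _ _).inter (meas_add _ _ _)).inter (meas_add _ _ _))
      (meas_lt _ _) ?_
    rintro ω ⟨⟨h1, h2⟩, h3⟩
    simp only [Set.mem_ofPred_eq] at h1 h2 h3 ⊢
    linarith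
  have c5 : (all (RR A) fun x => all (RR A) fun y => rel (LL A) x y ⇨
      ex (RR A) fun z => rel (LL A) x z ⊓ rel (LL A) z y) = ⊤ := by
    refine all_RR_top A (by
      repeat' with_reducible (first
        | exact Ext.const _ | exact Ext.rel1 _ _ | exact Ext.rel2 _ _ | exact Ext.rel12 _
        | exact Ext.rel3_1 _ _ _ | exact Ext.rel3_2 _ _ _ | exact Ext.rel3_3 _ _ _
        | exact Ext.mem_left _ | exact Ext.mem_right _ | exact Ext.eq_left _
        | exact Ext.eq_right _ | (refine Ext.inf ?_ ?_) | (refine Ext.sup ?_ ?_)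
        | (refine Ext.himp ?_ ?_) | (refine Ext.compl ?_) | (refine Ext.all fun _ => ?_)
        | (refine Ext.ex fun _ => ?_) | (refine Ext.iInf fun _ => ?_)
        | (refine Ext.iSup fun _ => ?_))) fun X => all_RR_top A (by
      repeat' with_reducible (first
        | exact Ext.const _ | exact Ext.rel1 _ _ | exact Ext.rel2 _ _ | exact Ext.rel12 _
        | exact Ext.rel3_1 _ _ _ | exact Ext.rel3_2 _ _ _ | exact Ext.rel3_3 _ _ _
        | exact Ext.mem_left _ | exact Ext.mem_right _ | exact Ext.eq_left _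
        | exact Ext.eq_right _ | (refine Ext.inf ?_ ?_) | (refine Ext.sup ?_ ?_)
        | (refine Ext.himp ?_ ?_) | (refine Ext.compl ?_) | (refine Ext.all fun _ => ?_)
        | (refine Ext.ex fun _ => ?_) | (refine Ext.iInf fun _ => ?_)
        | (refine Ext.iSup fun _ => ?_))) fun Y => ?_
    rw [himp_eq_top_iff, ex_RR A (by
      repeat' with_reducible (first
        | exact Ext.const _ | exact Ext.rel1 _ _ | exact Ext.rel2 _ _ | exact Ext.rel12 _
        | exact Ext.rel3_1 _ _ _ | exact Ext.rel3_2 _ _ _ | exact Ext.rel3_3 _ _ _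
        | exact Ext.mem_left _ | exact Ext.mem_right _ | exact Ext.eq_left _
        | exact Ext.eq_right _ | (refine Ext.inf ?_ ?_) | (refine Ext.sup ?_ ?_)
        | (refine Ext.himp ?_ ?_) | (refine Ext.compl ?_) | (refine Ext.all fun _ => ?_)
        | (refine Ext.ex fun _ => ?_) | (refine Ext.iInf fun _ => ?_)
        | (refine Ext.iSup fun _ => ?_)))]
    refine le_iSup_of_le (⟨fun ω => (X.1 ω + Y.1 ω) / 2, (X.2.add Y.2).div_const 2⟩ : RV Ω) ?_
    rw [rel_LL, rel_LL, rel_LL, ← A.cls_inter (meas_lt _ _) (meas_lt _ _)]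
    refine A.cls_mono (meas_lt _ _) ((meas_lt _ _).inter (meas_lt _ _)) ?_
    intro ω h
    simp only [Set.mem_ofPred_eq, Set.mem_inter_iff] at h ⊢
    constructor <;> linarith
  have c6 : (ex (RR A) fun x => ex (RR A) fun y => rel (LL A) x y) = ⊤ := by
    refine ex_RR_top A (by
      repeat' with_reducible (first
        | exact Ext.const _ | exact Ext.rel1 _ _ | exact Ext.rel2 _ _ | exact Ext.rel12 _
        | exact Ext.rel3_1 _ _ _ | exact Ext.rel3_2 _ _ _ | exact Ext.rel3_3 _ _ _
        | exact Ext.mem_left _ | exact Ext.mem_right _ | exact Ext.eq_left _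
        | exact Ext.eq_right _ | (refine Ext.inf ?_ ?_) | (refine Ext.sup ?_ ?_)
        | (refine Ext.himp ?_ ?_) | (refine Ext.compl ?_) | (refine Ext.all fun _ => ?_)
        | (refine Ext.ex fun _ => ?_) | (refine Ext.iInf fun _ => ?_)
        | (refine Ext.iSup fun _ => ?_))) ⟨fun _ => 0, measurable_const⟩
      (ex_RR_top A (by
      repeat' with_reducible (first
        | exact Ext.const _ | exact Ext.rel1 _ _ | exact Ext.rel2 _ _ | exact Ext.rel12 _
        | exact Ext.rel3_1 _ _ _ | exact Ext.rel3_2 _ _ _ | exact Ext.rel3_3 _ _ _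
        | exact Ext.mem_left _ | exact Ext.mem_right _ | exact Ext.eq_left _
        | exact Ext.eq_right _ | (refine Ext.inf ?_ ?_) | (refine Ext.sup ?_ ?_)
        | (refine Ext.himp ?_ ?_) | (refine Ext.compl ?_) | (refine Ext.all fun _ => ?_)
        | (refine Ext.ex fun _ => ?_) | (refine Ext.iInf fun _ => ?_)
        | (refine Ext.iSup fun _ => ?_))) ⟨fun _ => 1, measurable_const⟩ ?_)
    rw [rel_LL]
    simp [A.cls_univ]
  rw [c1, c2, c3, c4, c5, c6]
  simp

end Pool.Agent.LibPlas90
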