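import Pool.Agent.LibPlas90.RGroup
import Pool.Agent.LibPlas90.ROrder
import Pool.Agent.LibPlas90.RComplete

/-!
The random variables form the real line of the Boolean-valued universe.
-/

namespace Pool.Agent.LibPlas90

open MeasureTheory BSet

variable {Ω : Type} [MeasurableSpace Ω] {μ : Measure Ω} [IsProbabilityMeasure μ] (A : MeasAlg μ)

theorem isRealLine_top : isRealLine (RR A) (PP A) (LL A) = ⊤ := by
  rw [isRealLine, isGroup_top, isOrder_top, isComplete_top, inf_top_eq, inf_top_eq]

end Pool.Agent.LibPlas90
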