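import Pool.Agent.LibPlas90.Pairs
import Pool.Agent.LibPlas90.MeasApi

/-!
The real line of the Boolean-valued universe over a measure algebra.
-/

namespace Pool.Agent.LibPlas90

open MeasureTheory BSet

/-- Iterated singletons of the empty set: names for the natural numbers. -/
noncomputable def chk {B : Type} [CompleteBooleanAlgebra B] : ℕ → BSet B
  | 0 => BSet.mk PEmpty (fun t => t.elim) (fun t => t.elim)
  | n + 1 => BSet.mk PUnit (fun _ => chk n) (fun _ => ⊤)

-- PLAS-5
theorem eq_chk {B : Type} [CompleteBooleanAlgebra B] (n m : ℕ) :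
    BSet.eq (chk (B := B) n) (chk m) = if n = m then ⊤ else ⊥ := by
  induction n generalizing m with
  | zero =>
    cases m with
    | zero => simp [BSet.eq_refl]
    | succ m =>
      rw [chk, chk, BSet.eq_mk']
      simp [BSet.mem_mk]
  | succ n ih =>
    cases m with
    | zero =>
      rw [chk, chk, BSet.eq_mk']
      simp [BSet.mem_mk]
    | succ m =>
      rw [chk, chk, BSet.eq_mk']
      simp only [BSet.mem_mk, iInf_const, iSup_const, top_inf_eq, top_himp, ih m,
        BSet.eq_symm (chk m) (chk n), inf_idem, Nat.add_right_cancel_iff]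

/-- Random variables. -/
abbrev RV (Ω : Type) [MeasurableSpace Ω] : Type := {X : Ω → ℝ // Measurable X}

variable {Ω : Type} [MeasurableSpace Ω] {μ : Measure Ω} (A : MeasAlg μ)

/-- The real number of the Boolean-valued universe given by a random variable: its Dedekind cut. -/
noncomputable def toB (X : RV Ω) : BSet A.B :=
  BSet.mk ℚ (fun q => chk (Encodable.encode q)) (fun q => A.cls {ω | (q : ℝ) < X.1 ω})

theorem measurable_cut (X : RV Ω) (q : ℚ) : MeasurableSet {ω | (q : ℝ) < X.1 ω} :=
  measurableSet_lt measurable_const X.2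

theorem mem_toB (X : RV Ω) (q : ℚ) :
    BSet.mem (chk (Encodable.encode q)) (toB A X) = A.cls {ω | (q : ℝ) < X.1 ω} := by
  unfold toB
  rw [BSet.mem_mk]
  apply le_antisymm
  · refine iSup_le fun r => ?_
    rw [eq_chk]
    split_ifs with h
    · rw [Encodable.encode_injective h, inf_top_eq]
    · rw [inf_bot_eq]
      exact bot_le
  · refine le_iSup_of_le q ?_
    rw [eq_chk, if_pos rfl, inf_top_eq]

theorem eq_toB (X Y : RV Ω) : BSet.eq (toB A X) (toB A Y) = A.cls {ω | X.1 ω = Y.1 ω} := by
  have h1 : BSet.eq (toB A X) (toB A Y) =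
      (⨅ q : ℚ, A.cls {ω | (q : ℝ) < X.1 ω} ⇨ A.cls {ω | (q : ℝ) < Y.1 ω}) ⊓
      (⨅ q : ℚ, A.cls {ω | (q : ℝ) < Y.1 ω} ⇨ A.cls {ω | (q : ℝ) < X.1 ω}) := by
    have h2 : BSet.eq (toB A X) (toB A Y) =
      (⨅ q : ℚ, A.cls {ω | (q : ℝ) < X.1 ω} ⇨ BSet.mem (chk (Encodable.encode q)) (toB A Y)) ⊓
      (⨅ q : ℚ, A.cls {ω | (q : ℝ) < Y.1 ω} ⇨ BSet.mem (chk (Encodable.encode q)) (toB A X)) := by
      unfold toB
      rw [BSet.eq_mk']
    rw [h2]
    simp only [mem_toB]
  rw [h1]
  simp only [A.cls_himp (measurable_cut _ _) (measurable_cut _ _)]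
  rw [← A.cls_iInter (fun q => (measurable_cut X q).compl.union (measurable_cut Y q)),
    ← A.cls_iInter (fun q => (measurable_cut Y q).compl.union (measurable_cut X q)),
    ← A.cls_inter (MeasurableSet.iInter fun q => (measurable_cut X q).compl.union
      (measurable_cut Y q)) (MeasurableSet.iInter fun q => (measurable_cut Y q).compl.union
      (measurable_cut X q))]
  congr 1
  ext ω
  simp only [Set.mem_inter_iff, Set.mem_iInter, Set.mem_union, Set.mem_compl_iff,
    Set.mem_ofPred_eq, not_lt]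
  constructor
  · rintro ⟨h3, h4⟩
    apply le_antisymm
    · by_contra hlt
      obtain ⟨q, hq1, hq2⟩ := exists_rat_btwn (not_le.mp hlt)
      rcases h3 q with h5 | h5 <;> linarith
    · by_contra hlt
      obtain ⟨q, hq1, hq2⟩ := exists_rat_btwn (not_le.mp hlt)
      rcases h4 q with h5 | h5 <;> linarith
  · intro h3
    rw [h3]
    exact ⟨fun q => le_or_gt _ _, fun q => le_or_gt _ _⟩

/-- The set of real numbers. -/
noncomputable def RR : BSet A.B := BSet.mk (RV Ω) (toB A) (fun _ => ⊤)

/-- The graph of the addition. -/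
noncomputable def PP : BSet A.B :=
  BSet.mk (RV Ω × RV Ω) (fun p => opr (opr (toB A p.1) (toB A p.2))
    (toB A ⟨fun ω => p.1.1 ω + p.2.1 ω, p.1.2.add p.2.2⟩)) (fun _ => ⊤)

/-- The order. -/
noncomputable def LL : BSet A.B :=
  BSet.mk (RV Ω × RV Ω) (fun p => opr (toB A p.1) (toB A p.2))
    (fun p => A.cls {ω | p.1.1 ω < p.2.1 ω})

/-- The set of the real numbers given by a family of random variables. -/
noncomputable def GG {I : Type} (E : I → RV Ω) : BSet A.B :=
  BSet.mk I (fun c => toB A (E c)) (fun _ => ⊤)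

end Pool.Agent.LibPlas90
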