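import Pool.Agent.LibPlas90.RealNames

/-!
The order, the addition and bounded quantifiers over the set of real numbers.
-/

namespace Pool.Agent.LibPlas90

open MeasureTheory BSet

variable {Ω : Type} [MeasurableSpace Ω] {μ : Measure Ω} (A : MeasAlg μ)

theorem meas_lt (X Y : RV Ω) : MeasurableSet {ω | X.1 ω < Y.1 ω} := measurableSet_lt X.2 Y.2

theorem meas_eq (X Y : RV Ω) : MeasurableSet {ω | X.1 ω = Y.1 ω} := measurableSet_eq_fun X.2 Y.2

theorem meas_add (X Y Z : RV Ω) : MeasurableSet {ω | X.1 ω + Y.1 ω = Z.1 ω} :=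
  measurableSet_eq_fun (X.2.add Y.2) Z.2

theorem meas_add' (X Y Z : RV Ω) : MeasurableSet {ω | Z.1 ω = X.1 ω + Y.1 ω} :=
  measurableSet_eq_fun Z.2 (X.2.add Y.2)

-- PLAS-6
theorem rel_LL (X Y : RV Ω) :
    rel (LL A) (toB A X) (toB A Y) = A.cls {ω | X.1 ω < Y.1 ω} := by
  rw [rel_eq]
  unfold LL
  rw [BSet.mem_mk]
  apply le_antisymm
  · refine iSup_le ?_
    rintro ⟨X', Y'⟩
    simp only [eq_opr, eq_toB]
    rw [← A.cls_inter (meas_eq _ _) (meas_eq _ _), ← A.cls_inter (meas_lt _ _)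
      ((meas_eq _ _).inter (meas_eq _ _))]
    refine A.cls_mono ((meas_lt _ _).inter ((meas_eq _ _).inter (meas_eq _ _))) (meas_lt _ _) ?_
    rintro ω ⟨h1, h2, h3⟩
    simp only [Set.mem_ofPred_eq] at h1 h2 h3 ⊢
    rw [h2, h3]
    exact h1
  · refine le_iSup_of_le (X, Y) ?_
    rw [BSet.eq_refl, inf_top_eq]

theorem rel3_PP (X Y Z : RV Ω) :
    rel3 (PP A) (toB A X) (toB A Y) (toB A Z) = A.cls {ω | X.1 ω + Y.1 ω = Z.1 ω} := by
  rw [rel3_eq]
  unfold PP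
  rw [BSet.mem_mk]
  apply le_antisymm
  · refine iSup_le ?_
    rintro ⟨X', Y'⟩
    simp only [eq_opr, eq_toB]
    rw [top_inf_eq, ← A.cls_inter (meas_eq _ _) (meas_eq _ _), ← A.cls_inter
      ((meas_eq _ _).inter (meas_eq _ _)) (meas_add' X' Y' Z)]
    refine A.cls_mono (((meas_eq _ _).inter (meas_eq _ _)).inter
      (meas_add' X' Y' Z)) (meas_add _ _ _) ?_
    rintro ω ⟨⟨h1, h2⟩, h3⟩
    simp only [Set.mem_ofPred_eq] at h1 h2 h3 ⊢
    rw [h1, h2]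
    exact h3.symm
  · refine le_iSup_of_le (X, Y) ?_
    rw [eq_opr, BSet.eq_refl, eq_toB, top_inf_eq, top_inf_eq]
    refine A.cls_mono (meas_add _ _ _) (meas_add' X Y Z) ?_
    intro ω h
    exact Eq.symm h

theorem all_RR {φ : BSet A.B → A.B} (h : Ext φ) : all (RR A) φ = ⨅ X : RV Ω, φ (toB A X) := by
  unfold RR
  rw [all_mk h]
  simp

theorem ex_RR {φ : BSet A.B → A.B} (h : Ext φ) : ex (RR A) φ = ⨆ X : RV Ω, φ (toB A X) := by
  unfold RR
  rw [ex_mk h]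
  simp

theorem all_GG {I : Type} (E : I → RV Ω) {φ : BSet A.B → A.B} (h : Ext φ) :
    all (GG A E) φ = ⨅ c : I, φ (toB A (E c)) := by
  unfold GG
  rw [all_mk h]
  simp

theorem ex_GG {I : Type} (E : I → RV Ω) {φ : BSet A.B → A.B} (h : Ext φ) :
    ex (GG A E) φ = ⨆ c : I, φ (toB A (E c)) := by
  unfold GG
  rw [ex_mk h]
  simp

theorem mem_RR (X : RV Ω) : BSet.mem (toB A X) (RR A) = ⊤ := by
  unfold RR
  rw [BSet.mem_mk]
  refine top_le_iff.mp (le_iSup_of_le X ?_)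
  rw [BSet.eq_refl, inf_top_eq]

theorem mem_GG {I : Type} (E : I → RV Ω) (X : RV Ω) :
    BSet.mem (toB A X) (GG A E) = ⨆ c : I, A.cls {ω | X.1 ω = (E c).1 ω} := by
  unfold GG
  rw [BSet.mem_mk]
  simp only [top_inf_eq, eq_toB]

end Pool.Agent.LibPlas90
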